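import Pool.Agent.LibHL.Api

/-!
# LibHJ : the linear bound, definitions
-/

set_option autoImplicit false
set_option linter.unusedSectionVars false

open scoped Classical

noncomputable section

namespace HD

variable {V : Type*} [Fintype V] [DecidableEq V] (G : SimpleGraph V)

/-- `U` has at most `m` pairwise disjoint subsets which are not `c`-colourable. -/
def ND (U : Finset V) (m c : ℕ) : Prop :=
  ¬ ∃ W : Fin (m + 1) → Finset V, (∀ i, W i ⊆ U ∧ ¬ Col G (W i) c) ∧ ∀ i j, i ≠ j → Disjoint (W i) (W j)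

/-- A blob: a connected set of minimum degree at least `e` which is not `l`-colourable. -/
def Blob (e l : ℕ) (K : Finset V) : Prop :=
  Conn G K ∧ (∀ v ∈ K, e ≤ (nbIn G K v).card) ∧ ¬ Col G K l

/-- The union of all blobs inside `X`. -/
def bu (e l : ℕ) (X : Finset V) : Finset V := (X.powerset.filter (fun K => Blob G e l K)).biUnion id

/-- A haven of order `k` inside `H`, with values of minimum degree at least `e`, for which `B` is well linked. -/
structure Haven (H B : Finset V) (e k : ℕ) (Γ : Finset V → Finset V) : Prop where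
  bsub : B ⊆ H
  sub : ∀ Z : Finset V, Z.card ≤ k → Γ Z ⊆ H \ Z
  conn : ∀ Z : Finset V, Z.card ≤ k → Conn G (Γ Z)
  deg : ∀ Z : Finset V, Z.card ≤ k → ∀ v ∈ Γ Z, e ≤ (nbIn G (Γ Z) v).card
  anti : ∀ Z Z' : Finset V, Z ⊆ Z' → Z'.card ≤ k → Γ Z' ⊆ Γ Z
  rc : ∀ Z : Finset V, Z.card ≤ k → (B \ Γ Z).card ≤ Z.card

/-- `A` links any two subsets of `B` with at least `z` vertices, up to the factor `q`. -/
def Lk (A B : Finset V) (z0 k q : ℕ) : Prop :=
  ∀ z, z0 ≤ z → z ≤ k → ∀ Z1 ⊆ B, ∀ Z2 ⊆ B, z ≤ Z1.card → z ≤ Z2.card → ∀ S : Finset V, q * S.card < z →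
    ∃ x ∈ Z1 \ S, ∃ y ∈ Z2 \ S, Joined G (insert x (insert y (A \ S))) x y

/-- A rooted clique model with `ν` roots inside `W`. -/
def RM (W : Finset V) (ν : ℕ) (x : Fin ν → V) (f : Fin ν → Finset V) : Prop :=
  (∀ a, x a ∈ f a ∧ f a ⊆ W ∧ Conn G (f a)) ∧ ∀ a b, a ≠ b → Disjoint (f a) (f b) ∧ Touch G (f a) (f b)

end HD
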