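import Pool.Agent.LibHJ.T
import Pool.Agent.LibHD.X2
import Pool.Agent.LibHD.G

/-!
# LibHJ : block M, the recursion and the linear bound for small graphs
-/

set_option autoImplicit false
set_option linter.unusedSectionVars false

open scoped Classical

noncomputable section

namespace HD

variable {V : Type*} [Fintype V] [DecidableEq V] {G : SimpleGraph V}

/-! Row M1 -/
/-- M1: the main step, with an abstract bound for sets with few disjoint bad subsets. -/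
theorem main_step2 {U : Finset V} {t r g m c1 X : ℕ} (ht : 1 ≤ t) (hr : 2 ≤ r) (hg : 1 ≤ g) (htr : t ≤ r * g)
    (hm : m = r * g * (r - 1)) (hU : U.card ≤ (2 ^ 11 * m) ^ 2)
    (hX : ∀ I ⊆ U, ND G I (r * r - 1) c1 → Col G I X)
    (hc1 : ∀ W ⊆ U, ¬ Model G W (2 * g) → Col G W c1) (hmod : ¬ Model G U t) :
    Col G U (3 * (2 ^ 26 * m) + 3 * X) := by
  by_contra hcon
  have hm1 : 1 ≤ m := by
    rw [hm]
    have h1 : 1 ≤ r - 1 := by omega
    have h2 : 1 ≤ r * g := Nat.mul_pos (by omega) hg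
    exact Nat.mul_pos h2 h1
  obtain ⟨I, D, hIU, hDU, hID, hDc, hnI, hdeg, hrel⟩ := core (κ := 2 ^ 26 * m) hcon (by omega)
  have hc0 : 3 * (2 ^ 26 * m) + 3 * X - 2 * (2 ^ 26 * m) = 2 ^ 26 * m + 3 * X := by omega
  rw [hc0] at hnI hdeg
  have hk0 : 2 ^ 15 * (2 ^ 11 * m) = 2 ^ 26 * m := by ring
  obtain ⟨c, hc⟩ := good_partition (G := G) (I := I) (D := D) (k := 2 ^ 11 * m) (by omega) hID
    (by rw [hk0]; exact hDc) ((Finset.card_le_card hIU).trans hU)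
    (fun v hv => by rw [hk0]; exact (Nat.le_add_right _ _).trans (hdeg v hv))
    (fun S hS => hrel S (by rw [hk0] at hS; exact hS))
  have hj : ∃ j : Fin 3, ¬ Col G (I.filter (fun v => c v = j)) X := by
    by_contra hall
    push Not at hall
    apply hnI
    refine (((hall 0).union (hall 1)).union (hall 2)).mono ?_ (by omega)
    intro v hv
    have h3 : c v = 0 ∨ c v = 1 ∨ c v = 2 := by
      have : ∀ x : Fin 3, x = 0 ∨ x = 1 ∨ x = 2 := by decide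
      exact this (c v)
    simp only [Finset.mem_union, Finset.mem_filter]
    rcases h3 with h3 | h3 | h3
    · exact Or.inl (Or.inl ⟨hv, h3⟩)
    · exact Or.inl (Or.inr ⟨hv, h3⟩)
    · exact Or.inr ⟨hv, h3⟩
  obtain ⟨j, hjn⟩ := hj
  obtain ⟨j1, j2, hj1, hj2, hj12⟩ : ∃ j1 j2 : Fin 3, j ≠ j1 ∧ j ≠ j2 ∧ j1 ≠ j2 := by
    have : ∀ j : Fin 3, ∃ j1 j2 : Fin 3, j ≠ j1 ∧ j ≠ j2 ∧ j1 ≠ j2 := by decide
    exact this j
  have hsubU : ∀ i : Fin 3, I.filter (fun v => c v = i) ⊆ U := fun i => (Finset.filter_subset _ _).trans hIU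
  have hdisj : ∀ a b : Fin 3, a ≠ b → Disjoint (I.filter (fun v => c v = a)) (I.filter (fun v => c v = b)) := by
    intro a b hab
    rw [Finset.disjoint_left]
    intro v h1 h2
    exact hab ((Finset.mem_filter.1 h1).2.symm.trans (Finset.mem_filter.1 h2).2)
  have hdD : ∀ a : Fin 3, Disjoint (I.filter (fun v => c v = a)) D := fun a =>
    Finset.disjoint_of_subset_left (Finset.filter_subset _ _) hID
  have hW : ∃ W : Fin (r * r) → Finset V, (∀ i, W i ⊆ I.filter (fun v => c v = j) ∧ ¬ Col G (W i) c1) ∧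
      ∀ i j, i ≠ j → Disjoint (W i) (W j) := by
    by_contra hno
    apply hjn
    refine hX (I.filter (fun v => c v = j)) (hsubU j) ?_
    rintro ⟨W, hW1, hW2⟩
    have hrr : r * r = r * r - 1 + 1 := by
      have h1 : 1 ≤ r * r := Nat.mul_pos (by omega) (by omega)
      omega
    refine hno ⟨fun i => W (Fin.cast hrr i), fun i => hW1 _, fun i i' hne => hW2 _ _ ?_⟩
    intro h
    exact hne (Fin.cast_injective hrr h)
  obtain ⟨W, hW1, hW2⟩ := hW
  have hIne : I.Nonempty := by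
    rw [Finset.nonempty_iff_ne_empty]
    intro h
    apply hnI
    rw [h]
    exact col_empty _
  obtain ⟨v0, hv0⟩ := hIne
  have hA2ne : (I.filter (fun v => c v = j2)).Nonempty := by
    have h1 := (hc j2).2 v0 hv0
    have h2 : 0 < (nbIn G (I.filter (fun v => c v = j2)) v0).card := by omega
    obtain ⟨u, hu⟩ := Finset.card_pos.1 h2
    exact ⟨u, (mem_nbIn.1 hu).1⟩
  have hmem : ∀ (i : Fin 3) v, v ∈ I.filter (fun v => c v = i) → v ∈ I := fun i v hv => (Finset.mem_filter.1 hv).1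
  have hlink := linking (G := G) (B := I.filter (fun v => c v = j)) (A1 := I.filter (fun v => c v = j1))
    (A2 := I.filter (fun v => c v = j2)) (D := D) (r := r) (g := g) (m := m) (k := 2 ^ 11 * m) hr hg hm le_rfl
    (hdisj j j1 hj1) (hdisj j j2 hj2) (hdD j) (hdisj j1 j2 hj12) (hdD j2) (hc j1).1
    (fun v hv => (hc j1).2 v (hmem j v hv)) (fun v hv => (hc j1).2 v (hmem j2 v hv))
    (fun v hv => (hc j2).2 v (hmem j2 v hv)) hA2ne (fun a b => W (finProdFinEquiv (a, b))) ?_ ?_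
  · apply hmod
    refine hlink.mono ?_ htr
    refine Finset.union_subset (Finset.union_subset (Finset.union_subset (hsubU j) (hsubU j1)) (hsubU j2)) hDU
  · intro a b _
    refine ⟨(hW1 _).1, ?_⟩
    by_contra hno
    exact (hW1 (finProdFinEquiv (a, b))).2 (hc1 _ ((hW1 _).1.trans (hsubU j)) hno)
  · intro a b a' b' _ _ hne
    apply hW2
    intro h
    exact hne (finProdFinEquiv.injective h)

/-! Row M2 -/
/-- M2: the a priori bound. -/
theorem col_apriori {t c : ℕ} (ht : 1 ≤ t) (hc : 2 ^ 20 * t * (1 + Real.log t) < (c : ℝ)) (U : Finset V)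
    (hmod : ¬ Model G U t) : Col G U c := by
  have key : ∀ n : ℕ, ∀ W : Finset V, W.card ≤ n → ¬ Model G W t → Col G W c := by
    intro n
    induction n with
    | zero =>
      intro W hW _
      have : W = ∅ := Finset.card_eq_zero.1 (Nat.le_zero.1 hW)
      rw [this]
      exact col_empty c
    | succ n ih =>
      intro W hW hW2
      rcases W.eq_empty_or_nonempty with h0 | hne
      · rw [h0]
        exact col_empty c
      · obtain ⟨v, hv, hdeg⟩ := low_degree ht hne hW2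
        apply G3_extend hv
        · apply ih
          · rw [Finset.card_erase_of_mem hv]
            omega
          · intro hm
            exact hW2 (hm.mono (Finset.erase_subset _ _) le_rfl)
        · exact_mod_cast lt_of_le_of_lt hdeg hc
  exact key U.card U le_rfl hmod

/-- the bound -/
def Fb (E : ℝ) (t : ℕ) : ℕ := ⌊2 ^ 42 * (t : ℝ) + E * Real.sqrt t⌋₊

/-- the cost of the levels from level `a` on -/
def Wb (E : ℝ) (t a : ℕ) : ℕ := ⌊2 ^ 64 * ((t : ℝ) / 2 ^ a) + E * 2 ^ 12 * Real.sqrt ((t : ℝ) / 2 ^ a)⌋₊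

/-! Row M3 -/
/-- M3: the costs of the levels add up. -/
theorem w_num {E : ℝ} (hE : 0 ≤ E) {t a : ℕ} (ha : 40 ≤ a) (ht : 2 ^ a ≤ t) :
    2 * (2 * Fb E (2 ^ 18 * ta t a) + t / 2 ^ a) + Wb E t (3 * a / 2) ≤ Wb E t a ∧ 1 ≤ 2 ^ 18 * ta t a ∧
      2 ^ 18 * ta t a < t := by
  have hP0 : 0 < 2 ^ a := Nat.two_pow_pos a
  have hP40 : 2 ^ 40 ≤ 2 ^ a := Nat.pow_le_pow_right (by norm_num) ha
  have ht0 : 0 < t := lt_of_lt_of_le hP0 ht
  have h1 : ta t a * 2 ^ a ≤ 2 * t := by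
    have h2 : ta t a * 2 ^ a ≤ t + 2 ^ a - 1 := Nat.div_mul_le_self _ _
    omega
  have h3 : 1 ≤ ta t a := by
    unfold ta
    rw [Nat.one_le_div_iff hP0]
    omega
  have h4 : 2 ^ 18 * ta t a < t := by
    by_contra hcon
    rw [not_lt] at hcon
    have h5 : t * 2 ^ a ≤ 2 ^ 18 * ta t a * 2 ^ a := Nat.mul_le_mul_right _ hcon
    have h6 : 2 ^ 18 * ta t a * 2 ^ a ≤ 2 ^ 18 * (2 * t) := by
      rw [mul_assoc]
      exact Nat.mul_le_mul_left _ h1
    have h7 : t * 2 ^ 40 ≤ t * 2 ^ a := Nat.mul_le_mul_left _ hP40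
    omega
  refine ⟨?_, by omega, h4⟩
  obtain ⟨u, hu⟩ : ∃ u : ℝ, u = (t : ℝ) / 2 ^ a := ⟨_, rfl⟩
  have hPR : (0 : ℝ) < 2 ^ a := by positivity
  have hu0 : 0 ≤ u := by rw [hu]; positivity
  have hs0 : 0 ≤ Real.sqrt u := Real.sqrt_nonneg u
  have hss : Real.sqrt u ^ 2 = u := Real.sq_sqrt hu0
  have h8 : (ta t a : ℝ) ≤ 2 * u := by
    rw [hu, ← mul_div_assoc, le_div_iff₀ hPR]
    exact_mod_cast h1
  -- the first term
  have h9 : (Fb E (2 ^ 18 * ta t a) : ℝ) ≤ 2 ^ 61 * u + 725 * (E * Real.sqrt u) := by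
    have h10 : (Fb E (2 ^ 18 * ta t a) : ℝ) ≤ 2 ^ 42 * ((2 ^ 18 * ta t a : ℕ) : ℝ) +
        E * Real.sqrt ((2 ^ 18 * ta t a : ℕ) : ℝ) := by
      unfold Fb
      exact Nat.floor_le (by positivity)
    have h11 : ((2 ^ 18 * ta t a : ℕ) : ℝ) ≤ 2 ^ 19 * u := by
      push_cast
      linarith
    have h12 : Real.sqrt ((2 ^ 18 * ta t a : ℕ) : ℝ) ≤ 725 * Real.sqrt u := by
      rw [Real.sqrt_le_iff]
      refine ⟨by positivity, ?_⟩
      rw [mul_pow, hss]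
      linarith
    have h13 : E * Real.sqrt ((2 ^ 18 * ta t a : ℕ) : ℝ) ≤ E * (725 * Real.sqrt u) :=
      mul_le_mul_of_nonneg_left h12 hE
    linarith
  have h14 : ((t / 2 ^ a : ℕ) : ℝ) ≤ u := by
    have := Nat.cast_div_le (α := ℝ) (m := t) (n := 2 ^ a)
    rw [hu]
    push_cast at this
    exact this
  -- the last term
  have h15 : (Wb E t (3 * a / 2) : ℝ) ≤ 2 ^ 44 * u + 4 * (E * Real.sqrt u) := by
    have h16 : (t : ℝ) / 2 ^ (3 * a / 2) ≤ u / 2 ^ 20 := by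
      rw [hu, div_div, ← pow_add]
      apply div_le_div_of_nonneg_left (Nat.cast_nonneg t) (by positivity)
      exact pow_le_pow_right₀ (by norm_num) (by omega)
    have h17 : Real.sqrt ((t : ℝ) / 2 ^ (3 * a / 2)) ≤ Real.sqrt u / 2 ^ 10 := by
      rw [Real.sqrt_le_iff]
      refine ⟨by positivity, ?_⟩
      rw [div_pow, hss, ← pow_mul]
      exact h16
    have h18 : (Wb E t (3 * a / 2) : ℝ) ≤ 2 ^ 64 * ((t : ℝ) / 2 ^ (3 * a / 2)) +
        E * 2 ^ 12 * Real.sqrt ((t : ℝ) / 2 ^ (3 * a / 2)) := by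
      unfold Wb
      exact Nat.floor_le (by positivity)
    have h19 : E * 2 ^ 12 * Real.sqrt ((t : ℝ) / 2 ^ (3 * a / 2)) ≤
        E * 2 ^ 12 * (Real.sqrt u / 2 ^ 10) :=
      mul_le_mul_of_nonneg_left h17 (by positivity)
    have h20 : E * 2 ^ 12 * (Real.sqrt u / 2 ^ 10) = 4 * (E * Real.sqrt u) := by ring
    linarith
  have hEs : 0 ≤ E * Real.sqrt u := mul_nonneg hE hs0
  have h21 : Wb E t a = ⌊2 ^ 64 * u + E * 2 ^ 12 * Real.sqrt u⌋₊ := by
    unfold Wb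
    rw [hu]
  rw [h21]
  apply Nat.le_floor
  rw [Nat.cast_add, Nat.cast_mul, Nat.cast_add, Nat.cast_mul, Nat.cast_ofNat]
  have h22 : E * 2 ^ 12 * Real.sqrt u = 4096 * (E * Real.sqrt u) := by ring
  rw [h22]
  obtain ⟨F1, hF1⟩ : ∃ F1 : ℝ, F1 = (Fb E (2 ^ 18 * ta t a) : ℝ) := ⟨_, rfl⟩
  obtain ⟨F2, hF2⟩ : ∃ F2 : ℝ, F2 = (Wb E t (3 * a / 2) : ℝ) := ⟨_, rfl⟩
  obtain ⟨F3, hF3⟩ : ∃ F3 : ℝ, F3 = ((t / 2 ^ a : ℕ) : ℝ) := ⟨_, rfl⟩
  obtain ⟨F4, hF4⟩ : ∃ F4 : ℝ, F4 = E * Real.sqrt u := ⟨_, rfl⟩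
  rw [← hF4] at h9 h15 hEs ⊢
  rw [← hF1] at h9 ⊢
  rw [← hF2] at h15 ⊢
  rw [← hF3] at h14 ⊢
  have e1 : (2 : ℝ) ^ 64 = 2 * 2 ^ 63 := by ring
  have e2 : (2 : ℝ) ^ 63 = 4 * 2 ^ 61 := by ring
  have e3 : (2 : ℝ) ^ 44 * u + 2 * u ≤ 2 ^ 63 * u := by
    have : (2 : ℝ) ^ 44 + 2 ≤ 2 ^ 63 := by norm_num
    nlinarith
  rw [e1, e2]
  rw [e2] at e3
  linarith

/-! Row M4 -/
/-- M4: the numerical estimate of the main step. -/
theorem m_num {E : ℝ} (hE : 0 ≤ E) {t g m : ℕ} (ht : 2 ^ 13 ≤ t) (hg : g = (t + 2 ^ 13 - 1) / 2 ^ 13)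
    (hm : m = 2 ^ 13 * g * (2 ^ 13 - 1)) :
    3 * (2 ^ 26 * m) + 3 * (4 * t * 1775 + (Fb E (2 * g) + t / 2 ^ 40) + t + Wb E t 40) ≤ Fb E t ∧
      1 ≤ g ∧ 2 * g < t ∧ t ≤ 2 ^ 13 * g ∧ t ≤ m := by
  have h0 : (2 : ℕ) ^ 13 = 8192 := by norm_num
  rw [h0] at hg hm ht ⊢
  have hg1 : 1 ≤ g := by omega
  have hg2 : 8192 * g ≤ 2 * t := by omega
  have hg3 : t ≤ 8192 * g := by omega
  have hm1 : m = 67100672 * g := by omega
  refine ⟨?_, hg1, by omega, hg3, by omega⟩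
  have hm2 : m ≤ 16384 * t := by omega
  have hgR : 8192 * (g : ℝ) ≤ 2 * t := by exact_mod_cast hg2
  have hmR : (m : ℝ) ≤ 16384 * t := by exact_mod_cast hm2
  have ht0 : (0 : ℝ) ≤ t := Nat.cast_nonneg t
  have hs0 : 0 ≤ Real.sqrt t := Real.sqrt_nonneg _
  have hss : Real.sqrt t ^ 2 = t := Real.sq_sqrt ht0
  have h1 : (Fb E (2 * g) : ℝ) ≤ 2 ^ 31 * t + (1 / 45) * (E * Real.sqrt t) := by
    have h2 : (Fb E (2 * g) : ℝ) ≤ 2 ^ 42 * ((2 * g : ℕ) : ℝ) +
        E * Real.sqrt ((2 * g : ℕ) : ℝ) := by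
      unfold Fb
      exact Nat.floor_le (by positivity)
    have h3 : ((2 * g : ℕ) : ℝ) ≤ t / 2048 := by
      push_cast
      linarith
    have h4 : Real.sqrt ((2 * g : ℕ) : ℝ) ≤ Real.sqrt t / 45 := by
      rw [Real.sqrt_le_iff]
      refine ⟨by positivity, ?_⟩
      rw [div_pow, hss]
      linarith
    have h5 : E * Real.sqrt ((2 * g : ℕ) : ℝ) ≤ E * (Real.sqrt t / 45) :=
      mul_le_mul_of_nonneg_left h4 hE
    linarith
  have h6 : ((t / 2 ^ 40 : ℕ) : ℝ) ≤ t := by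
    exact_mod_cast Nat.div_le_self _ _
  have h7 : (Wb E t 40 : ℝ) ≤ 2 ^ 24 * t + (1 / 256) * (E * Real.sqrt t) := by
    have h8 : (Wb E t 40 : ℝ) ≤ 2 ^ 64 * ((t : ℝ) / 2 ^ 40) +
        E * 2 ^ 12 * Real.sqrt ((t : ℝ) / 2 ^ 40) := by
      unfold Wb
      exact Nat.floor_le (by positivity)
    have h9 : Real.sqrt ((t : ℝ) / 2 ^ 40) ≤ Real.sqrt t / 2 ^ 20 := by
      rw [Real.sqrt_le_iff]
      refine ⟨by positivity, ?_⟩
      rw [div_pow, hss, ← pow_mul]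
    have h10 : E * 2 ^ 12 * Real.sqrt ((t : ℝ) / 2 ^ 40) ≤ E * 2 ^ 12 * (Real.sqrt t / 2 ^ 20) :=
      mul_le_mul_of_nonneg_left h9 (by positivity)
    have h11 : E * 2 ^ 12 * (Real.sqrt t / 2 ^ 20) = (1 / 256) * (E * Real.sqrt t) := by ring
    linarith
  have hEs : 0 ≤ E * Real.sqrt t := mul_nonneg hE hs0
  have h12 : Fb E t = ⌊2 ^ 42 * (t : ℝ) + E * Real.sqrt t⌋₊ := rfl
  rw [h12]
  apply Nat.le_floor
  push_cast
  push_cast at h6
  linarith

/-- M5: one step of the recursion. -/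
theorem rec_step {E : ℝ} (hE : 0 ≤ E) {t n : ℕ} (ht : 2 ^ 13 ≤ t) (hnt : n ^ 2 ≤ t ^ 3)
    (ih : ∀ t' < t, 1 ≤ t' → ∀ A : Finset V, A.card ≤ n → ¬ Model G A t' → Col G A (Fb E t'))
    (U : Finset V) (hU : U.card ≤ n) (hmod : ¬ Model G U t) : Col G U (Fb E t) := by
  obtain ⟨g, hg⟩ : ∃ g, g = (t + 2 ^ 13 - 1) / 2 ^ 13 := ⟨_, rfl⟩
  obtain ⟨m, hm⟩ : ∃ m, m = 2 ^ 13 * g * (2 ^ 13 - 1) := ⟨_, rfl⟩
  obtain ⟨n1, n2, n3, n4, n5⟩ := m_num hE ht hg hm
  have hn : n ≤ t ^ 2 := by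
    by_contra hcon
    push Not at hcon
    have h1 : (t ^ 2) ^ 2 < n ^ 2 := Nat.pow_lt_pow_left hcon (by norm_num)
    have h2 : t ^ 3 ≤ (t ^ 2) ^ 2 := by
      rw [← pow_mul]
      exact Nat.pow_le_pow_right (by omega) (by norm_num)
    omega
  refine (main_step2 (t := t) (r := 2 ^ 13) (g := g) (m := m) (c1 := Fb E (2 * g))
    (X := 4 * t * 1775 + (Fb E (2 * g) + t / 2 ^ 40) + t + Wb E t 40) (by omega) (by norm_num) n2 n4 hm ?_ ?_ ?_
    hmod).mono (Finset.Subset.refl _) n1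
  · have h1 : t ^ 2 ≤ (2 ^ 11 * m) ^ 2 := Nat.pow_le_pow_left (by omega) 2
    omega
  · intro I hI hno
    have hIc : I.card ≤ n := (Finset.card_le_card hI).trans hU
    refine theoremL (by omega) ((Nat.pow_le_pow_left hIc 2).trans hnt)
      (fun h => hmod (h.mono hI le_rfl)) (fun a => Fb E (2 ^ 18 * ta t a)) (fun a => Wb E t a) ?_ ?_ ?_ ?_
    · intro a ha hlt A hA hA'
      have h2 := (level_num ha ((Nat.pow_le_pow_left hIc 2).trans hnt) hlt).2.2.2.2.2.2.2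
      have h3 : 2 ^ a ≤ t := (Nat.pow_le_pow_right (by norm_num) (by omega)).trans h2.le
      obtain ⟨-, w2, w3⟩ := w_num hE ha h3
      exact ih _ w3 w2 A ((Finset.card_le_card hA).trans hIc) hA'
    · intro a ha hlt
      have h2 := (level_num ha ((Nat.pow_le_pow_left hIc 2).trans hnt) hlt).2.2.2.2.2.2.2
      have h3 : 2 ^ a ≤ t := (Nat.pow_le_pow_right (by norm_num) (by omega)).trans h2.le
      exact (w_num hE ha h3).1
    · refine hno.mono (Finset.Subset.refl _) ?_ (Nat.le_add_right _ _)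
      have h4 : (2 : ℕ) ^ 13 * 2 ^ 13 - 1 ≤ 2 ^ 26 := by norm_num
      exact h4.trans (Nat.pow_le_pow_right (by norm_num) (by norm_num))
    · exact Nat.le_add_left _ _
  · intro W hW hno
    exact ih (2 * g) n3 (by omega) W ((Finset.card_le_card hW).trans hU) hno

/-! Row M6 -/
/-- M6: the a priori bound is good enough when `t` is small. -/
theorem start_num {E : ℝ} {n t : ℕ} (ht : 1 ≤ t) (hn : 1 ≤ n)
    (hE : E = 2 ^ 21 * (1 + Real.log (n : ℝ)) * (n : ℝ) ^ ((1 : ℝ) / 3)) (h : t < 2 ^ 13 ∨ t ^ 3 < n ^ 2) :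
    2 ^ 20 * (t : ℝ) * (1 + Real.log t) < (Fb E t : ℝ) := by
  have ht' : (1:ℝ) ≤ t := by exact_mod_cast ht
  have hn' : (1:ℝ) ≤ n := by exact_mod_cast hn
  have ht0 : (0:ℝ) ≤ t := by linarith
  have hn0 : (0:ℝ) ≤ n := by linarith
  have hlogn : 0 ≤ Real.log n := Real.log_nonneg hn'
  have hlogt : 0 ≤ Real.log t := Real.log_nonneg ht'
  have hrn : 0 ≤ (n:ℝ) ^ ((1:ℝ)/3) := Real.rpow_nonneg hn0 _
  have hcn : 0 ≤ 2 ^ 21 * (1 + Real.log (n : ℝ)) := by linarith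
  have hE0 : 0 ≤ E := by
    rw [hE]
    exact mul_nonneg hcn hrn
  have hs : 0 ≤ Real.sqrt t := Real.sqrt_nonneg _
  have hF : 2 ^ 42 * (t : ℝ) + E * Real.sqrt t < (Fb E t : ℝ) + 1 := by
    unfold Fb
    exact Nat.lt_floor_add_one _
  rcases h with h | h
  · have hlog : Real.log t ≤ 10 := by
      have h1 : (t:ℝ) ≤ 2 ^ 13 := by exact_mod_cast h.le
      have h2 : Real.log t ≤ Real.log ((2:ℝ) ^ 13) := Real.log_le_log (by linarith) h1
      rw [Real.log_pow] at h2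
      have h3 := Real.log_two_lt_d9
      push_cast at h2
      linarith
    have hES : 0 ≤ E * Real.sqrt t := mul_nonneg hE0 hs
    have hm : (t:ℝ) * Real.log t ≤ t * 10 := mul_le_mul_of_nonneg_left hlog ht0
    have he : 2 ^ 20 * (t : ℝ) * (1 + Real.log t) = 2 ^ 20 * (t:ℝ) + 2 ^ 20 * ((t:ℝ) * Real.log t) := by ring
    rw [he]
    linarith
  · have htn : t ≤ n := by
      by_contra hcon
      have hcon' : n ≤ t := by omega
      have h1 : n ^ 2 ≤ t ^ 3 := by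
        calc n ^ 2 ≤ t ^ 2 := Nat.pow_le_pow_left hcon' 2
          _ ≤ t ^ 3 := Nat.pow_le_pow_right ht (by norm_num)
      omega
    have htn' : (t:ℝ) ≤ n := by exact_mod_cast htn
    have hlog : Real.log t ≤ Real.log n := Real.log_le_log (by linarith) htn'
    have hsq : Real.sqrt t ≤ (n:ℝ) ^ ((1:ℝ)/3) := by
      have h1 : (t:ℝ) ^ 3 ≤ (n:ℝ) ^ 2 := by exact_mod_cast h.le
      have h2 : Real.sqrt t = ((t:ℝ) ^ 3) ^ ((1:ℝ)/6) := by
        rw [Real.sqrt_eq_rpow, ← Real.rpow_natCast, ← Real.rpow_mul ht0]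
        norm_num
      have h3 : (n:ℝ) ^ ((1:ℝ)/3) = ((n:ℝ) ^ 2) ^ ((1:ℝ)/6) := by
        rw [← Real.rpow_natCast, ← Real.rpow_mul hn0]
        norm_num
      rw [h2, h3]
      exact Real.rpow_le_rpow (by positivity) h1 (by norm_num)
    have hE2 : 2 ^ 21 * (1 + Real.log t) * t ≤ E * Real.sqrt t := by
      have h1 : Real.sqrt t * Real.sqrt t = t := Real.mul_self_sqrt ht0
      have h2 : 2 ^ 21 * (1 + Real.log t) * (t:ℝ) = 2 ^ 21 * (1 + Real.log t) * Real.sqrt t * Real.sqrt t := by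
        rw [mul_assoc, mul_assoc, mul_assoc, h1]
      rw [h2]
      apply mul_le_mul_of_nonneg_right _ hs
      rw [hE]
      exact mul_le_mul (by linarith) hsq hs hcn
    have hp : 0 ≤ (t:ℝ) * Real.log t := mul_nonneg ht0 hlogt
    have he : 2 ^ 20 * (t : ℝ) * (1 + Real.log t) = 2 ^ 20 * (t:ℝ) + 2 ^ 20 * ((t:ℝ) * Real.log t) := by ring
    have he2 : 2 ^ 21 * (1 + Real.log t) * (t:ℝ) = 2 ^ 21 * (t:ℝ) + 2 ^ 21 * ((t:ℝ) * Real.log t) := by ring
    rw [he]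
    rw [he2] at hE2
    linarith

/-- M7: the bound for all `t`. -/
theorem rec_all {E : ℝ} {n : ℕ} (hn : 1 ≤ n)
    (hE : E = 2 ^ 21 * (1 + Real.log (n : ℝ)) * (n : ℝ) ^ ((1 : ℝ) / 3)) (t : ℕ) :
    1 ≤ t → ∀ U : Finset V, U.card ≤ n → ¬ Model G U t → Col G U (Fb E t) := by
  have hE0 : 0 ≤ E := by
    have h1 : 0 ≤ Real.log (n : ℝ) := Real.log_nonneg (by exact_mod_cast hn)
    rw [hE]
    positivity
  induction t using Nat.strong_induction_on with
  | _ t ih =>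
    intro ht U hU hmod
    by_cases h : t < 2 ^ 13 ∨ t ^ 3 < n ^ 2
    · exact col_apriori ht (start_num ht hn hE h) U hmod
    · push Not at h
      exact rec_step hE0 h.1 h.2 (fun t' ht' h1 A hA hA' => ih t' ht' h1 A hA hA') U hU hmod

/-! Row M8 -/
/-- M8: the final estimate. -/
theorem final_num {E : ℝ} {n t : ℕ} (ht : 1 ≤ t) (hn : 1 ≤ n)
    (hE : E = 2 ^ 21 * (1 + Real.log (n : ℝ)) * (n : ℝ) ^ ((1 : ℝ) / 3)) (h : n ^ 4 ≤ t ^ 5) :
    Fb E t ≤ 2 ^ 43 * t := by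
  have ht' : (1:ℝ) ≤ t := by exact_mod_cast ht
  have hn' : (1:ℝ) ≤ n := by exact_mod_cast hn
  have ht0 : (0:ℝ) < t := by linarith
  have hn0 : (0:ℝ) < n := by linarith
  have hlogn : 0 ≤ Real.log n := Real.log_nonneg hn'
  have hL0 : 0 ≤ Real.log t := Real.log_nonneg ht'
  have h4 : (n:ℝ) ^ 4 ≤ (t:ℝ) ^ 5 := by exact_mod_cast h
  have hlog : 4 * Real.log n ≤ 5 * Real.log t := by
    have h1 : Real.log ((n:ℝ) ^ 4) ≤ Real.log ((t:ℝ) ^ 5) := Real.log_le_log (by positivity) h4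
    rw [Real.log_pow, Real.log_pow] at h1
    push_cast at h1
    exact h1
  have hn3 : (n:ℝ) ^ ((1:ℝ)/3) ≤ Real.exp (5 * Real.log t / 12) := by
    rw [Real.rpow_def_of_pos hn0]
    apply Real.exp_le_exp.mpr
    linarith
  have hst : Real.sqrt t = Real.exp (Real.log t / 2) := by
    rw [Real.sqrt_eq_rpow, Real.rpow_def_of_pos ht0]
    congr 1
    ring
  have hte : Real.exp (Real.log t) = t := Real.exp_log ht0
  have hq : 1 + 5 / 4 * Real.log t ≤ 8 * Real.exp (Real.log t / 12) := by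
    have h1 := Real.quadratic_le_exp_of_nonneg (show 0 ≤ Real.log t / 12 by linarith)
    nlinarith [sq_nonneg (Real.log t - 10.5)]
  have hES : E * Real.sqrt t ≤ 2 ^ 24 * (t:ℝ) := by
    have h1 : E ≤ 2 ^ 21 * (1 + 5 / 4 * Real.log t) * Real.exp (5 * Real.log t / 12) := by
      rw [hE]
      exact mul_le_mul (by linarith) hn3 (Real.rpow_nonneg hn0.le _) (by linarith)
    have h2 : E * Real.sqrt t ≤ 2 ^ 21 * (8 * Real.exp (Real.log t / 12)) * Real.exp (5 * Real.log t / 12) * Real.exp (Real.log t / 2) := by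
      rw [hst]
      apply mul_le_mul_of_nonneg_right _ (Real.exp_pos _).le
      refine le_trans h1 ?_
      apply mul_le_mul_of_nonneg_right _ (Real.exp_pos _).le
      linarith
    have h3 : 2 ^ 21 * (8 * Real.exp (Real.log t / 12)) * Real.exp (5 * Real.log t / 12) * Real.exp (Real.log t / 2) = 2 ^ 24 * (t:ℝ) := by
      have h5 : Real.exp (Real.log t / 12) * Real.exp (5 * Real.log t / 12) * Real.exp (Real.log t / 2) = t := by
        rw [← Real.exp_add, ← Real.exp_add]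
        have h6 : Real.log t / 12 + 5 * Real.log t / 12 + Real.log t / 2 = Real.log t := by ring
        rw [h6, hte]
      calc 2 ^ 21 * (8 * Real.exp (Real.log t / 12)) * Real.exp (5 * Real.log t / 12) * Real.exp (Real.log t / 2)
          = 2 ^ 24 * (Real.exp (Real.log t / 12) * Real.exp (5 * Real.log t / 12) * Real.exp (Real.log t / 2)) := by ring
        _ = 2 ^ 24 * (t:ℝ) := by rw [h5]
    linarith
  have hE0 : 0 ≤ E := by
    rw [hE]
    exact mul_nonneg (by linarith) (Real.rpow_nonneg hn0.le _)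
  have hx : 0 ≤ 2 ^ 42 * (t : ℝ) + E * Real.sqrt t := by
    have h1 : 0 ≤ E * Real.sqrt t := mul_nonneg hE0 (Real.sqrt_nonneg _)
    linarith
  have hF : (Fb E t : ℝ) ≤ 2 ^ 42 * (t : ℝ) + E * Real.sqrt t := by
    unfold Fb
    exact Nat.floor_le hx
  have hfin : (Fb E t : ℝ) ≤ ((2 ^ 43 * t : ℕ) : ℝ) := by
    push_cast
    linarith
  exact_mod_cast hfin

/-- M9: the linear bound for small graphs. -/
theorem small_linear {U : Finset V} {t : ℕ} (ht : 1 ≤ t) (hU : U.card ^ 4 ≤ t ^ 5) (hmod : ¬ Model G U t) :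
    Col G U (2 ^ 43 * t) := by
  rcases Nat.eq_zero_or_pos U.card with h0 | h0
  · rw [Finset.card_eq_zero.1 h0]
    exact col_empty _
  · exact (rec_all (E := 2 ^ 21 * (1 + Real.log (U.card : ℝ)) * (U.card : ℝ) ^ ((1 : ℝ) / 3)) h0 rfl t ht U le_rfl
      hmod).mono (Finset.Subset.refl _) (final_num ht h0 rfl hU)

end HD
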