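import Pool.Agent.LibHJ.PDefs
import Pool.Agent.LibHD.E2

/-!
# LibHJ : block P, random sampling in a haven
-/

set_option autoImplicit false
set_option linter.unusedSectionVars false

open scoped Classical

noncomputable section

namespace HD

variable {V : Type*} [Fintype V] [DecidableEq V] {G : SimpleGraph V}

/-! Row P1 -/
theorem P1_weight {K : Type} [Fintype K] [DecidableEq K] (lab : K → Option (Fin 4)) {w : ℕ}
    (h0 : (Finset.univ.filter (fun κ => lab κ = some 0)).card = w) (N : Finset V) :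
    ∑ c : V → K, ∏ u : V, (if u ∈ N ∧ lab (c u) = some 0 then (1 / 2 : ℝ) else 1)
      = (Fintype.card K : ℝ) ^ (Fintype.card V - N.card) * ((Fintype.card K : ℝ) - w / 2) ^ N.card := by
  have h2 : ∑ c : V → K, ∏ u : V, (if u ∈ N ∧ lab (c u) = some 0 then (1 / 2 : ℝ) else 1)
      = ∏ u : V, ∑ κ : K, (if u ∈ N ∧ lab κ = some 0 then (1 / 2 : ℝ) else 1) := by
    rw [Finset.prod_univ_sum, Fintype.piFinset_univ]
  rw [h2]
  have h3 : ∀ u : V, ∑ κ : K, (if u ∈ N ∧ lab κ = some 0 then (1 / 2 : ℝ) else 1)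
      = (if u ∈ N then ((Fintype.card K : ℝ) - w / 2) else (Fintype.card K : ℝ)) := by
    intro u
    by_cases hu : u ∈ N
    · simp only [hu, true_and, if_true]
      rw [Finset.sum_ite, Finset.sum_const, Finset.sum_const, h0]
      have h6 := Finset.card_filter_add_card_filter_not (s := (Finset.univ : Finset K)) (fun κ => lab κ = some 0)
      rw [h0, Finset.card_univ] at h6
      have h7 : ((Finset.univ.filter (fun κ : K => ¬ lab κ = some 0)).card : ℝ) = (Fintype.card K : ℝ) - w := by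
        rw [← h6]
        push_cast
        ring
      rw [nsmul_eq_mul, nsmul_eq_mul, h7]
      ring
    · simp only [hu, false_and, if_false]
      rw [Finset.sum_const, Finset.card_univ, nsmul_eq_mul, mul_one]
  rw [Finset.prod_congr rfl (fun u _ => h3 u), Finset.prod_ite, Finset.prod_const, Finset.prod_const]
  have h8 : (Finset.univ.filter (fun u : V => u ∈ N)).card = N.card := by
    congr 1
    ext z
    simp
  have h9 : (Finset.univ.filter (fun u : V => ¬ u ∈ N)).card = Fintype.card V - N.card := by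
    have := Finset.card_filter_add_card_filter_not (s := (Finset.univ : Finset V)) (fun u => u ∈ N)
    rw [h8, Finset.card_univ] at this
    omega
  rw [h8, h9]
  ring

/-- P1: a binomial variable is rarely below half of its mean. -/
theorem cnt_few {K : Type} [Fintype K] [DecidableEq K] (lab : K → Option (Fin 4)) {w P : ℕ} (hw : 1 ≤ w) (hP : 1 ≤ P)
    (h0 : (Finset.univ.filter (fun κ => lab κ = some 0)).card = w) (hK : Fintype.card K = P * w)
    (N : Finset V) {m : ℕ} (hm : 2 * P * m ≤ N.card) :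
    (((Finset.univ.filter (fun c : V → K => (cl lab N 0 c).card < m)).card : ℕ) : ℝ) ≤
      (Fintype.card K : ℝ) ^ (Fintype.card V) * Real.exp (-((N.card : ℝ) / (8 * P))) := by
  rcases Nat.eq_zero_or_pos m with hm0 | hm0
  · subst hm0
    simp only [Nat.not_lt_zero, Finset.filter_false, Finset.card_empty, Nat.cast_zero]
    positivity
  have hPR : (1 : ℝ) ≤ P := by exact_mod_cast hP
  have hwR : (1 : ℝ) ≤ w := by exact_mod_cast hw
  have hPpos : (0 : ℝ) < P := by linarith
  have hwpos : (0 : ℝ) < w := by linarith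
  have hKR : (Fintype.card K : ℝ) = P * w := by rw [hK]; push_cast; ring
  have h1 : (((Finset.univ.filter (fun c : V → K => (cl lab N 0 c).card < m)).card : ℕ) : ℝ)
      ≤ ∑ c : V → K, (2 : ℝ) ^ m * ∏ u : V, (if u ∈ N ∧ lab (c u) = some 0 then (1 / 2 : ℝ) else 1) := by
    rw [Finset.card_filter]
    push_cast
    apply Finset.sum_le_sum
    intro c _
    have hp : ∏ u : V, (if u ∈ N ∧ lab (c u) = some 0 then (1 / 2 : ℝ) else 1)
        = (1 / 2 : ℝ) ^ (cl lab N 0 c).card := by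
      rw [Finset.prod_ite, Finset.prod_const, Finset.prod_const_one, mul_one]
      congr 2
      ext z
      simp [cl]
    rw [hp]
    split_ifs with h
    · have h2 : (2 : ℝ) ^ m = 2 ^ (cl lab N 0 c).card * 2 ^ (m - (cl lab N 0 c).card) := by
        rw [← pow_add]
        congr 1
        omega
      rw [h2]
      have h3 : (1 : ℝ) ≤ 2 ^ (m - (cl lab N 0 c).card) := one_le_pow₀ (by norm_num)
      have h4 : (2 : ℝ) ^ (cl lab N 0 c).card * (1 / 2 : ℝ) ^ (cl lab N 0 c).card = 1 := by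
        rw [← mul_pow]
        norm_num
      calc (1 : ℝ) ≤ 2 ^ (m - (cl lab N 0 c).card) := h3
        _ = (2 : ℝ) ^ (cl lab N 0 c).card * (1 / 2 : ℝ) ^ (cl lab N 0 c).card
            * 2 ^ (m - (cl lab N 0 c).card) := by rw [h4, one_mul]
        _ = _ := by ring
    · positivity
  refine h1.trans ?_
  rw [← Finset.mul_sum, P1_weight lab h0 N]
  have hNV : N.card ≤ Fintype.card V := Finset.card_le_univ N
  have hK2 : (Fintype.card K : ℝ) - w / 2 = (Fintype.card K : ℝ) * (1 - 1 / (2 * P)) := by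
    rw [hKR]
    field_simp
  rw [hK2, mul_pow, ← mul_assoc ((Fintype.card K : ℝ) ^ (Fintype.card V - N.card)), ← pow_add,
    Nat.sub_add_cancel hNV]
  have hb0 : (0 : ℝ) ≤ 1 - 1 / (2 * P) := by
    have : 1 / (2 * (P : ℝ)) ≤ 1 := by
      rw [div_le_one (by positivity)]
      linarith
    linarith
  have hb1 : (1 - 1 / (2 * (P : ℝ))) ^ N.card ≤ Real.exp (-((N.card : ℝ) / (2 * P))) := by
    have h5 : 1 - 1 / (2 * (P : ℝ)) ≤ Real.exp (-(1 / (2 * (P : ℝ)))) := by
      have := Real.add_one_le_exp (-(1 / (2 * (P : ℝ))))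
      linarith
    calc (1 - 1 / (2 * (P : ℝ))) ^ N.card ≤ (Real.exp (-(1 / (2 * (P : ℝ))))) ^ N.card :=
          pow_le_pow_left₀ hb0 h5 _
      _ = Real.exp (-((N.card : ℝ) / (2 * P))) := by
          rw [← Real.exp_nat_mul]
          congr 1
          ring
  have hm2 : (2 : ℝ) ^ m ≤ Real.exp (0.6932 * ((N.card : ℝ) / (2 * P))) := by
    have h6 : (2 : ℝ) ^ m = Real.exp (m * Real.log 2) := by
      rw [Real.exp_nat_mul, Real.exp_log (by norm_num)]
    rw [h6]
    apply Real.exp_le_exp.2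
    have h7 : (m : ℝ) ≤ (N.card : ℝ) / (2 * P) := by
      rw [le_div_iff₀ (by positivity)]
      have : ((2 * P * m : ℕ) : ℝ) ≤ (N.card : ℝ) := by exact_mod_cast hm
      push_cast at this
      linarith
    have h8 := Real.log_two_lt_d9
    have h9 : (0 : ℝ) ≤ m := Nat.cast_nonneg m
    have h10 : Real.log 2 ≤ 0.6932 := by linarith
    calc (m : ℝ) * Real.log 2 ≤ m * 0.6932 := mul_le_mul_of_nonneg_left h10 h9
      _ ≤ (N.card : ℝ) / (2 * P) * 0.6932 := mul_le_mul_of_nonneg_right h7 (by norm_num)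
      _ = 0.6932 * ((N.card : ℝ) / (2 * P)) := by ring
  have hfin : (2 : ℝ) ^ m * (1 - 1 / (2 * (P : ℝ))) ^ N.card ≤ Real.exp (-((N.card : ℝ) / (8 * P))) := by
    calc (2 : ℝ) ^ m * (1 - 1 / (2 * (P : ℝ))) ^ N.card
        ≤ Real.exp (0.6932 * ((N.card : ℝ) / (2 * P))) * Real.exp (-((N.card : ℝ) / (2 * P))) :=
          mul_le_mul hm2 hb1 (pow_nonneg hb0 _) (Real.exp_pos _).le
      _ = Real.exp (-(0.3068 * ((N.card : ℝ) / (2 * P)))) := by
          rw [← Real.exp_add]
          congr 1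
          ring
      _ ≤ Real.exp (-((N.card : ℝ) / (8 * P))) := by
          apply Real.exp_le_exp.2
          have h11 : (N.card : ℝ) / (8 * P) = 0.25 * ((N.card : ℝ) / (2 * P)) := by
            field_simp
            ring
          have h12 : (0 : ℝ) ≤ (N.card : ℝ) / (2 * P) := by positivity
          rw [h11]
          linarith
  have hMn : (0 : ℝ) ≤ (Fintype.card K : ℝ) ^ (Fintype.card V) := by positivity
  calc (2 : ℝ) ^ m * ((Fintype.card K : ℝ) ^ (Fintype.card V) * (1 - 1 / (2 * (P : ℝ))) ^ N.card)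
      = (Fintype.card K : ℝ) ^ (Fintype.card V) * ((2 : ℝ) ^ m * (1 - 1 / (2 * (P : ℝ))) ^ N.card) := by ring
    _ ≤ _ := mul_le_mul_of_nonneg_left hfin hMn

/-! Row P2 -/
theorem NN_card (e : ℕ) (Γ : Finset V → Finset V) (H : Finset V) (m : ℕ) : (NN G e Γ H m).card ≤ H.card ^ m := by
  induction m with
  | zero => simp [NN]
  | succ m ih =>
    rw [NN, pow_succ]
    refine (Finset.card_biUnion_le_card_mul _ _ H.card (fun N _ => Finset.card_image_le)).trans ?_
    exact Nat.mul_le_mul_right _ ih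

theorem P2_nsub {e : ℕ} {X : Finset V} {v : V} (h : e ≤ (nbIn G X v).card) :
    nsub G e X v ⊆ nbIn G X v ∧ (nsub G e X v).card = e := by
  rw [nsub, dif_pos h]
  exact (Finset.exists_subset_card_eq h).choose_spec

/-- P2: the haven_greedy procedure. -/
theorem haven_greedy {H B F : Finset V} {e k m d0 : ℕ} {Γ : Finset V → Finset V} (hh : Haven G H B e k Γ) (hm : m * e ≤ k)
    (h : ¬ Good G Γ H e m d0 F) :
    ∃ N ∈ NN G e Γ H (m + 1), N ⊆ H ∧ N.card = (m + 1) * e ∧ (F ∩ N).card < (m + 1) * d0 := by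
  have key : ∀ j, j ≤ m + 1 → ∃ N ∈ NN G e Γ H j, N ⊆ H ∧ N.card = j * e ∧ (F ∩ N).card + j ≤ j * d0 := by
    intro j
    induction j with
    | zero =>
      intro _
      refine ⟨∅, by simp [NN], Finset.empty_subset _, by simp, by simp⟩
    | succ j ih =>
      intro hj
      obtain ⟨N, hN1, hN2, hN3, hN4⟩ := ih (by omega)
      have hNm : N.card ≤ m * e := by
        rw [hN3]
        exact Nat.mul_le_mul_right _ (by omega)
      have hNk : N.card ≤ k := hNm.trans hm
      obtain ⟨v, hv1, hv2⟩ : ∃ v ∈ Γ N, (nbIn G (F ∩ Γ N) v).card < d0 := by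
        by_contra hno
        push Not at hno
        exact h ⟨N, hN2, hNm, hno⟩
      have hdeg := hh.deg N hNk v hv1
      obtain ⟨hs1, hs2⟩ := P2_nsub hdeg
      have hsub := hh.sub N hNk
      have hvH : v ∈ H := (Finset.mem_sdiff.1 (hsub hv1)).1
      have hnG : nsub G e (Γ N) v ⊆ Γ N := fun u hu => (mem_nbIn.1 (hs1 hu)).1
      have hdisj : Disjoint N (nsub G e (Γ N) v) := by
        rw [Finset.disjoint_left]
        intro u hu hu2
        exact (Finset.mem_sdiff.1 (hsub (hnG hu2))).2 hu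
      refine ⟨N ∪ nsub G e (Γ N) v, ?_, ?_, ?_, ?_⟩
      · rw [NN, Finset.mem_biUnion]
        exact ⟨N, hN1, Finset.mem_image.2 ⟨v, hvH, rfl⟩⟩
      · exact Finset.union_subset hN2 fun u hu => (Finset.mem_sdiff.1 (hsub (hnG hu))).1
      · rw [Finset.card_union_of_disjoint hdisj, hN3, hs2, Nat.succ_mul]
      · have h1 : F ∩ nsub G e (Γ N) v ⊆ nbIn G (F ∩ Γ N) v := by
          intro u hu
          rw [Finset.mem_inter] at hu
          obtain ⟨g1, g2⟩ := mem_nbIn.1 (hs1 hu.2)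
          exact mem_nbIn.2 ⟨Finset.mem_inter.2 ⟨hu.1, g1⟩, g2⟩
        have h2 := Finset.card_le_card h1
        have h3 : (F ∩ (N ∪ nsub G e (Γ N) v)).card ≤ (F ∩ N).card + (F ∩ nsub G e (Γ N) v).card := by
          rw [Finset.inter_union_distrib_left]
          exact Finset.card_union_le _ _
        rw [Nat.succ_mul]
        omega
  obtain ⟨N, hN1, hN2, hN3, hN4⟩ := key (m + 1) le_rfl
  exact ⟨N, hN1, hN2, hN3, by omega⟩


/-! Row P3 -/
/-- P3: the haven_greedy procedure rarely fails. -/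
theorem cnt_greedy {K : Type} [Fintype K] [DecidableEq K] (lab : K → Option (Fin 4)) {w P : ℕ} (hw : 1 ≤ w)
    (hP : 1 ≤ P) (h0 : (Finset.univ.filter (fun κ => lab κ = some 0)).card = w) (hK : Fintype.card K = P * w)
    {H B : Finset V} {e k m d0 : ℕ} {Γ : Finset V → Finset V} (hh : Haven G H B e k Γ) (hm : m * e ≤ k)
    (hd : 2 * P * d0 ≤ e) :
    (((Finset.univ.filter (fun c : V → K => ¬ Good G Γ H e m d0 (cl lab H 0 c))).card : ℕ) : ℝ) ≤
      (Fintype.card K : ℝ) ^ (Fintype.card V) * ((H.card : ℝ) ^ (m + 1) *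
        Real.exp (-((((m + 1) * e : ℕ) : ℝ) / (8 * P)))) := by
  set NS : Finset (Finset V) :=
    (NN G e Γ H (m + 1)).filter (fun N => N ⊆ H ∧ N.card = (m + 1) * e) with hNS
  set E : ℝ := Real.exp (-((((m + 1) * e : ℕ) : ℝ) / (8 * P))) with hE
  have hE0 : 0 ≤ E := (Real.exp_pos _).le
  have hsub : (Finset.univ.filter (fun c : V → K => ¬ Good G Γ H e m d0 (cl lab H 0 c))) ⊆
      NS.biUnion (fun N => Finset.univ.filter
        (fun c : V → K => (cl lab N 0 c).card < (m + 1) * d0)) := by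
    intro c hc
    have hc1 := (Finset.mem_filter.1 hc).2
    obtain ⟨N, hN1, hN2, hN3, hN4⟩ := haven_greedy hh hm hc1
    refine Finset.mem_biUnion.2 ⟨N, Finset.mem_filter.2 ⟨hN1, hN2, hN3⟩, ?_⟩
    refine Finset.mem_filter.2 ⟨Finset.mem_univ _, ?_⟩
    have heq : cl lab N 0 c = cl lab H 0 c ∩ N := by
      ext v
      unfold cl
      rw [Finset.mem_inter, Finset.mem_filter, Finset.mem_filter]
      exact ⟨fun h => ⟨⟨hN2 h.1, h.2⟩, h.1⟩, fun h => ⟨h.2, h.1.2⟩⟩
    rw [heq]
    exact hN4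
  have hd' : 2 * P * ((m + 1) * d0) ≤ (m + 1) * e := by
    calc 2 * P * ((m + 1) * d0) = (m + 1) * (2 * P * d0) := by ring
      _ ≤ (m + 1) * e := Nat.mul_le_mul_left _ hd
  have hone : ∀ N ∈ NS, (((Finset.univ.filter
      (fun c : V → K => (cl lab N 0 c).card < (m + 1) * d0)).card : ℕ) : ℝ) ≤
      (Fintype.card K : ℝ) ^ (Fintype.card V) * E := by
    intro N hN
    have hN1 := (Finset.mem_filter.1 hN).2
    have h1 := cnt_few lab hw hP h0 hK N (m := (m + 1) * d0) (by rw [hN1.2]; exact hd')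
    rw [hN1.2] at h1
    exact h1
  have hcard : (NS.card : ℝ) ≤ (H.card : ℝ) ^ (m + 1) := by
    have h1 : NS.card ≤ H.card ^ (m + 1) :=
      (Finset.card_le_card (Finset.filter_subset _ _)).trans (NN_card e Γ H (m + 1))
    exact_mod_cast h1
  have hK0 : (0 : ℝ) ≤ (Fintype.card K : ℝ) ^ (Fintype.card V) := by positivity
  calc (((Finset.univ.filter (fun c : V → K => ¬ Good G Γ H e m d0 (cl lab H 0 c))).card : ℕ) : ℝ)
      ≤ (((NS.biUnion (fun N => Finset.univ.filter
        (fun c : V → K => (cl lab N 0 c).card < (m + 1) * d0))).card : ℕ) : ℝ) := by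
        exact_mod_cast Finset.card_le_card hsub
    _ ≤ ((∑ N ∈ NS, (Finset.univ.filter
        (fun c : V → K => (cl lab N 0 c).card < (m + 1) * d0)).card : ℕ) : ℝ) := by
        exact_mod_cast Finset.card_biUnion_le
    _ = ∑ N ∈ NS, (((Finset.univ.filter
        (fun c : V → K => (cl lab N 0 c).card < (m + 1) * d0)).card : ℕ) : ℝ) := by
        push_cast; rfl
    _ ≤ ∑ _N ∈ NS, (Fintype.card K : ℝ) ^ (Fintype.card V) * E := Finset.sum_le_sum hone
    _ = (NS.card : ℝ) * ((Fintype.card K : ℝ) ^ (Fintype.card V) * E) := by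
        rw [Finset.sum_const, nsmul_eq_mul]
    _ ≤ (H.card : ℝ) ^ (m + 1) * ((Fintype.card K : ℝ) ^ (Fintype.card V) * E) :=
        mul_le_mul_of_nonneg_right hcard (mul_nonneg hK0 hE0)
    _ = (Fintype.card K : ℝ) ^ (Fintype.card V) * ((H.card : ℝ) ^ (m + 1) * E) := by ring

/-! Row P4 -/
/-- the step -/
theorem P4_step {H B S F X : Finset V} {e k q : ℕ} {Γ : Finset V → Finset V} (hh : Haven G H B e k Γ)
    (hF : F ⊆ Γ S) (hdom : ∀ v ∈ Γ S, ∃ u ∈ F, G.Adj v u) (hX : X ⊆ F) (hno : ¬ Touch G X (F \ X))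
    (hS : S.card + 2 * q ≤ k)
    (h1 : S.card + 4 * q < ((B ∩ Γ S).filter (fun b => ∃ x ∈ X, G.Adj b x)).card)
    (h2 : S.card + 4 * q < ((B ∩ Γ S).filter (fun b => ∃ x ∈ F \ X, G.Adj b x)).card)
    (T : Finset V) (hT : T.card < 2 * q) (hTF : Disjoint T F) :
    ∃ C : Finset V, C ⊆ Γ S \ F ∧ C.card ≤ 2 ∧ Disjoint C T ∧
      ∃ v ∈ C, ∃ v' ∈ C, (v = v' ∨ G.Adj v v') ∧ (∃ x ∈ X, G.Adj v x) ∧ ∃ y ∈ F \ X, G.Adj v' y := by
  by_contra hcon
  have hc1 : ∀ z ∈ Γ S, z ∉ F → z ∉ T → (∃ x ∈ X, G.Adj z x) → (∃ y ∈ F \ X, G.Adj z y) → False := by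
    intro z hz hzF hzT hx hy
    apply hcon
    refine ⟨{z}, ?_, ?_, ?_, z, Finset.mem_singleton_self z, z, Finset.mem_singleton_self z, Or.inl rfl, hx, hy⟩
    · rw [Finset.singleton_subset_iff, Finset.mem_sdiff]
      exact ⟨hz, hzF⟩
    · rw [Finset.card_singleton]; omega
    · rw [Finset.disjoint_singleton_left]
      exact hzT
  have hc2 : ∀ z ∈ Γ S, z ∉ F → z ∉ T → ∀ w ∈ Γ S, w ∉ F → w ∉ T → G.Adj z w → (∃ x ∈ X, G.Adj z x) →
      (∃ y ∈ F \ X, G.Adj w y) → False := by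
    intro z hz hzF hzT w hw hwF hwT hzw hx hy
    apply hcon
    refine ⟨{z, w}, ?_, Finset.card_le_two, ?_, z, by simp, w, by simp, Or.inr hzw, hx, hy⟩
    · intro a ha
      rw [Finset.mem_insert, Finset.mem_singleton] at ha
      rw [Finset.mem_sdiff]
      rcases ha with ha | ha
      · rw [ha]; exact ⟨hz, hzF⟩
      · rw [ha]; exact ⟨hw, hwF⟩
    · rw [Finset.disjoint_left]
      intro a ha
      rw [Finset.mem_insert, Finset.mem_singleton] at ha
      rcases ha with ha | ha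
      · rw [ha]; exact hzT
      · rw [ha]; exact hwT
  have hcard : (S ∪ T).card ≤ S.card + T.card := Finset.card_union_le S T
  have hk : (S ∪ T).card ≤ k := by omega
  have hYS : Γ (S ∪ T) ⊆ Γ S := hh.anti S (S ∪ T) Finset.subset_union_left hk
  have hYT : ∀ z ∈ Γ (S ∪ T), z ∉ T := by
    intro z hz hzT
    have h3 := Finset.mem_sdiff.1 (hh.sub (S ∪ T) hk hz)
    exact h3.2 (Finset.mem_union_right S hzT)
  have hYc : Conn G (Γ (S ∪ T)) := hh.conn (S ∪ T) hk
  have hrc : (B \ Γ (S ∪ T)).card ≤ (S ∪ T).card := hh.rc (S ∪ T) hk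
  set P : Finset V := (Γ (S ∪ T)).filter (fun z => z ∈ X ∨ (z ∉ F ∧ ∃ x ∈ X, G.Adj z x)) with hP
  have hmem : ∀ z, z ∈ P ↔ z ∈ Γ (S ∪ T) ∧ (z ∈ X ∨ (z ∉ F ∧ ∃ x ∈ X, G.Adj z x)) := by
    intro z
    rw [hP, Finset.mem_filter]
  have hnt : ¬ Touch G P (Γ (S ∪ T) \ P) := by
    rintro ⟨u, hu, w, hw, huw⟩
    obtain ⟨huY, hu2⟩ := (hmem u).1 hu
    obtain ⟨hwY, hwP⟩ := Finset.mem_sdiff.1 hw
    have hwX : w ∉ X := fun h => hwP ((hmem w).2 ⟨hwY, Or.inl h⟩)
    have hwA : w ∉ F → ∀ x ∈ X, ¬ G.Adj w x := fun hwF x hx h =>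
      hwP ((hmem w).2 ⟨hwY, Or.inr ⟨hwF, x, hx, h⟩⟩)
    rcases hu2 with huX | ⟨huF, hux⟩
    · by_cases hwF : w ∈ F
      · exact hno ⟨u, huX, w, Finset.mem_sdiff.2 ⟨hwF, hwX⟩, huw⟩
      · exact hwA hwF u huX huw.symm
    · by_cases hwF : w ∈ F
      · exact hc1 u (hYS huY) huF (hYT u huY) hux ⟨w, Finset.mem_sdiff.2 ⟨hwF, hwX⟩, huw⟩
      · obtain ⟨y, hy, hwy⟩ := hdom w (hYS hwY)
        have hyX : y ∉ X := fun h => hwA hwF y h hwy
        exact hc2 u (hYS huY) huF (hYT u huY) w (hYS hwY) hwF (hYT w hwY) huw hux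
          ⟨y, Finset.mem_sdiff.2 ⟨hy, hyX⟩, hwy⟩
  have hbound : ∀ N : Finset V, N ⊆ T ∪ (B \ Γ (S ∪ T)) → N.card ≤ S.card + 4 * q := by
    intro N hN
    have h3 := (Finset.card_le_card hN).trans (Finset.card_union_le _ _)
    omega
  by_cases hPe : P.Nonempty
  · by_cases hQe : (Γ (S ∪ T) \ P).Nonempty
    · exact hnt (hYc.pc P (Finset.filter_subset _ _) hPe hQe)
    · rw [Finset.not_nonempty_iff_eq_empty] at hQe
      have h3 := hbound _ (fun b hb => by
        obtain ⟨hb1, y, hy, hby⟩ := Finset.mem_filter.1 hb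
        obtain ⟨hbB, hbS⟩ := Finset.mem_inter.1 hb1
        rw [Finset.mem_union, Finset.mem_sdiff]
        by_cases hbT : b ∈ T
        · exact Or.inl hbT
        · refine Or.inr ⟨hbB, fun hbY => ?_⟩
          have hbP : b ∈ P := by
            by_contra hbP
            have h4 : b ∈ Γ (S ∪ T) \ P := Finset.mem_sdiff.2 ⟨hbY, hbP⟩
            rw [hQe] at h4
            exact absurd h4 (Finset.notMem_empty b)
          rcases ((hmem b).1 hbP).2 with hbX | ⟨hbF, hbx⟩
          · exact hno ⟨b, hbX, y, hy, hby⟩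
          · exact hc1 b hbS hbF hbT hbx ⟨y, hy, hby⟩ :
        ((B ∩ Γ S).filter (fun b => ∃ x ∈ F \ X, G.Adj b x)) ⊆ T ∪ (B \ Γ (S ∪ T)))
      omega
  · rw [Finset.not_nonempty_iff_eq_empty] at hPe
    have h3 := hbound _ (fun b hb => by
      obtain ⟨hb1, x, hx, hbx⟩ := Finset.mem_filter.1 hb
      obtain ⟨hbB, hbS⟩ := Finset.mem_inter.1 hb1
      rw [Finset.mem_union, Finset.mem_sdiff]
      by_cases hbT : b ∈ T
      · exact Or.inl hbT
      · refine Or.inr ⟨hbB, fun hbY => ?_⟩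
        have hbP : ¬ (b ∈ X ∨ (b ∉ F ∧ ∃ x ∈ X, G.Adj b x)) := by
          intro h4
          have h5 : b ∈ P := (hmem b).2 ⟨hbY, h4⟩
          rw [hPe] at h5
          exact absurd h5 (Finset.notMem_empty b)
        by_cases hbF : b ∈ F
        · have hbX : b ∉ X := fun h => hbP (Or.inl h)
          exact hno ⟨x, hx, b, Finset.mem_sdiff.2 ⟨hbF, hbX⟩, hbx.symm⟩
        · exact hbP (Or.inr ⟨hbF, x, hx, hbx⟩) :
      ((B ∩ Γ S).filter (fun b => ∃ x ∈ X, G.Adj b x)) ⊆ T ∪ (B \ Γ (S ∪ T)))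
    omega


/-- P4: connectors in a haven. -/
theorem hconn {H B S F X : Finset V} {e k q : ℕ} {Γ : Finset V → Finset V} (hh : Haven G H B e k Γ)
    (hF : F ⊆ Γ S) (hdom : ∀ v ∈ Γ S, ∃ u ∈ F, G.Adj v u) (hX : X ⊆ F) (hno : ¬ Touch G X (F \ X))
    (hS : S.card + 2 * q ≤ k)
    (h1 : S.card + 4 * q < ((B ∩ Γ S).filter (fun b => ∃ x ∈ X, G.Adj b x)).card)
    (h2 : S.card + 4 * q < ((B ∩ Γ S).filter (fun b => ∃ x ∈ F \ X, G.Adj b x)).card) :
    ∃ C : Fin q → Finset V, (∀ i, C i ⊆ Γ S \ F ∧ (C i).card ≤ 2) ∧ (∀ i j, i ≠ j → Disjoint (C i) (C j)) ∧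
      ∀ i, ∃ v ∈ C i, ∃ v' ∈ C i, (v = v' ∨ G.Adj v v') ∧ (∃ x ∈ X, G.Adj v x) ∧ ∃ y ∈ F \ X, G.Adj v' y := by
  have key : ∀ m, m ≤ q → ∃ C : Fin m → Finset V, (∀ i, C i ⊆ Γ S \ F ∧ (C i).card ≤ 2) ∧
      (∀ i j, i ≠ j → Disjoint (C i) (C j)) ∧
      ∀ i, ∃ v ∈ C i, ∃ v' ∈ C i, (v = v' ∨ G.Adj v v') ∧ (∃ x ∈ X, G.Adj v x) ∧ ∃ y ∈ F \ X, G.Adj v' y := by
    intro m
    induction m with
    | zero => exact fun _ => ⟨fun i => i.elim0, fun i => i.elim0, fun i => i.elim0, fun i => i.elim0⟩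
    | succ m ih =>
      intro hm
      obtain ⟨C, c1, c2, c3⟩ := ih (by omega)
      obtain ⟨D, d1, d2, d3, d4⟩ := P4_step hh hF hdom hX hno hS h1 h2 (Finset.univ.biUnion C)
        (by
          have h5 : (Finset.univ.biUnion C).card ≤ ∑ _i : Fin m, 2 :=
            Finset.card_biUnion_le.trans (Finset.sum_le_sum fun i _ => (c1 i).2)
          rw [Finset.sum_const, Finset.card_univ, Fintype.card_fin, smul_eq_mul] at h5
          omega)
        (by
          rw [Finset.disjoint_left]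
          intro a ha haF
          obtain ⟨i, -, hi⟩ := Finset.mem_biUnion.1 ha
          exact (Finset.mem_sdiff.1 ((c1 i).1 hi)).2 haF)
      have hDC : ∀ i, Disjoint D (C i) := fun i =>
        Finset.disjoint_of_subset_right (Finset.subset_biUnion_of_mem C (Finset.mem_univ i)) d3
      refine ⟨Fin.cons D C, ?_, ?_, ?_⟩
      · intro i
        refine Fin.cases ?_ (fun j => ?_) i
        · rw [Fin.cons_zero]; exact ⟨d1, d2⟩
        · rw [Fin.cons_succ]; exact c1 j
      · intro i j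
        refine Fin.cases ?_ (fun i' => ?_) i
        · refine Fin.cases ?_ (fun j' => ?_) j
          · exact fun h => absurd rfl h
          · intro _
            rw [Fin.cons_zero, Fin.cons_succ]
            exact hDC j'
        · refine Fin.cases ?_ (fun j' => ?_) j
          · intro _
            rw [Fin.cons_zero, Fin.cons_succ]
            exact (hDC i').symm
          · intro h
            rw [Fin.cons_succ, Fin.cons_succ]
            exact c2 i' j' fun e => h (by rw [e])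
      · intro i
        refine Fin.cases ?_ (fun j => ?_) i
        · rw [Fin.cons_zero]; exact d4
        · rw [Fin.cons_succ]; exact c3 j
  exact key q le_rfl

/-! Row P5 -/
/-- the number of functions with prescribed values on `C` and one value outside -/
theorem P5_pi {K : Type} [Fintype K] [DecidableEq K] (C : Finset V) (L : Finset K) (k0 : K) :
    (Fintype.piFinset (fun v : V => if v ∈ C then L else {k0})).card = L.card ^ C.card := by
  rw [Fintype.card_piFinset]
  have h1 : ∀ v : V, (if v ∈ C then L else {k0}).card = if v ∈ C then L.card else 1 := by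
    intro v
    by_cases hv : v ∈ C
    · rw [if_pos hv, if_pos hv]
    · rw [if_neg hv, if_neg hv, Finset.card_singleton]
  rw [Finset.prod_congr rfl (fun v _ => h1 v), Finset.prod_ite_mem, Finset.univ_inter,
    Finset.prod_const]

/-- one block: the colourings which are completely labelled 2 on the block are at least a fraction `1/P^2` -/
theorem P5_inj {K : Type} [Fintype K] [DecidableEq K] (lab : K → Option (Fin 4)) {w P : ℕ} (hw : 1 ≤ w)
    (hP : 2 ≤ P) (h0 : (Finset.univ.filter (fun κ => lab κ = some 0)).card = w)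
    (h2 : (Finset.univ.filter (fun κ => lab κ = some 2)).card = w) (hK : Fintype.card K = P * w)
    {H F C : Finset V} (hC : C ⊆ H \ F) (hC2 : C.card ≤ 2) (A B : Finset (V → K))
    (hA1 : ∀ c ∈ A, cl lab H 0 c = F)
    (hA2 : ∀ c ∈ A, ∀ c' : V → K, (∀ v, v ∉ C → c' v = c v) → (∀ v ∈ C, lab (c' v) = some 2) → c' ∈ B) :
    A.card ≤ P ^ 2 * B.card := by
  obtain ⟨k0, hk0⟩ : (Finset.univ.filter (fun κ => lab κ = some 2)).Nonempty := by
    rw [← Finset.card_pos, h2]; omega
  set L2 : Finset K := Finset.univ.filter (fun κ => lab κ = some 2) with hL2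
  set L0 : Finset K := Finset.univ.filter (fun κ => lab κ = some 0) with hL0
  have hN : (L0ᶜ).card = (P - 1) * w := by
    rw [Finset.card_compl, h0, hK, Nat.sub_mul, one_mul]
  have key : (A ×ˢ Fintype.piFinset (fun v : V => if v ∈ C then L2 else {k0})).card ≤
      (B ×ˢ Fintype.piFinset (fun v : V => if v ∈ C then L0ᶜ else {k0})).card := by
    apply Finset.card_le_card_of_injOn
      (fun x : (V → K) × (V → K) => ((fun v => if v ∈ C then x.2 v else x.1 v),
        (fun v => if v ∈ C then x.1 v else k0)))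
    · rintro ⟨c, g⟩ hx
      have hx' := Finset.mem_product.1 (Finset.mem_coe.1 hx)
      have hc : c ∈ A := hx'.1
      have hg : ∀ v, g v ∈ (if v ∈ C then L2 else {k0}) := fun v => Fintype.mem_piFinset.1 hx'.2 v
      apply Finset.mem_coe.2
      apply Finset.mem_product.2
      refine ⟨?_, ?_⟩
      · apply hA2 c hc
        · intro v hv
          show (if v ∈ C then g v else c v) = c v
          rw [if_neg hv]
        · intro v hv
          show lab (if v ∈ C then g v else c v) = some 2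
          rw [if_pos hv]
          have h3 := hg v
          rw [if_pos hv, hL2] at h3
          exact (Finset.mem_filter.1 h3).2
      · apply Fintype.mem_piFinset.2
        intro v
        show (if v ∈ C then c v else k0) ∈ (if v ∈ C then L0ᶜ else {k0})
        by_cases hv : v ∈ C
        · rw [if_pos hv, if_pos hv, Finset.mem_compl, hL0]
          intro h3
          have h4 := (Finset.mem_filter.1 h3).2
          have h5 := Finset.mem_sdiff.1 (hC hv)
          apply h5.2
          rw [← hA1 c hc]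
          exact Finset.mem_filter.2 ⟨h5.1, h4⟩
        · rw [if_neg hv, if_neg hv]
          exact Finset.mem_singleton_self _
    · rintro ⟨c, g⟩ hx ⟨c', g'⟩ hx' heq
      have hg : ∀ v, g v ∈ (if v ∈ C then L2 else {k0}) := fun v =>
        Fintype.mem_piFinset.1 (Finset.mem_product.1 (Finset.mem_coe.1 hx)).2 v
      have hg' : ∀ v, g' v ∈ (if v ∈ C then L2 else {k0}) := fun v =>
        Fintype.mem_piFinset.1 (Finset.mem_product.1 (Finset.mem_coe.1 hx')).2 v
      have e1 : ∀ v, (if v ∈ C then g v else c v) = (if v ∈ C then g' v else c' v) := fun v =>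
        congrFun (congrArg Prod.fst heq) v
      have e2 : ∀ v, (if v ∈ C then c v else k0) = (if v ∈ C then c' v else k0) := fun v =>
        congrFun (congrArg Prod.snd heq) v
      have e3 : c = c' := by
        funext v
        by_cases hv : v ∈ C
        · have := e2 v
          rwa [if_pos hv, if_pos hv] at this
        · have := e1 v
          rwa [if_neg hv, if_neg hv] at this
      have e4 : g = g' := by
        funext v
        by_cases hv : v ∈ C
        · have := e1 v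
          rwa [if_pos hv, if_pos hv] at this
        · have h5 := hg v
          have h6 := hg' v
          rw [if_neg hv, Finset.mem_singleton] at h5 h6
          rw [h5, h6]
      rw [e3, e4]
  rw [Finset.card_product, Finset.card_product, P5_pi, P5_pi, h2, hN, mul_pow, ← mul_assoc] at key
  have hwp : 0 < w ^ C.card := pow_pos (by omega) _
  have h3 : A.card ≤ B.card * (P - 1) ^ C.card := Nat.le_of_mul_le_mul_right key hwp
  have h4 : (P - 1) ^ C.card ≤ P ^ 2 := by
    calc (P - 1) ^ C.card ≤ P ^ C.card := Nat.pow_le_pow_left (by omega) _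
      _ ≤ P ^ 2 := Nat.pow_le_pow_right (by omega) hC2
  calc A.card ≤ B.card * (P - 1) ^ C.card := h3
    _ ≤ B.card * P ^ 2 := Nat.mul_le_mul_left _ h4
    _ = P ^ 2 * B.card := by ring

/-- all blocks of a finite set of indices -/
theorem P5_ind {K : Type} [Fintype K] [DecidableEq K] (lab : K → Option (Fin 4)) {w P : ℕ} (hw : 1 ≤ w)
    (hP : 2 ≤ P) (h0 : (Finset.univ.filter (fun κ => lab κ = some 0)).card = w)
    (h2 : (Finset.univ.filter (fun κ => lab κ = some 2)).card = w) (hK : Fintype.card K = P * w)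
    {H F : Finset V} {q : ℕ} (C : Fin q → Finset V) (hC : ∀ i, C i ⊆ H \ F ∧ (C i).card ≤ 2)
    (hdis : ∀ i j, i ≠ j → Disjoint (C i) (C j)) (s : Finset (Fin q)) :
    (((Finset.univ.filter (fun c : V → K =>
        cl lab H 0 c = F ∧ ∀ i ∈ s, ∃ v ∈ C i, lab (c v) ≠ some 2)).card : ℕ) : ℝ)
      ≤ (1 - 1 / (P : ℝ) ^ 2) ^ s.card *
        (((Finset.univ.filter (fun c : V → K => cl lab H 0 c = F)).card : ℕ) : ℝ) := by
  have hPR : (0 : ℝ) < (P : ℝ) ^ 2 := by
    have : (0 : ℝ) < P := by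
      have : 0 < P := by omega
      exact_mod_cast this
    positivity
  have hP1 : (1 : ℝ) ≤ (P : ℝ) ^ 2 := by
    have : (1 : ℝ) ≤ P := by
      have : 1 ≤ P := by omega
      exact_mod_cast this
    exact one_le_pow₀ this
  have hx0 : (0 : ℝ) ≤ 1 - 1 / (P : ℝ) ^ 2 := by
    have : 1 / (P : ℝ) ^ 2 ≤ 1 := by
      rw [div_le_one hPR]; exact hP1
    linarith
  induction s using Finset.induction_on with
  | empty =>
    rw [Finset.card_empty, pow_zero, one_mul]
    apply Nat.cast_le.2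
    apply Finset.card_le_card
    intro c hc
    have := (Finset.mem_filter.1 hc).2
    exact Finset.mem_filter.2 ⟨Finset.mem_univ _, this.1⟩
  | insert i s his ih =>
    set A := Finset.univ.filter (fun c : V → K =>
        cl lab H 0 c = F ∧ ∀ i ∈ s, ∃ v ∈ C i, lab (c v) ≠ some 2) with hA
    set B := A.filter (fun c => ∀ v ∈ C i, lab (c v) = some 2) with hB
    have h3 : A.card ≤ P ^ 2 * B.card := by
      apply P5_inj lab hw hP h0 h2 hK (hC i).1 (hC i).2 A B
      · intro c hc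
        exact (Finset.mem_filter.1 hc).2.1
      · intro c hc c' hc1 hc2
        have hcA := (Finset.mem_filter.1 hc).2
        rw [hB]
        refine Finset.mem_filter.2 ⟨Finset.mem_filter.2 ⟨Finset.mem_univ _, ?_, ?_⟩, hc2⟩
        · rw [← hcA.1]
          apply Finset.ext
          intro v
          unfold cl
          rw [Finset.mem_filter, Finset.mem_filter]
          by_cases hv : v ∈ C i
          · have h5 := Finset.mem_sdiff.1 ((hC i).1 hv)
            have h6 : lab (c v) ≠ some 0 := by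
              intro h7
              apply h5.2
              rw [← hcA.1]
              exact Finset.mem_filter.2 ⟨h5.1, h7⟩
            have h8 : lab (c' v) ≠ some 0 := by
              rw [hc2 v hv]
              decide
            exact ⟨fun h => absurd h.2 h8, fun h => absurd h.2 h6⟩
          · rw [hc1 v hv]
        · intro j hj
          obtain ⟨v, hv, hv2⟩ := hcA.2 j hj
          have hij : i ≠ j := fun h => his (h ▸ hj)
          have hvi : v ∉ C i := fun h => Finset.disjoint_left.1 (hdis i j hij) h hv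
          refine ⟨v, hv, ?_⟩
          rw [hc1 v hvi]
          exact hv2
    have h4 : (Finset.univ.filter (fun c : V → K =>
        cl lab H 0 c = F ∧ ∀ i' ∈ insert i s, ∃ v ∈ C i', lab (c v) ≠ some 2)).card + B.card
          ≤ A.card := by
      rw [← Finset.card_union_of_disjoint]
      · apply Finset.card_le_card
        intro c hc
        rcases Finset.mem_union.1 hc with h | h
        · have h5 := (Finset.mem_filter.1 h).2
          exact Finset.mem_filter.2 ⟨Finset.mem_univ _, h5.1, fun j hj =>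
            h5.2 j (Finset.mem_insert_of_mem hj)⟩
        · exact (Finset.mem_filter.1 h).1
      · rw [Finset.disjoint_left]
        intro c hc hc'
        obtain ⟨v, hv, hv2⟩ := (Finset.mem_filter.1 hc).2.2 i (Finset.mem_insert_self i s)
        exact hv2 ((Finset.mem_filter.1 hc').2 v hv)
    have h3' : (A.card : ℝ) ≤ (P : ℝ) ^ 2 * B.card := by exact_mod_cast h3
    have h4' : (((Finset.univ.filter (fun c : V → K =>
        cl lab H 0 c = F ∧ ∀ i' ∈ insert i s, ∃ v ∈ C i', lab (c v) ≠ some 2)).card : ℕ) : ℝ) +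
          B.card ≤ A.card := by exact_mod_cast h4
    have h5 : (A.card : ℝ) / (P : ℝ) ^ 2 ≤ B.card := by
      rw [div_le_iff₀ hPR]
      linarith
    calc (((Finset.univ.filter (fun c : V → K =>
        cl lab H 0 c = F ∧ ∀ i' ∈ insert i s, ∃ v ∈ C i', lab (c v) ≠ some 2)).card : ℕ) : ℝ)
        ≤ (A.card : ℝ) - (A.card : ℝ) / (P : ℝ) ^ 2 := by linarith
      _ = (1 - 1 / (P : ℝ) ^ 2) * A.card := by ring
      _ ≤ (1 - 1 / (P : ℝ) ^ 2) * ((1 - 1 / (P : ℝ) ^ 2) ^ s.card *
        (((Finset.univ.filter (fun c : V → K => cl lab H 0 c = F)).card : ℕ) : ℝ)) :=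
          mul_le_mul_of_nonneg_left ih hx0
      _ = (1 - 1 / (P : ℝ) ^ 2) ^ (insert i s).card *
        (((Finset.univ.filter (fun c : V → K => cl lab H 0 c = F)).card : ℕ) : ℝ) := by
          rw [Finset.card_insert_of_notMem his, pow_succ]
          ring

/-- P5: the probability that no block is completely labelled 2. -/
theorem cnt_blocks {K : Type} [Fintype K] [DecidableEq K] (lab : K → Option (Fin 4)) {w P : ℕ} (hw : 1 ≤ w)
    (hP : 2 ≤ P) (h0 : (Finset.univ.filter (fun κ => lab κ = some 0)).card = w)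
    (h2 : (Finset.univ.filter (fun κ => lab κ = some 2)).card = w) (hK : Fintype.card K = P * w)
    {H F : Finset V} (hF : F ⊆ H) {q : ℕ} (C : Fin q → Finset V) (hC : ∀ i, C i ⊆ H \ F ∧ (C i).card ≤ 2)
    (hdis : ∀ i j, i ≠ j → Disjoint (C i) (C j)) :
    (((Finset.univ.filter (fun c : V → K =>
        cl lab H 0 c = F ∧ ∀ i, ∃ v ∈ C i, lab (c v) ≠ some 2)).card : ℕ) : ℝ)
      ≤ (1 - 1 / (P : ℝ) ^ 2) ^ q *
        (((Finset.univ.filter (fun c : V → K => cl lab H 0 c = F)).card : ℕ) : ℝ) := by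
  have h3 := P5_ind lab hw hP h0 h2 hK C hC hdis Finset.univ
  rw [Finset.card_univ, Fintype.card_fin] at h3
  refine le_trans (Nat.cast_le.2 (Finset.card_le_card ?_)) h3
  intro c hc
  have h4 := (Finset.mem_filter.1 hc).2
  exact Finset.mem_filter.2 ⟨Finset.mem_univ _, h4.1, fun i _ => h4.2 i⟩

/-! Row P6 -/
/-- P6: a good colouring which fails to join, seen as a missing block. -/
theorem un_cover {K : Type} [Fintype K] [DecidableEq K] (lab : K → Option (Fin 4)) {H B S : Finset V}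
    {e k q d0 z : ℕ} {Γ : Finset V → Finset V} (hh : Haven G H B e k Γ) (hd0 : 1 ≤ d0) (hS : S.card + 2 * q ≤ k)
    (hz : 2 * S.card + 4 * q < z) (c : V → K)
    (hgood : ∀ v ∈ Γ S, d0 ≤ (nbIn G (cl lab H 0 c ∩ Γ S) v).card)
    (hun : Un G (cl lab H 0 c ∪ cl lab H 2 c) B z) :
    ∃ X ⊆ cl lab H 0 c ∩ Γ S, ¬ Touch G X ((cl lab H 0 c ∩ Γ S) \ X) ∧
      S.card + 4 * q < ((B ∩ Γ S).filter (fun b => ∃ x ∈ X, G.Adj b x)).card ∧
      S.card + 4 * q < ((B ∩ Γ S).filter (fun b => ∃ x ∈ (cl lab H 0 c ∩ Γ S) \ X, G.Adj b x)).card ∧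
      ∀ C : Finset V, C ⊆ Γ S → (∃ v ∈ C, ∃ v' ∈ C, (v = v' ∨ G.Adj v v') ∧ (∃ x ∈ X, G.Adj v x) ∧
        ∃ y ∈ (cl lab H 0 c ∩ Γ S) \ X, G.Adj v' y) → ∃ v ∈ C, lab (c v) ≠ some 2 := by
  obtain ⟨Z1, hZ1, Z2, hZ2, hz1, hz2, hj⟩ := hun
  have hk : S.card ≤ k := by omega
  have hrc := hh.rc S hk
  set F0 := cl lab H 0 c with hF0
  set F2 := cl lab H 2 c with hF2
  set F' := F0 ∩ Γ S with hF'
  set D := (F0 ∪ F2) ∩ Γ S with hD
  have hF'D : F' ⊆ D := by
    intro a ha
    obtain ⟨h1, h2⟩ := Finset.mem_inter.1 ha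
    exact Finset.mem_inter.2 ⟨Finset.mem_union_left _ h1, h2⟩
  have hDF : D ⊆ F0 ∪ F2 := fun a ha => (Finset.mem_inter.1 ha).1
  set X := F'.filter (fun x => ∃ u ∈ Z1 ∩ Γ S, ∃ w ∈ F', G.Adj u w ∧ Joined G D w x) with hX
  have hmemX : ∀ x, x ∈ X ↔ x ∈ F' ∧ ∃ u ∈ Z1 ∩ Γ S, ∃ w ∈ F', G.Adj u w ∧ Joined G D w x := by
    intro x
    rw [hX, Finset.mem_filter]
  have hnbr : ∀ u ∈ Γ S, ∃ w ∈ F', G.Adj u w := by
    intro u hu
    have h1 := hgood u hu
    have h2 : (nbIn G F' u).Nonempty := Finset.card_pos.1 (by omega)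
    obtain ⟨w, hw⟩ := h2
    exact ⟨w, (mem_nbIn.1 hw).1, (mem_nbIn.1 hw).2⟩
  have hcount : ∀ Z : Finset V, Z ⊆ B → z ≤ Z.card → S.card + 4 * q < (Z ∩ Γ S).card := by
    intro Z hZ hzc
    have h1 : (Z ∩ Γ S).card + (Z \ Γ S).card = Z.card := Finset.card_inter_add_card_sdiff Z (Γ S)
    have h2 : (Z \ Γ S).card ≤ (B \ Γ S).card := Finset.card_le_card (Finset.sdiff_subset_sdiff hZ le_rfl)
    omega
  refine ⟨X, Finset.filter_subset _ _, ?_, ?_, ?_, ?_⟩
  · rintro ⟨x, hx, y, hy, hxy⟩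
    obtain ⟨hxF, u, hu, w, hw, huw, hj1⟩ := (hmemX x).1 hx
    obtain ⟨hyF, hyX⟩ := Finset.mem_sdiff.1 hy
    exact hyX ((hmemX y).2 ⟨hyF, u, hu, w, hw, huw, hj1.trans (joined_of_adj (hF'D hxF) (hF'D hyF) hxy)⟩)
  · refine lt_of_lt_of_le (hcount Z1 hZ1 hz1) (Finset.card_le_card ?_)
    intro u hu
    obtain ⟨huZ, huS⟩ := Finset.mem_inter.1 hu
    obtain ⟨w, hw, huw⟩ := hnbr u huS
    refine Finset.mem_filter.2 ⟨Finset.mem_inter.2 ⟨hZ1 huZ, huS⟩, w, ?_, huw⟩
    exact (hmemX w).2 ⟨hw, u, hu, w, hw, huw, joined_refl (hF'D hw)⟩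
  · refine lt_of_lt_of_le (hcount Z2 hZ2 hz2) (Finset.card_le_card ?_)
    intro u' hu'
    obtain ⟨huZ', huS'⟩ := Finset.mem_inter.1 hu'
    obtain ⟨w', hw', huw'⟩ := hnbr u' huS'
    refine Finset.mem_filter.2 ⟨Finset.mem_inter.2 ⟨hZ2 huZ', huS'⟩, w', ?_, huw'⟩
    refine Finset.mem_sdiff.2 ⟨hw', fun hwX => ?_⟩
    obtain ⟨-, u, hu, w, hw, huw, hj1⟩ := (hmemX w').1 hwX
    apply hj u (Finset.mem_inter.1 hu).1 u' huZ'
    have hsub : D ⊆ insert u (insert u' (F0 ∪ F2)) := fun a ha =>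
      Finset.mem_insert_of_mem (Finset.mem_insert_of_mem (hDF ha))
    have hu1 : u ∈ insert u (insert u' (F0 ∪ F2)) := Finset.mem_insert_self _ _
    have hu2 : u' ∈ insert u (insert u' (F0 ∪ F2)) := Finset.mem_insert_of_mem (Finset.mem_insert_self _ _)
    have h1 : Joined G (insert u (insert u' (F0 ∪ F2))) u w := joined_of_adj hu1 (hsub (hF'D hw)) huw
    have h2 : Joined G (insert u (insert u' (F0 ∪ F2))) w' u' := joined_of_adj (hsub (hF'D hw')) hu2 huw'.symm
    exact (h1.trans (hj1.mono hsub)).trans h2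
  · rintro C hC ⟨v, hv, v', hv', hvv, ⟨x, hx, hvx⟩, y, hy, hvy⟩
    by_contra hcon
    have hall : ∀ a ∈ C, lab (c a) = some 2 := by
      intro a ha
      by_contra h1
      exact hcon ⟨a, ha, h1⟩
    have hmemD : ∀ a ∈ C, a ∈ D := by
      intro a ha
      have haS := hC ha
      have haH : a ∈ H := (Finset.mem_sdiff.1 (hh.sub S hk haS)).1
      exact Finset.mem_inter.2 ⟨Finset.mem_union_right _ (Finset.mem_filter.2 ⟨haH, hall a ha⟩), haS⟩
    obtain ⟨hxF, u, hu, w, hw, huw, hj1⟩ := (hmemX x).1 hx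
    obtain ⟨hyF, hyX⟩ := Finset.mem_sdiff.1 hy
    apply hyX
    have h1 : Joined G D x v := joined_of_adj (hF'D hxF) (hmemD v hv) hvx.symm
    have h2 : Joined G D v v' := by
      rcases hvv with hvv | hvv
      · rw [← hvv]
        exact joined_refl (hmemD v hv)
      · exact joined_of_adj (hmemD v hv) (hmemD v' hv') hvv
    have h3 : Joined G D v' y := joined_of_adj (hmemD v' hv') (hF'D hyF) hvy
    exact (hmemX y).2 ⟨hyF, u, hu, w, hw, huw, ((hj1.trans h1).trans h2).trans h3⟩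

/-! Row P7 -/
theorem P7_nonneg {P : ℕ} (hP : 2 ≤ P) : (0 : ℝ) ≤ 1 - 1 / (P : ℝ) ^ 2 := by
  have h1 : (2 : ℝ) ≤ P := by exact_mod_cast hP
  have h2 : (1 : ℝ) ≤ (P : ℝ) ^ 2 := by nlinarith
  have h3 : 1 / (P : ℝ) ^ 2 ≤ 1 := by
    rw [div_le_one (by linarith)]
    exact h2
  linarith

/-- the bound for one sampled set -/
theorem P7_local {K : Type} [Fintype K] [DecidableEq K] (lab : K → Option (Fin 4)) {w P : ℕ} (hw : 1 ≤ w)
    (hP : 2 ≤ P) (h0 : (Finset.univ.filter (fun κ => lab κ = some 0)).card = w)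
    (h2 : (Finset.univ.filter (fun κ => lab κ = some 2)).card = w) (hK : Fintype.card K = P * w)
    {H B : Finset V} {e k m q d0 z : ℕ} {Γ : Finset V → Finset V} (hh : Haven G H B e k Γ) (hd0 : 1 ≤ d0)
    (hm : m * e + 2 * q ≤ k) (hz : 2 * (m * e) + 4 * q < z) {F : Finset V} (hFH : F ⊆ H)
    (hF : Good G Γ H e m d0 F) :
    (((Finset.univ.filter (fun c : V → K => cl lab H 0 c = F ∧
        Un G (cl lab H 0 c ∪ cl lab H 2 c) B z)).card : ℕ) : ℝ) ≤
      2 ^ (H.card / d0) * ((1 - 1 / (P : ℝ) ^ 2) ^ q *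
        (((Finset.univ.filter (fun c : V → K => cl lab H 0 c = F)).card : ℕ) : ℝ)) := by
  obtain ⟨S, hSH, hSc, hdeg⟩ := hF
  have hSk : S.card + 2 * q ≤ k := by omega
  have hz' : 2 * S.card + 4 * q < z := by omega
  have hsub := hh.sub S (by omega)
  have hdom : ∀ v ∈ Γ S, ∃ u ∈ F ∩ Γ S, G.Adj v u := by
    intro v hv
    have h5 := hdeg v hv
    have h6 : (nbIn G (F ∩ Γ S) v).Nonempty := by
      rw [← Finset.card_pos]
      omega
    obtain ⟨u, hu⟩ := h6
    exact ⟨u, (mem_nbIn.1 hu).1, (mem_nbIn.1 hu).2⟩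
  obtain ⟨Xs, hXs⟩ : ∃ Xs, Xs = (F ∩ Γ S).powerset.filter (fun X => ¬ Touch G X ((F ∩ Γ S) \ X) ∧
    S.card + 4 * q < ((B ∩ Γ S).filter (fun b => ∃ x ∈ X, G.Adj b x)).card ∧
    S.card + 4 * q < ((B ∩ Γ S).filter (fun b => ∃ x ∈ (F ∩ Γ S) \ X, G.Adj b x)).card) := ⟨_, rfl⟩
  have hcon : ∀ X ∈ Xs, ∃ C : Fin q → Finset V, (∀ i, C i ⊆ Γ S \ (F ∩ Γ S) ∧ (C i).card ≤ 2) ∧
      (∀ i j, i ≠ j → Disjoint (C i) (C j)) ∧
      ∀ i, ∃ v ∈ C i, ∃ v' ∈ C i, (v = v' ∨ G.Adj v v') ∧ (∃ x ∈ X, G.Adj v x) ∧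
        ∃ y ∈ (F ∩ Γ S) \ X, G.Adj v' y := by
    intro X hX
    rw [hXs] at hX
    obtain ⟨k1, k2, k3, k4⟩ := Finset.mem_filter.1 hX
    exact hconn hh Finset.inter_subset_right hdom (Finset.mem_powerset.1 k1) k2 hSk k3 k4
  choose! C hC using hcon
  have hcover : (Finset.univ.filter (fun c : V → K => cl lab H 0 c = F ∧
        Un G (cl lab H 0 c ∪ cl lab H 2 c) B z)) ⊆
      Xs.biUnion fun X => Finset.univ.filter (fun c : V → K =>
        cl lab H 0 c = F ∧ ∀ i, ∃ v ∈ C X i, lab (c v) ≠ some 2) := by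
    intro c hc
    obtain ⟨-, hcF, hun⟩ := Finset.mem_filter.1 hc
    have hgood : ∀ v ∈ Γ S, d0 ≤ (nbIn G (cl lab H 0 c ∩ Γ S) v).card := by
      rw [hcF]
      exact hdeg
    obtain ⟨X, hX1, hX2, hX3, hX4, hX5⟩ := un_cover lab hh hd0 hSk hz' c hgood hun
    rw [hcF] at hX1 hX2 hX4 hX5
    have hXm : X ∈ Xs := by
      rw [hXs]
      exact Finset.mem_filter.2 ⟨Finset.mem_powerset.2 hX1, hX2, hX3, hX4⟩
    refine Finset.mem_biUnion.2 ⟨X, hXm, Finset.mem_filter.2 ⟨Finset.mem_univ _, hcF, fun i => ?_⟩⟩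
    exact hX5 (C X i) (((hC X hXm).1 i).1.trans Finset.sdiff_subset) ((hC X hXm).2.2 i)
  have h3 : (((Finset.univ.filter (fun c : V → K => cl lab H 0 c = F ∧
        Un G (cl lab H 0 c ∪ cl lab H 2 c) B z)).card : ℕ) : ℝ) ≤
      ((∑ X ∈ Xs, (Finset.univ.filter (fun c : V → K =>
        cl lab H 0 c = F ∧ ∀ i, ∃ v ∈ C X i, lab (c v) ≠ some 2)).card : ℕ) : ℝ) := by
    exact_mod_cast (Finset.card_le_card hcover).trans Finset.card_biUnion_le
  refine h3.trans ?_
  rw [Nat.cast_sum]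
  have h4 : ∀ X ∈ Xs, (((Finset.univ.filter (fun c : V → K =>
        cl lab H 0 c = F ∧ ∀ i, ∃ v ∈ C X i, lab (c v) ≠ some 2)).card : ℕ) : ℝ) ≤
      (1 - 1 / (P : ℝ) ^ 2) ^ q *
        (((Finset.univ.filter (fun c : V → K => cl lab H 0 c = F)).card : ℕ) : ℝ) := by
    intro X hX
    refine cnt_blocks lab hw hP h0 h2 hK hFH (C X) (fun i => ⟨?_, ((hC X hX).1 i).2⟩) (hC X hX).2.1
    intro v hv
    obtain ⟨k1, k2⟩ := Finset.mem_sdiff.1 (((hC X hX).1 i).1 hv)
    refine Finset.mem_sdiff.2 ⟨(Finset.mem_sdiff.1 (hsub k1)).1, fun h => k2 ?_⟩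
    exact Finset.mem_inter.2 ⟨h, k1⟩
  refine (Finset.sum_le_sum h4).trans ?_
  rw [Finset.sum_const, nsmul_eq_mul]
  have hr := P7_nonneg hP
  refine mul_le_mul_of_nonneg_right ?_ (mul_nonneg (pow_nonneg hr q) (by positivity))
  have h5 : Xs.card ≤ 2 ^ (H.card / d0) := by
    have h6 : Xs.card ≤ ((F ∩ Γ S).powerset.filter (fun X => ¬ Touch G X ((F ∩ Γ S) \ X))).card := by
      apply Finset.card_le_card
      intro X hX
      rw [hXs] at hX
      obtain ⟨k1, k2, -, -⟩ := Finset.mem_filter.1 hX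
      exact Finset.mem_filter.2 ⟨k1, k2⟩
    refine h6.trans ((count_closed G hd0 fun v hv => hdeg v (Finset.mem_inter.1 hv).2).trans ?_)
    exact Nat.pow_le_pow_right (by norm_num) (Nat.div_le_div_right
      (Finset.card_le_card (Finset.inter_subset_left.trans hFH)))
  exact_mod_cast h5

/-- P7: the probability that the sampled set fails to join. -/
theorem cnt_un {K : Type} [Fintype K] [DecidableEq K] (lab : K → Option (Fin 4)) {w P : ℕ} (hw : 1 ≤ w)
    (hP : 2 ≤ P) (h0 : (Finset.univ.filter (fun κ => lab κ = some 0)).card = w)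
    (h2 : (Finset.univ.filter (fun κ => lab κ = some 2)).card = w) (hK : Fintype.card K = P * w)
    {H B : Finset V} {e k m q d0 z : ℕ} {Γ : Finset V → Finset V} (hh : Haven G H B e k Γ) (hd0 : 1 ≤ d0)
    (hm : m * e + 2 * q ≤ k) (hz : 2 * (m * e) + 4 * q < z) :
    (((Finset.univ.filter (fun c : V → K => Good G Γ H e m d0 (cl lab H 0 c) ∧
        Un G (cl lab H 0 c ∪ cl lab H 2 c) B z)).card : ℕ) : ℝ) ≤
      (Fintype.card K : ℝ) ^ (Fintype.card V) * (2 ^ (H.card / d0) * (1 - 1 / (P : ℝ) ^ 2) ^ q) := by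
  have hr := P7_nonneg hP
  have hsub : (Finset.univ.filter (fun c : V → K => Good G Γ H e m d0 (cl lab H 0 c) ∧
        Un G (cl lab H 0 c ∪ cl lab H 2 c) B z)) ⊆
      (H.powerset.filter (Good G Γ H e m d0)).biUnion fun F =>
        Finset.univ.filter (fun c : V → K => cl lab H 0 c = F ∧ Un G (cl lab H 0 c ∪ cl lab H 2 c) B z) := by
    intro c hc
    obtain ⟨-, hc1, hc2⟩ := Finset.mem_filter.1 hc
    exact Finset.mem_biUnion.2 ⟨cl lab H 0 c, Finset.mem_filter.2
      ⟨Finset.mem_powerset.2 (Finset.filter_subset _ _), hc1⟩, Finset.mem_filter.2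
      ⟨Finset.mem_univ _, rfl, hc2⟩⟩
  have h1 := (Finset.card_le_card hsub).trans Finset.card_biUnion_le
  have h3 : ∀ F ∈ H.powerset.filter (Good G Γ H e m d0),
      (((Finset.univ.filter (fun c : V → K => cl lab H 0 c = F ∧
        Un G (cl lab H 0 c ∪ cl lab H 2 c) B z)).card : ℕ) : ℝ) ≤
      2 ^ (H.card / d0) * ((1 - 1 / (P : ℝ) ^ 2) ^ q *
        (((Finset.univ.filter (fun c : V → K => cl lab H 0 c = F)).card : ℕ) : ℝ)) := by
    intro F hF
    obtain ⟨hF1, hF2⟩ := Finset.mem_filter.1 hF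
    exact P7_local lab hw hP h0 h2 hK hh hd0 hm hz (Finset.mem_powerset.1 hF1) hF2
  have h7 : ∑ F ∈ H.powerset.filter (Good G Γ H e m d0), (((Finset.univ.filter
      (fun c : V → K => cl lab H 0 c = F)).card : ℕ) : ℝ) ≤ (Fintype.card K : ℝ) ^ (Fintype.card V) := by
    have h8 : ∑ F ∈ H.powerset.filter (Good G Γ H e m d0), ((Finset.univ.filter
        (fun c : V → K => cl lab H 0 c = F)).card) ≤ (Fintype.card K) ^ (Fintype.card V) := by
      have h9 : (Finset.univ : Finset (V → K)).card = (Fintype.card K) ^ (Fintype.card V) := by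
        rw [Finset.card_univ, Fintype.card_fun]
      rw [← h9, Finset.card_eq_sum_card_fiberwise (f := fun c : V → K => cl lab H 0 c) (t := H.powerset)
        (fun c _ => Finset.mem_coe.2 (Finset.mem_powerset.2 (Finset.filter_subset _ _)))]
      exact Finset.sum_le_sum_of_subset (Finset.filter_subset _ _)
    exact_mod_cast h8
  calc (((Finset.univ.filter (fun c : V → K => Good G Γ H e m d0 (cl lab H 0 c) ∧
        Un G (cl lab H 0 c ∪ cl lab H 2 c) B z)).card : ℕ) : ℝ)
      ≤ ((∑ F ∈ H.powerset.filter (Good G Γ H e m d0), (Finset.univ.filter (fun c : V → K =>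
        cl lab H 0 c = F ∧ Un G (cl lab H 0 c ∪ cl lab H 2 c) B z)).card : ℕ) : ℝ) := by
        exact_mod_cast h1
    _ ≤ ∑ F ∈ H.powerset.filter (Good G Γ H e m d0), 2 ^ (H.card / d0) * ((1 - 1 / (P : ℝ) ^ 2) ^ q *
        (((Finset.univ.filter (fun c : V → K => cl lab H 0 c = F)).card : ℕ) : ℝ)) := by
        rw [Nat.cast_sum]
        exact Finset.sum_le_sum h3
    _ = 2 ^ (H.card / d0) * (1 - 1 / (P : ℝ) ^ 2) ^ q * ∑ F ∈ H.powerset.filter (Good G Γ H e m d0),
        (((Finset.univ.filter (fun c : V → K => cl lab H 0 c = F)).card : ℕ) : ℝ) := by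
        rw [Finset.mul_sum]
        exact Finset.sum_congr rfl fun F _ => by ring
    _ ≤ 2 ^ (H.card / d0) * (1 - 1 / (P : ℝ) ^ 2) ^ q * (Fintype.card K : ℝ) ^ (Fintype.card V) :=
        mul_le_mul_of_nonneg_left h7 (mul_nonneg (by positivity) (pow_nonneg hr q))
    _ = _ := by ring

/-! Row P8 -/
/-- the colours with a label -/
def P8_L {K : Type} [Fintype K] (lab : K → Option (Fin 4)) : Finset K := Finset.univ.filter (fun κ => lab κ ≠ none)

/-- the colours with label 1 or 3 -/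
def P8_O {K : Type} [Fintype K] (lab : K → Option (Fin 4)) : Finset K :=
  Finset.univ.filter (fun κ => lab κ = some 1 ∨ lab κ = some 3)

/-- the allowed colours of `v` when `W` is the set of labelled vertices -/
def P8_A {K : Type} [Fintype K] (lab : K → Option (Fin 4)) (H W : Finset V) (v : V) : Finset K :=
  if v ∈ W then P8_L lab else if v ∈ H then Finset.univ.filter (fun κ => lab κ = none) else Finset.univ

/-- the same, with labels 1 or 3 on `S` -/
def P8_B {K : Type} [Fintype K] (lab : K → Option (Fin 4)) (H W S : Finset V) (v : V) : Finset K :=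
  if v ∈ S ∩ W then P8_O lab else P8_A lab H W v

theorem P8_cardO {K : Type} [Fintype K] (lab : K → Option (Fin 4)) {w : ℕ}
    (hl : ∀ j, (Finset.univ.filter (fun κ => lab κ = some j)).card = w) : (P8_O lab).card = 2 * w := by
  have h1 : P8_O lab = Finset.univ.filter (fun κ => lab κ = some 1) ∪ Finset.univ.filter (fun κ => lab κ = some 3) := by
    unfold P8_O
    rw [Finset.filter_or]
  rw [h1, Finset.card_union_of_disjoint, hl 1, hl 3]
  · ring
  · rw [Finset.disjoint_left]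
    intro κ h2 h3
    have h4 := (Finset.mem_filter.1 h2).2
    have h5 := (Finset.mem_filter.1 h3).2
    rw [h4] at h5
    simp at h5

theorem P8_cardL {K : Type} [Fintype K] (lab : K → Option (Fin 4)) {w : ℕ}
    (hl : ∀ j, (Finset.univ.filter (fun κ => lab κ = some j)).card = w) : (P8_L lab).card = 4 * w := by
  have h1 : P8_L lab = Finset.univ.biUnion (fun j : Fin 4 => Finset.univ.filter (fun κ => lab κ = some j)) := by
    ext κ
    unfold P8_L
    simp only [Finset.mem_filter, Finset.mem_univ, true_and, Finset.mem_biUnion]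
    constructor
    · intro h
      obtain ⟨j, hj⟩ := Option.ne_none_iff_exists'.1 h
      exact ⟨j, hj⟩
    · rintro ⟨j, hj⟩
      rw [hj]
      simp
  rw [h1, Finset.card_biUnion]
  · rw [Finset.sum_congr rfl (fun j _ => hl j)]
    simp
  · intro i _ j _ hij
    rw [Function.onFun, Finset.disjoint_left]
    intro κ h2 h3
    have h4 := (Finset.mem_filter.1 h2).2
    have h5 := (Finset.mem_filter.1 h3).2
    rw [h4] at h5
    exact hij (Option.some.inj h5)

theorem P8_mem {K : Type} [Fintype K] [DecidableEq K] (lab : K → Option (Fin 4)) {H W : Finset V} (hW : W ⊆ H) (c : V → K) :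
    c ∈ Fintype.piFinset (P8_A lab H W) ↔ cA lab H c = W := by
  rw [Fintype.mem_piFinset]
  constructor
  · intro h
    ext v
    unfold cA
    rw [Finset.mem_filter]
    constructor
    · rintro ⟨h1, h2⟩
      by_contra h3
      have h4 := h v
      unfold P8_A at h4
      rw [if_neg h3, if_pos h1] at h4
      exact h2 (Finset.mem_filter.1 h4).2
    · intro h1
      have h4 := h v
      unfold P8_A at h4
      rw [if_pos h1] at h4
      exact ⟨hW h1, (Finset.mem_filter.1 h4).2⟩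
  · intro h v
    unfold P8_A
    by_cases h1 : v ∈ W
    · rw [if_pos h1]
      rw [← h] at h1
      exact Finset.mem_filter.2 ⟨Finset.mem_univ _, (Finset.mem_filter.1 h1).2⟩
    · rw [if_neg h1]
      by_cases h2 : v ∈ H
      · rw [if_pos h2]
        refine Finset.mem_filter.2 ⟨Finset.mem_univ _, ?_⟩
        by_contra h3
        exact h1 (h ▸ Finset.mem_filter.2 ⟨h2, h3⟩)
      · rw [if_neg h2]
        exact Finset.mem_univ _

theorem P8_BA {K : Type} [Fintype K] (lab : K → Option (Fin 4)) (H W S : Finset V) (v : V) :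
    P8_B lab H W S v ⊆ P8_A lab H W v := by
  unfold P8_B
  by_cases h : v ∈ S ∩ W
  · rw [if_pos h]
    unfold P8_A
    rw [if_pos (Finset.mem_inter.1 h).2]
    intro κ h1
    refine Finset.mem_filter.2 ⟨Finset.mem_univ _, ?_⟩
    rcases (Finset.mem_filter.1 h1).2 with h2 | h2
    · rw [h2]; simp
    · rw [h2]; simp
  · rw [if_neg h]

theorem P8_card {K : Type} [Fintype K] [DecidableEq K] (lab : K → Option (Fin 4)) {w : ℕ}
    (hl : ∀ j, (Finset.univ.filter (fun κ => lab κ = some j)).card = w) (H W S : Finset V) {s : ℕ} (hS : S.card ≤ s) :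
    (Fintype.piFinset (P8_A lab H W)).card ≤ 2 ^ s * (Fintype.piFinset (P8_B lab H W S)).card := by
  rw [Fintype.card_piFinset, Fintype.card_piFinset]
  have h1 : ∏ v : V, (P8_A lab H W v).card ≤ ∏ v : V, ((if v ∈ S ∩ W then 2 else 1) * (P8_B lab H W S v).card) := by
    apply Finset.prod_le_prod'
    intro v _
    unfold P8_B
    by_cases h : v ∈ S ∩ W
    · rw [if_pos h, if_pos h]
      unfold P8_A
      rw [if_pos (Finset.mem_inter.1 h).2, P8_cardL lab hl, P8_cardO lab hl]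
      apply le_of_eq
      ring
    · rw [if_neg h, if_neg h, one_mul]
  rw [Finset.prod_mul_distrib] at h1
  refine h1.trans (Nat.mul_le_mul_right _ ?_)
  rw [Finset.prod_ite, Finset.prod_const_one, mul_one, Finset.prod_const]
  apply Nat.pow_le_pow_right (by norm_num)
  refine le_trans (Finset.card_le_card ?_) hS
  intro v hv
  exact (Finset.mem_inter.1 (Finset.mem_filter.1 hv).2).1

/-- P8: the subsampling trick. -/
theorem trick2 {K : Type} [Fintype K] [DecidableEq K] (lab : K → Option (Fin 4)) {w : ℕ} (hw : 1 ≤ w)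
    (hl : ∀ j, (Finset.univ.filter (fun κ => lab κ = some j)).card = w) {H B : Finset V} {z z1 s : ℕ}
    (hs : z1 + s ≤ z) :
    (((Finset.univ.filter (fun c : V → K => Uns G (cA lab H c) B z s)).card : ℕ) : ℝ) ≤
      2 ^ s * (((Finset.univ.filter (fun c : V → K => Un G (cl lab H 0 c ∪ cl lab H 2 c) B z1)).card : ℕ) : ℝ) := by
  have key : ∀ W ∈ H.powerset,
      (((Finset.univ.filter (fun c : V → K => Uns G (cA lab H c) B z s)).filter (fun c => cA lab H c = W)).card) ≤
      2 ^ s * ((Finset.univ.filter (fun c : V → K => Un G (cl lab H 0 c ∪ cl lab H 2 c) B z1)).filter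
        (fun c => cA lab H c = W)).card := by
    intro W hW
    have hWH := Finset.mem_powerset.1 hW
    by_cases hb : Uns G W B z s
    · obtain ⟨S, hS, Z1, hZ1, Z2, hZ2, hz1, hz2, hno⟩ := hb
      have e1 : ((Finset.univ.filter (fun c : V → K => Uns G (cA lab H c) B z s)).filter (fun c => cA lab H c = W)) ⊆
          Fintype.piFinset (P8_A lab H W) := by
        intro c hc
        exact (P8_mem lab hWH c).2 (Finset.mem_filter.1 hc).2
      have e2 : Fintype.piFinset (P8_B lab H W S) ⊆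
          (Finset.univ.filter (fun c : V → K => Un G (cl lab H 0 c ∪ cl lab H 2 c) B z1)).filter
            (fun c => cA lab H c = W) := by
        intro c hc
        have hc1 : c ∈ Fintype.piFinset (P8_A lab H W) :=
          Fintype.mem_piFinset.2 (fun v => P8_BA lab H W S v (Fintype.mem_piFinset.1 hc v))
        have hc2 := (P8_mem lab hWH c).1 hc1
        refine Finset.mem_filter.2 ⟨Finset.mem_filter.2 ⟨Finset.mem_univ _, ?_⟩, hc2⟩
        have hcard : ∀ Z : Finset V, z ≤ Z.card → z1 ≤ (Z \ S).card := by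
          intro Z hZ
          have h1 := Finset.le_card_sdiff S Z
          omega
        refine ⟨Z1 \ S, Finset.sdiff_subset.trans hZ1, Z2 \ S, Finset.sdiff_subset.trans hZ2, hcard _ hz1,
          hcard _ hz2, ?_⟩
        intro x hx y hy hj
        apply hno x hx y hy
        apply hj.mono
        apply Finset.insert_subset_insert
        apply Finset.insert_subset_insert
        have h5 : ∀ v, v ∈ H → (lab (c v) = some 0 ∨ lab (c v) = some 2) → v ∈ W \ S := by
          intro v hv h6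
          have h7 : v ∈ W := by
            rw [← hc2]
            refine Finset.mem_filter.2 ⟨hv, ?_⟩
            rcases h6 with h6 | h6
            · rw [h6]; simp
            · rw [h6]; simp
          refine Finset.mem_sdiff.2 ⟨h7, ?_⟩
          intro h8
          have h9 := Fintype.mem_piFinset.1 hc v
          unfold P8_B at h9
          rw [if_pos (Finset.mem_inter.2 ⟨h8, h7⟩)] at h9
          have h10 := (Finset.mem_filter.1 h9).2
          rcases h6 with h6 | h6 <;> rcases h10 with h10 | h10 <;> rw [h6] at h10 <;> simp at h10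
        intro v hv
        rcases Finset.mem_union.1 hv with h | h
        · exact h5 v (Finset.mem_filter.1 h).1 (Or.inl (Finset.mem_filter.1 h).2)
        · exact h5 v (Finset.mem_filter.1 h).1 (Or.inr (Finset.mem_filter.1 h).2)
      exact (Finset.card_le_card e1).trans ((P8_card lab hl H W S hS).trans
        (Nat.mul_le_mul_left _ (Finset.card_le_card e2)))
    · have e1 : ((Finset.univ.filter (fun c : V → K => Uns G (cA lab H c) B z s)).filter
          (fun c => cA lab H c = W)) = ∅ := by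
        rw [Finset.filter_eq_empty_iff]
        intro c hc h2
        rw [← h2] at hb
        exact hb (Finset.mem_filter.1 hc).2
      rw [e1, Finset.card_empty]
      exact Nat.zero_le _
  have h1 : (Finset.univ.filter (fun c : V → K => Uns G (cA lab H c) B z s)).card =
      ∑ W ∈ H.powerset, ((Finset.univ.filter (fun c : V → K => Uns G (cA lab H c) B z s)).filter
        (fun c => cA lab H c = W)).card := by
    apply Finset.card_eq_sum_card_fiberwise
    intro c _
    exact Finset.mem_coe.2 (Finset.mem_powerset.2 (Finset.filter_subset _ _))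
  have h2 : (Finset.univ.filter (fun c : V → K => Un G (cl lab H 0 c ∪ cl lab H 2 c) B z1)).card =
      ∑ W ∈ H.powerset, ((Finset.univ.filter (fun c : V → K => Un G (cl lab H 0 c ∪ cl lab H 2 c) B z1)).filter
        (fun c => cA lab H c = W)).card := by
    apply Finset.card_eq_sum_card_fiberwise
    intro c _
    exact Finset.mem_coe.2 (Finset.mem_powerset.2 (Finset.filter_subset _ _))
  have h3 : (Finset.univ.filter (fun c : V → K => Uns G (cA lab H c) B z s)).card ≤
      2 ^ s * (Finset.univ.filter (fun c : V → K => Un G (cl lab H 0 c ∪ cl lab H 2 c) B z1)).card := by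
    rw [h1, h2, Finset.mul_sum]
    exact Finset.sum_le_sum key
  exact_mod_cast h3

/-! Row P9 -/
theorem P9_two_pow {k : ℕ} {t : ℝ} (h : (k : ℝ) ≤ t) : (2 : ℝ) ^ k ≤ Real.exp (0.6932 * t) := by
  have h1 : (2 : ℝ) ^ k = Real.exp (k * Real.log 2) := by
    rw [Real.exp_nat_mul, Real.exp_log (by norm_num)]
  rw [h1]
  apply Real.exp_le_exp.2
  have h2 := Real.log_two_lt_d9
  have h3 : (0 : ℝ) ≤ k := Nat.cast_nonneg k
  nlinarith

/-- P9: the numerical estimate. -/
theorem p_num {P e n z z0 : ℕ} (hP : 16 ≤ P) (he : 2 * P ≤ e) (hn : 1 ≤ n) (hlog : 16 * P * Real.log n ≤ e)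
    (hz0 : 128 * P ^ 3 * n ≤ z0 * e) (h8 : 8 ≤ z) (hz : z0 ≤ z) :
    (2 : ℝ) ^ ((z - 1) / (256 * P ^ 2)) * ((n : ℝ) ^ (z / (8 * e) + 1) *
        Real.exp (-((((z / (8 * e) + 1) * e : ℕ) : ℝ) / (8 * P))) +
        2 ^ (n / (e / (2 * P))) * (1 - 1 / (P : ℝ) ^ 2) ^ (z / 8)) ≤ 2 * Real.exp (-((z : ℝ) / (32 * P ^ 2))) := by
  have hPR : (16 : ℝ) ≤ P := by exact_mod_cast hP
  have hP0 : (0 : ℝ) < P := by linarith
  have he0 : 0 < e := by omega
  have hE0 : (0 : ℝ) < e := by exact_mod_cast he0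
  have hN1 : (1 : ℝ) ≤ n := by exact_mod_cast hn
  have hZ0 : (0 : ℝ) ≤ z := Nat.cast_nonneg z
  -- s
  obtain ⟨s, hs⟩ : ∃ s, s = (z - 1) / (256 * P ^ 2) := ⟨_, rfl⟩
  have hsR : (s : ℝ) ≤ z / (256 * (P : ℝ) ^ 2) := by
    have h1 : (s : ℝ) ≤ ((z - 1 : ℕ) : ℝ) / ((256 * P ^ 2 : ℕ) : ℝ) := by
      rw [hs]; exact Nat.cast_div_le
    have h2 : ((z - 1 : ℕ) : ℝ) ≤ z := by exact_mod_cast Nat.sub_le z 1
    refine h1.trans ?_
    push_cast
    gcongr
  -- m
  obtain ⟨m, hm⟩ : ∃ m, m = z / (8 * e) := ⟨_, rfl⟩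
  have hmN : z < 8 * e * (m + 1) := by
    rw [hm]; exact Nat.lt_mul_div_succ z (by omega)
  have hmR : (z : ℝ) ≤ 8 * e * (m + 1) := by exact_mod_cast hmN.le
  -- q
  obtain ⟨q, hq⟩ : ∃ q, q = z / 8 := ⟨_, rfl⟩
  have hqN : z ≤ 16 * q := by omega
  have hqR : (z : ℝ) ≤ 16 * q := by exact_mod_cast hqN
  -- d0
  obtain ⟨d, hd⟩ : ∃ d, d = e / (2 * P) := ⟨_, rfl⟩
  have h2P : 0 < 2 * P := by omega
  have hd1 : 1 ≤ d := by
    rw [hd]; exact (Nat.one_le_div_iff h2P).2 he
  have hdN : e < 2 * P * (d + 1) := by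
    rw [hd]; exact Nat.lt_mul_div_succ e h2P
  have hdN' : e ≤ 4 * P * d := by nlinarith
  have hdR : (e : ℝ) ≤ 4 * P * d := by exact_mod_cast hdN'
  have hd0 : (0 : ℝ) < d := by exact_mod_cast hd1
  obtain ⟨k, hk⟩ : ∃ k, k = n / d := ⟨_, rfl⟩
  have hz0R : 128 * (P : ℝ) ^ 3 * n ≤ z * e := by
    have h1 : 128 * (P : ℝ) ^ 3 * n ≤ z0 * e := by exact_mod_cast hz0
    have h2 : (z0 : ℝ) ≤ z := by exact_mod_cast hz
    have h3 : (z0 : ℝ) * e ≤ z * e := mul_le_mul_of_nonneg_right h2 hE0.le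
    linarith
  have hkR : (k : ℝ) ≤ z / (32 * (P : ℝ) ^ 2) := by
    have h1 : (k : ℝ) ≤ (n : ℝ) / d := by
      rw [hk]; exact Nat.cast_div_le
    refine h1.trans ?_
    rw [div_le_div_iff₀ hd0 (by positivity)]
    have h2 : 128 * (P : ℝ) ^ 3 * n ≤ z * (4 * P * d) :=
      hz0R.trans (mul_le_mul_of_nonneg_left hdR hZ0)
    have h3 : 4 * (P : ℝ) * (n * (32 * P ^ 2)) ≤ 4 * P * (z * d) := by nlinarith
    exact le_of_mul_le_mul_left h3 (by positivity)
  rw [← hs, ← hm, ← hq, ← hd, ← hk]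
  -- x = z / P^2
  obtain ⟨x, hx⟩ : ∃ x : ℝ, x = z / (P : ℝ) ^ 2 := ⟨_, rfl⟩
  have hx0 : 0 ≤ x := by rw [hx]; positivity
  have e1 : (z : ℝ) / (256 * (P : ℝ) ^ 2) = x / 256 := by rw [hx]; field_simp
  have e2 : (z : ℝ) / (32 * (P : ℝ) ^ 2) = x / 32 := by rw [hx]; field_simp
  rw [e1] at hsR
  rw [e2] at hkR
  rw [e2]
  have h2s := P9_two_pow hsR
  have h2k := P9_two_pow hkR
  -- (a)
  have hna : (n : ℝ) ^ (m + 1) ≤ Real.exp (((m : ℝ) + 1) * e / (16 * P)) := by
    have h1 : (n : ℝ) ^ (m + 1) = Real.exp (((m + 1 : ℕ) : ℝ) * Real.log n) := by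
      rw [Real.exp_nat_mul, Real.exp_log (by linarith)]
    rw [h1]
    apply Real.exp_le_exp.2
    have h2 : Real.log n ≤ e / (16 * P) := by
      rw [le_div_iff₀ (by positivity)]
      linarith
    have h3 : (0 : ℝ) ≤ ((m + 1 : ℕ) : ℝ) := Nat.cast_nonneg _
    calc ((m + 1 : ℕ) : ℝ) * Real.log n ≤ ((m + 1 : ℕ) : ℝ) * (e / (16 * P)) :=
          mul_le_mul_of_nonneg_left h2 h3
      _ = ((m : ℝ) + 1) * e / (16 * P) := by push_cast; ring
  have ha : (2 : ℝ) ^ s * ((n : ℝ) ^ (m + 1) * Real.exp (-((((m + 1) * e : ℕ) : ℝ) / (8 * P)))) ≤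
      Real.exp (-(x / 32)) := by
    have h1 : (2 : ℝ) ^ s * ((n : ℝ) ^ (m + 1) * Real.exp (-((((m + 1) * e : ℕ) : ℝ) / (8 * P)))) ≤
        Real.exp (0.6932 * (x / 256)) * (Real.exp (((m : ℝ) + 1) * e / (16 * P)) *
          Real.exp (-((((m + 1) * e : ℕ) : ℝ) / (8 * P)))) := by
      gcongr
    refine h1.trans ?_
    rw [← Real.exp_add, ← Real.exp_add]
    apply Real.exp_le_exp.2
    push_cast
    have h2 : ((m : ℝ) + 1) * e / (16 * P) + -(((m : ℝ) + 1) * e / (8 * P)) =
        -(((m : ℝ) + 1) * e / (16 * P)) := by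
      field_simp
      ring
    rw [h2]
    have h3 : x / 8 ≤ ((m : ℝ) + 1) * e / (16 * P) := by
      rw [hx, div_div, div_le_div_iff₀ (by positivity) (by positivity)]
      have h4 : (z : ℝ) * (16 * P) ≤ 8 * e * (m + 1) * (16 * P) :=
        mul_le_mul_of_nonneg_right hmR (by positivity)
      have h5 : 8 * (e : ℝ) * (m + 1) * (16 * P) ≤ ((m : ℝ) + 1) * e * ((P : ℝ) ^ 2 * 8) := by
        have h6 : 0 ≤ (e : ℝ) * ((m : ℝ) + 1) * P := by positivity
        have h7 : 16 * ((e : ℝ) * ((m : ℝ) + 1) * P) ≤ P * ((e : ℝ) * ((m : ℝ) + 1) * P) :=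
          mul_le_mul_of_nonneg_right hPR h6
        nlinarith
      linarith
    linarith
  -- (b)
  have hb : (2 : ℝ) ^ s * (2 ^ k * (1 - 1 / (P : ℝ) ^ 2) ^ q) ≤ Real.exp (-(x / 32)) := by
    have hP2 : (1 : ℝ) ≤ (P : ℝ) ^ 2 := by nlinarith
    have h0 : (0 : ℝ) ≤ 1 - 1 / (P : ℝ) ^ 2 := by
      rw [sub_nonneg, div_le_one (by positivity)]
      exact hP2
    have h1 : 1 - 1 / (P : ℝ) ^ 2 ≤ Real.exp (-(1 / (P : ℝ) ^ 2)) := by
      have := Real.add_one_le_exp (-(1 / (P : ℝ) ^ 2))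
      linarith
    have h2 : (1 - 1 / (P : ℝ) ^ 2) ^ q ≤ Real.exp (-(x / 16)) := by
      calc (1 - 1 / (P : ℝ) ^ 2) ^ q ≤ (Real.exp (-(1 / (P : ℝ) ^ 2))) ^ q :=
            pow_le_pow_left₀ h0 h1 q
        _ = Real.exp (q * (-(1 / (P : ℝ) ^ 2))) := (Real.exp_nat_mul _ _).symm
        _ ≤ Real.exp (-(x / 16)) := by
            apply Real.exp_le_exp.2
            rw [hx, mul_neg, neg_le_neg_iff, mul_one_div, div_div,
              div_le_div_iff₀ (by positivity) (by positivity)]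
            have h3 : (z : ℝ) * (P : ℝ) ^ 2 ≤ 16 * q * (P : ℝ) ^ 2 :=
              mul_le_mul_of_nonneg_right hqR (by positivity)
            linarith
    have h3 : (2 : ℝ) ^ s * (2 ^ k * (1 - 1 / (P : ℝ) ^ 2) ^ q) ≤
        Real.exp (0.6932 * (x / 256)) * (Real.exp (0.6932 * (x / 32)) * Real.exp (-(x / 16))) := by
      gcongr
    refine h3.trans ?_
    rw [← Real.exp_add, ← Real.exp_add]
    apply Real.exp_le_exp.2
    linarith
  rw [mul_add]
  linarith

/-- P10: one class, one value of `z`. -/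
theorem cnt_one {K : Type} [Fintype K] [DecidableEq K] (lab : K → Option (Fin 4)) {w P : ℕ} (hw : 1 ≤ w)
    (hP : 16 ≤ P) (hl : ∀ j, (Finset.univ.filter (fun κ => lab κ = some j)).card = w)
    (hK : Fintype.card K = P * w) {H B : Finset V} {e k z z0 : ℕ} {Γ : Finset V → Finset V}
    (hh : Haven G H B e k Γ) (he : 2 * P ≤ e) (hn : 1 ≤ H.card) (hlog : 16 * P * Real.log (H.card : ℝ) ≤ e)
    (hz0 : 128 * P ^ 3 * H.card ≤ z0 * e) (h8 : 8 ≤ z) (hz : z0 ≤ z) (hzk : z ≤ k) :
    (((Finset.univ.filter (fun c : V → K => Uns G (cA lab H c) B z ((z - 1) / (256 * P ^ 2)))).card : ℕ) : ℝ) ≤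
      (Fintype.card K : ℝ) ^ (Fintype.card V) * (2 * Real.exp (-((z : ℝ) / (32 * P ^ 2)))) := by
  have he1 : 1 ≤ e := by omega
  have hP2 : 256 ≤ 256 * P ^ 2 := Nat.le_mul_of_pos_right _ (by positivity)
  obtain ⟨s, hs⟩ : ∃ s, s = (z - 1) / (256 * P ^ 2) := ⟨_, rfl⟩
  obtain ⟨m, hm⟩ : ∃ m, m = z / (8 * e) := ⟨_, rfl⟩
  obtain ⟨q, hq⟩ : ∃ q, q = z / 8 := ⟨_, rfl⟩
  obtain ⟨d0, hd0⟩ : ∃ d0, d0 = e / (2 * P) := ⟨_, rfl⟩
  have hnum := p_num hP he hn hlog hz0 h8 hz
  rw [← hs, ← hm, ← hq, ← hd0] at hnum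
  rw [← hs]
  have hs8 : 16 * s ≤ z := by
    have h1 : s * (256 * P ^ 2) ≤ z - 1 := by rw [hs]; exact Nat.div_mul_le_self _ _
    have h2 : s * 256 ≤ s * (256 * P ^ 2) := Nat.mul_le_mul_left s hP2
    omega
  have hme : 8 * (m * e) ≤ z := by
    have h1 : m * (8 * e) ≤ z := by rw [hm]; exact Nat.div_mul_le_self _ _
    have h2 : m * (8 * e) = 8 * (m * e) := by ring
    omega
  have hq8 : 8 * q ≤ z := by omega
  have hd01 : 1 ≤ d0 := by
    rw [hd0]
    exact (Nat.le_div_iff_mul_le (by omega)).2 (by omega)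
  have hdd : 2 * P * d0 ≤ e := by rw [hd0]; exact Nat.mul_div_le e (2 * P)
  have h1 := trick2 (G := G) lab hw hl (H := H) (B := B) (z := z) (z1 := z - s) (s := s) (by omega)
  have h2 := cnt_greedy lab hw (by omega) (hl 0) hK hh (m := m) (d0 := d0) (by omega) hdd
  have h3 := cnt_un lab hw (by omega) (hl 0) (hl 2) hK hh hd01 (m := m) (q := q) (z := z - s) (by omega) (by omega)
  have h4 : (((Finset.univ.filter (fun c : V → K => Un G (cl lab H 0 c ∪ cl lab H 2 c) B (z - s))).card : ℕ) : ℝ) ≤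
      (((Finset.univ.filter (fun c : V → K => ¬ Good G Γ H e m d0 (cl lab H 0 c))).card : ℕ) : ℝ) +
      (((Finset.univ.filter (fun c : V → K => Good G Γ H e m d0 (cl lab H 0 c) ∧
        Un G (cl lab H 0 c ∪ cl lab H 2 c) B (z - s))).card : ℕ) : ℝ) := by
    have h5 : (Finset.univ.filter (fun c : V → K => Un G (cl lab H 0 c ∪ cl lab H 2 c) B (z - s))) ⊆
        (Finset.univ.filter (fun c : V → K => ¬ Good G Γ H e m d0 (cl lab H 0 c))) ∪
        (Finset.univ.filter (fun c : V → K => Good G Γ H e m d0 (cl lab H 0 c) ∧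
        Un G (cl lab H 0 c ∪ cl lab H 2 c) B (z - s))) := by
      intro c hc
      have h6 := (Finset.mem_filter.1 hc).2
      by_cases hg : Good G Γ H e m d0 (cl lab H 0 c)
      · exact Finset.mem_union_right _ (Finset.mem_filter.2 ⟨Finset.mem_univ _, hg, h6⟩)
      · exact Finset.mem_union_left _ (Finset.mem_filter.2 ⟨Finset.mem_univ _, hg⟩)
    have h6 := (Finset.card_le_card h5).trans (Finset.card_union_le _ _)
    exact_mod_cast h6
  refine h1.trans ?_
  have hpow : (0 : ℝ) ≤ 2 ^ s := by positivity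
  calc (2 : ℝ) ^ s * (((Finset.univ.filter (fun c : V → K =>
          Un G (cl lab H 0 c ∪ cl lab H 2 c) B (z - s))).card : ℕ) : ℝ)
      ≤ 2 ^ s * ((Fintype.card K : ℝ) ^ (Fintype.card V) * ((H.card : ℝ) ^ (m + 1) *
          Real.exp (-((((m + 1) * e : ℕ) : ℝ) / (8 * P)))) +
        (Fintype.card K : ℝ) ^ (Fintype.card V) * (2 ^ (H.card / d0) * (1 - 1 / (P : ℝ) ^ 2) ^ q)) :=
        mul_le_mul_of_nonneg_left (h4.trans (add_le_add h2 h3)) hpow
    _ = (Fintype.card K : ℝ) ^ (Fintype.card V) * (2 ^ s * ((H.card : ℝ) ^ (m + 1) *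
          Real.exp (-((((m + 1) * e : ℕ) : ℝ) / (8 * P))) +
          2 ^ (H.card / d0) * (1 - 1 / (P : ℝ) ^ 2) ^ q)) := by ring
    _ ≤ _ := mul_le_mul_of_nonneg_left hnum (by positivity)

/-! Row P11 -/
/-- the colours -/
abbrev P11_K (R : ℕ) : Type := Fin 2 × Fin 2 × Fin 4 × Fin R

/-- the labels: `none` for the class `F`, `some κ` for the commodity `κ` -/
def P11_lab {R : ℕ} (l : Fin 2 × Option (Fin R)) (x : P11_K R) : Option (Fin 4) :=
  match l.2 with
  | none => if x.1 = l.1 ∧ x.2.1 = 0 then some x.2.2.1 else none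
  | some κ => if x.1 = l.1 ∧ x.2.1 = 1 ∧ x.2.2.2 = κ then some x.2.2.1 else none

/-- the parameter `P` -/
def P11_P {R : ℕ} (l : Fin 2 × Option (Fin R)) : ℕ :=
  match l.2 with
  | none => 16
  | some _ => 16 * R

/-- the parameter `w` -/
def P11_w {R : ℕ} (l : Fin 2 × Option (Fin R)) : ℕ :=
  match l.2 with
  | none => R
  | some _ => 1

theorem P11_card {R : ℕ} (l : Fin 2 × Option (Fin R)) (j : Fin 4) :
    (Finset.univ.filter (fun x : P11_K R => P11_lab l x = some j)).card = P11_w l := by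
  obtain ⟨h, o⟩ := l
  cases o with
  | none =>
    have h1 : (Finset.univ.filter (fun x : P11_K R => P11_lab (h, none) x = some j)) =
        Finset.univ.image (fun r : Fin R => ((h, 0, j, r) : P11_K R)) := by
      ext ⟨a, b, c, r⟩
      rw [Finset.mem_filter, Finset.mem_image]
      simp only [Finset.mem_univ, true_and]
      change (if a = h ∧ b = 0 then some c else none) = some j ↔ _
      constructor
      · intro h2
        by_cases h3 : a = h ∧ b = 0
        · rw [if_pos h3] at h2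
          obtain ⟨rfl, rfl⟩ := h3
          exact ⟨r, by rw [Option.some.inj h2]⟩
        · rw [if_neg h3] at h2
          exact absurd h2 (by simp)
      · rintro ⟨r', h2⟩
        simp only [Prod.mk.injEq] at h2
        obtain ⟨rfl, rfl, rfl, rfl⟩ := h2
        simp
    rw [h1, Finset.card_image_of_injective]
    · simp [P11_w]
    · intro r r' h2
      simp only [Prod.mk.injEq, true_and] at h2
      exact h2
  | some κ =>
    have h1 : (Finset.univ.filter (fun x : P11_K R => P11_lab (h, some κ) x = some j)) =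
        {((h, 1, j, κ) : P11_K R)} := by
      ext ⟨a, b, c, r⟩
      rw [Finset.mem_filter, Finset.mem_singleton]
      simp only [Finset.mem_univ, true_and]
      change (if a = h ∧ b = 1 ∧ r = κ then some c else none) = some j ↔ _
      constructor
      · intro h2
        by_cases h3 : a = h ∧ b = 1 ∧ r = κ
        · rw [if_pos h3] at h2
          obtain ⟨rfl, rfl, rfl⟩ := h3
          rw [Option.some.inj h2]
        · rw [if_neg h3] at h2
          exact absurd h2 (by simp)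
      · intro h2
        simp only [Prod.mk.injEq] at h2
        obtain ⟨rfl, rfl, rfl, rfl⟩ := h2
        simp
    rw [h1, Finset.card_singleton]
    rfl

theorem P11_lk {A B H : Finset V} {z0 k q : ℕ} (hq : 0 < q) (hB : B ⊆ H)
    (h : ∀ z ∈ Finset.Icc z0 H.card, z ≤ k → ¬ Uns G A B z ((z - 1) / q)) : Lk G A B z0 k q := by
  intro z hz0 hzk Z1 hZ1 Z2 hZ2 hc1 hc2 S hS
  by_contra hcon
  push Not at hcon
  have hzH : z ≤ H.card := hc1.trans ((Finset.card_le_card hZ1).trans (Finset.card_le_card hB))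
  refine h z (Finset.mem_Icc.2 ⟨hz0, hzH⟩) hzk ⟨S, ?_, Z1, hZ1, Z2, hZ2, hc1, hc2, hcon⟩
  rw [Nat.le_div_iff_mul_le hq]
  rw [mul_comm] at hS
  omega

/-- P11: sampling in a haven. -/
theorem sample {H B : Finset V} {e k z0 R : ℕ} {Γ : Finset V → Finset V} (hh : Haven G H B e k Γ) (hR : 1 ≤ R)
    (he : 2 * (16 * R) ≤ e) (hn : 1 ≤ H.card) (hlog : 16 * ((16 * R : ℕ) : ℝ) * Real.log (H.card : ℝ) ≤ e)
    (hz0 : 128 * (16 * R) ^ 3 * H.card ≤ z0 * e) (h8 : 8 ≤ z0)
    (hex : 8 * (R : ℝ) * H.card < Real.exp ((z0 : ℝ) / (32 * ((16 * R : ℕ) : ℝ) ^ 2))) :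
    ∃ (A A3 : Fin 2 → Finset V) (T : Fin 2 → Fin R → Finset V), A 0 ∪ A 1 = H ∧ Disjoint (A 0) (A 1) ∧
      ∀ h, A3 h ⊆ A h ∧ Lk G (A3 h) B z0 k (2 ^ 16) ∧ ∀ κ, T h κ ⊆ A h ∧ Disjoint (A3 h) (T h κ) ∧
        Lk G (T h κ) B z0 k (2 ^ 16 * R ^ 2) ∧ ∀ κ', κ ≠ κ' → Disjoint (T h κ) (T h κ') := by
  have hRR : (1 : ℝ) ≤ R := by exact_mod_cast hR
  have hnR : (1 : ℝ) ≤ (H.card : ℝ) := by exact_mod_cast hn
  have hlog0 : 0 ≤ Real.log (H.card : ℝ) := Real.log_nonneg hnR
  have hcK : Fintype.card (P11_K R) = 16 * R := by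
    simp only [P11_K, Fintype.card_prod, Fintype.card_fin]
    ring
  -- the parameters
  have hPw : ∀ l : Fin 2 × Option (Fin R), 16 ≤ P11_P l ∧ P11_P l ≤ 16 * R ∧ 1 ≤ P11_w l ∧
      Fintype.card (P11_K R) = P11_P l * P11_w l := by
    rintro ⟨h, o⟩
    cases o with
    | none =>
      refine ⟨le_rfl, ?_, hR, hcK⟩
      show 16 ≤ 16 * R
      omega
    | some κ =>
      refine ⟨?_, le_rfl, le_rfl, ?_⟩
      · show 16 ≤ 16 * R
        omega
      · show _ = 16 * R * 1
        rw [hcK, mul_one]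
  obtain ⟨D, hD⟩ : ∃ D : ℝ, D = (z0 : ℝ) / (32 * ((16 * R : ℕ) : ℝ) ^ 2) := ⟨_, rfl⟩
  rw [← hD] at hex
  obtain ⟨C, hC⟩ : ∃ C : ℝ, C = (Fintype.card (P11_K R) : ℝ) ^ (Fintype.card V) := ⟨_, rfl⟩
  have hCpos : 0 < C := by
    rw [hC, hcK]
    positivity
  -- one bad event
  have hone : ∀ (l : Fin 2 × Option (Fin R)) (z : ℕ), z0 ≤ z → z ≤ k →
      (((Finset.univ.filter (fun c : V → P11_K R =>
        Uns G (cA (P11_lab l) H c) B z ((z - 1) / (256 * P11_P l ^ 2)))).card : ℕ) : ℝ) ≤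
        C * (2 * Real.exp (-D)) := by
    intro l z hz hzk
    obtain ⟨hP16, hPR, hw, hKw⟩ := hPw l
    have h1 : 2 * P11_P l ≤ e := by omega
    have hPRR : (P11_P l : ℝ) ≤ ((16 * R : ℕ) : ℝ) := by exact_mod_cast hPR
    have h2 : 16 * (P11_P l : ℝ) * Real.log (H.card : ℝ) ≤ e := by
      refine le_trans ?_ hlog
      gcongr
    have h3 : 128 * P11_P l ^ 3 * H.card ≤ z0 * e := by
      refine le_trans ?_ hz0
      gcongr
    have h4 := cnt_one (P11_lab l) hw hP16 (P11_card l) hKw hh h1 hn h2 h3 (h8.trans hz) hz hzk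
    rw [← hC] at h4
    refine h4.trans ?_
    have hP0 : (0 : ℝ) < P11_P l := by
      have : 0 < P11_P l := by omega
      exact_mod_cast this
    have h5 : D ≤ (z : ℝ) / (32 * (P11_P l : ℝ) ^ 2) := by
      rw [hD]
      gcongr
    gcongr
  -- the union bound
  set Idx := ((Finset.univ : Finset (Fin 2 × Option (Fin R))) ×ˢ
    ((Finset.Icc z0 H.card).filter (fun z => z ≤ k))) with hIdx
  set Bad : (Fin 2 × Option (Fin R)) × ℕ → Finset (V → P11_K R) := fun p =>
    Finset.univ.filter (fun c : V → P11_K R =>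
      Uns G (cA (P11_lab p.1) H c) B p.2 ((p.2 - 1) / (256 * P11_P p.1 ^ 2))) with hBad
  have hIdxc : (Idx.card : ℝ) ≤ 4 * R * H.card := by
    have h1 : Idx.card ≤ (4 * R) * H.card := by
      rw [hIdx, Finset.card_product]
      apply Nat.mul_le_mul
      · rw [Finset.card_univ, Fintype.card_prod, Fintype.card_option, Fintype.card_fin,
          Fintype.card_fin]
        omega
      · refine (Finset.card_filter_le _ _).trans ?_
        rw [Nat.card_Icc]
        omega
    exact_mod_cast h1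
  have hsum : ((Idx.biUnion Bad).card : ℝ) < C := by
    calc ((Idx.biUnion Bad).card : ℝ) ≤ ((∑ p ∈ Idx, (Bad p).card : ℕ) : ℝ) := by
          exact_mod_cast Finset.card_biUnion_le
      _ = ∑ p ∈ Idx, ((Bad p).card : ℝ) := by push_cast; rfl
      _ ≤ ∑ p ∈ Idx, C * (2 * Real.exp (-D)) := by
          apply Finset.sum_le_sum
          intro p hp
          rw [hIdx, Finset.mem_product, Finset.mem_filter, Finset.mem_Icc] at hp
          exact hone p.1 p.2 hp.2.1.1 hp.2.2
      _ = Idx.card * (C * (2 * Real.exp (-D))) := by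
          rw [Finset.sum_const, nsmul_eq_mul]
      _ ≤ (4 * R * H.card) * (C * (2 * Real.exp (-D))) := by
          gcongr
      _ = C * (8 * (R : ℝ) * H.card * Real.exp (-D)) := by ring
      _ < C * (Real.exp D * Real.exp (-D)) := by
          gcongr
      _ = C := by
          rw [← Real.exp_add, add_neg_cancel, Real.exp_zero, mul_one]
  have hex2 : ∃ c : V → P11_K R, c ∉ Idx.biUnion Bad := by
    by_contra hcon
    push Not at hcon
    have h1 : Idx.biUnion Bad = Finset.univ := Finset.eq_univ_iff_forall.2 hcon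
    rw [h1, Finset.card_univ, Fintype.card_fun] at hsum
    rw [hC] at hsum
    push_cast at hsum
    exact lt_irrefl _ hsum
  obtain ⟨c, hc⟩ := hex2
  have hnot : ∀ (l : Fin 2 × Option (Fin R)), ∀ z ∈ Finset.Icc z0 H.card, z ≤ k →
      ¬ Uns G (cA (P11_lab l) H c) B z ((z - 1) / (256 * P11_P l ^ 2)) := by
    intro l z hz hzk hU
    apply hc
    rw [Finset.mem_biUnion]
    refine ⟨(l, z), ?_, ?_⟩
    · rw [hIdx, Finset.mem_product, Finset.mem_filter]
      exact ⟨Finset.mem_univ _, hz, hzk⟩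
    · rw [hBad]
      exact Finset.mem_filter.2 ⟨Finset.mem_univ _, hU⟩
  have hF : ∀ (h : Fin 2) (v : V), v ∈ cA (P11_lab (R := R) (h, none)) H c ↔
      v ∈ H ∧ (c v).1 = h ∧ (c v).2.1 = 0 := by
    intro h v
    unfold cA
    rw [Finset.mem_filter]
    simp only [P11_lab]
    by_cases h1 : (c v).1 = h ∧ (c v).2.1 = 0
    · rw [if_pos h1]
      simp [h1]
    · rw [if_neg h1]
      simp [h1]
  have hT : ∀ (h : Fin 2) (κ : Fin R) (v : V), v ∈ cA (P11_lab (h, some κ)) H c ↔
      v ∈ H ∧ (c v).1 = h ∧ (c v).2.1 = 1 ∧ (c v).2.2.2 = κ := by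
    intro h κ v
    unfold cA
    rw [Finset.mem_filter]
    simp only [P11_lab]
    by_cases h1 : (c v).1 = h ∧ (c v).2.1 = 1 ∧ (c v).2.2.2 = κ
    · rw [if_pos h1]
      simp [h1]
    · rw [if_neg h1]
      simp [h1]
  refine ⟨fun h => H.filter (fun v => (c v).1 = h), fun h => cA (P11_lab (R := R) (h, none)) H c,
    fun h κ => cA (P11_lab (h, some κ)) H c, ?_, ?_, ?_⟩
  · ext v
    simp only [Finset.mem_union, Finset.mem_filter]
    constructor
    · rintro (h1 | h1)
      · exact h1.1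
      · exact h1.1
    · intro h1
      have h2 : (c v).1 = 0 ∨ (c v).1 = 1 := by
        generalize (c v).1 = t
        fin_cases t
        · left; rfl
        · right; rfl
      rcases h2 with h2 | h2
      · exact Or.inl ⟨h1, h2⟩
      · exact Or.inr ⟨h1, h2⟩
  · rw [Finset.disjoint_left]
    intro v hv hv'
    rw [Finset.mem_filter] at hv hv'
    have h1 := hv.2.symm.trans hv'.2
    exact absurd h1 (by decide)
  · intro h
    refine ⟨?_, ?_, ?_⟩
    · intro v hv
      rw [hF] at hv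
      exact Finset.mem_filter.2 ⟨hv.1, hv.2.1⟩
    · have h1 := P11_lk (G := G) (q := 256 * 16 ^ 2) (by norm_num) hh.bsub
        (hnot (h, none))
      norm_num at h1 ⊢
      exact h1
    · intro κ
      refine ⟨?_, ?_, ?_, ?_⟩
      · intro v hv
        rw [hT] at hv
        exact Finset.mem_filter.2 ⟨hv.1, hv.2.1⟩
      · rw [Finset.disjoint_left]
        intro v hv hv'
        rw [hF] at hv
        rw [hT] at hv'
        have h1 := hv.2.2.symm.trans hv'.2.2.1
        exact absurd h1 (by decide)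
      · have h1 := P11_lk (G := G) (q := 256 * (16 * R) ^ 2) (by positivity) hh.bsub
          (hnot (h, some κ))
        have h2 : 256 * (16 * R) ^ 2 = 2 ^ 16 * R ^ 2 := by ring
        rw [h2] at h1
        exact h1
      · intro κ' hκ
        rw [Finset.disjoint_left]
        intro v hv hv'
        rw [hT] at hv hv'
        exact hκ (hv.2.2.2.symm.trans hv'.2.2.2)

end HD
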