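import Pool.Agent.LibHJ.Defs

/-!
# LibHJ : block P, definitions
-/

set_option autoImplicit false
set_option linter.unusedSectionVars false

open scoped Classical

noncomputable section

namespace HD

variable {V : Type*} [Fintype V] [DecidableEq V]

/-- the vertices of `H` whose colour has the label `j` -/
def cl {K : Type} (lab : K → Option (Fin 4)) (H : Finset V) (j : Fin 4) (c : V → K) : Finset V :=
  H.filter (fun v => lab (c v) = some j)

/-- the vertices of `H` whose colour has a label -/
def cA {K : Type} (lab : K → Option (Fin 4)) (H : Finset V) (c : V → K) : Finset V :=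
  H.filter (fun v => lab (c v) ≠ none)

/-- `A` fails to join two subsets of `B` with at least `z` vertices -/
def Un (G : SimpleGraph V) (A B : Finset V) (z : ℕ) : Prop :=
  ∃ Z1 ⊆ B, ∃ Z2 ⊆ B, z ≤ Z1.card ∧ z ≤ Z2.card ∧ ∀ x ∈ Z1, ∀ y ∈ Z2, ¬ Joined G (insert x (insert y A)) x y

/-- `A` fails to join two subsets of `B` with at least `z` vertices after the removal of at most `s` vertices -/
def Uns (G : SimpleGraph V) (A B : Finset V) (z s : ℕ) : Prop :=
  ∃ S : Finset V, S.card ≤ s ∧ ∃ Z1 ⊆ B, ∃ Z2 ⊆ B, z ≤ Z1.card ∧ z ≤ Z2.card ∧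
    ∀ x ∈ Z1 \ S, ∀ y ∈ Z2 \ S, ¬ Joined G (insert x (insert y (A \ S))) x y

/-- a fixed set of `e` neighbours of `v` in `X` -/
def nsub (G : SimpleGraph V) (e : ℕ) (X : Finset V) (v : V) : Finset V :=
  if h : e ≤ (nbIn G X v).card then (Finset.exists_subset_card_eq h).choose else ∅

/-- the sets produced by `m` greedy steps -/
def NN (G : SimpleGraph V) (e : ℕ) (Γ : Finset V → Finset V) (H : Finset V) : ℕ → Finset (Finset V)
  | 0 => {∅}
  | m + 1 => (NN G e Γ H m).biUnion (fun N => H.image (fun v => N ∪ nsub G e (Γ N) v))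

/-- after the removal of at most `m * e` vertices every vertex of the haven has `d0` neighbours in `F` -/
def Good (G : SimpleGraph V) (Γ : Finset V → Finset V) (H : Finset V) (e m d0 : ℕ) (F : Finset V) : Prop :=
  ∃ S ⊆ H, S.card ≤ m * e ∧ ∀ v ∈ Γ S, d0 ≤ (nbIn G (F ∩ Γ S) v).card

end HD
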