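import Pool.Agent.LibHJ.P
import Pool.Agent.LibHJ57.Q2

/-!
# LibHJ : block Q, few disjoint bad sets in a well linked set
-/

set_option autoImplicit false
set_option linter.unusedSectionVars false

open scoped Classical

noncomputable section

namespace HD

variable {V : Type*} [Fintype V] [DecidableEq V] {G : SimpleGraph V}

/-- Q3: a well linked set has few disjoint subsets of large chromatic number. -/
theorem bad_bound {U H B : Finset V} {e t r τ ℓ c0 : ℕ} {Γ : Finset V → Finset V}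
    (hh : Haven G H B e (2 ^ 37 * r ^ 8 * τ) Γ) (hHU : H ⊆ U) (hr : 2 ≤ r) (htr : t ≤ r * τ)
    (hτ : r ^ 6 ≤ τ) (hℓ : ℓ = τ / r ^ 6) (h1 : 32 * r ^ 2 ≤ e)
    (h2 : 256 * (r : ℝ) ^ 2 * Real.log (U.card : ℝ) ≤ e) (h3 : 8 * r ^ 2 * U.card ≤ ℓ * e)
    (h4 : 8 * (r : ℝ) ^ 2 * U.card < Real.exp (8 * (ℓ : ℝ)))
    (hc : ∀ A ⊆ U, ¬ Model G A (2 ^ 18 * τ) → Col G A c0) (hmod : ¬ Model G U t) :
    ND G B (2 ^ 20 * r ^ 8) (2 * c0) := by
  have hℓ1 : 1 ≤ ℓ := by
    rw [hℓ]
    exact (Nat.le_div_iff_mul_le (by positivity)).2 (by omega)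
  have hHU' : (H.card : ℝ) ≤ U.card := by exact_mod_cast Finset.card_le_card hHU
  have hH1 : 1 ≤ H.card := by
    obtain ⟨v, hv⟩ := (hh.conn ∅ (by simp)).nonempty
    have h6 := hh.sub ∅ (by simp) hv
    exact Finset.card_pos.2 ⟨v, (Finset.mem_sdiff.1 h6).1⟩
  have hH1' : (1 : ℝ) ≤ H.card := by exact_mod_cast hH1
  have hlogH : Real.log (H.card : ℝ) ≤ Real.log (U.card : ℝ) := Real.log_le_log (by linarith) hHU'
  have hr0 : (0 : ℝ) < r := by exact_mod_cast (by omega : 0 < r)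
  obtain ⟨A, A3, T, hA, hAd, hs⟩ := sample (z0 := 2 ^ 16 * r ^ 4 * ℓ) (R := r ^ 2) hh (Nat.one_le_pow _ _ (by omega))
    (by omega) hH1 (by
      push_cast
      have h7 : 256 * (r : ℝ) ^ 2 * Real.log (H.card : ℝ) ≤ 256 * (r : ℝ) ^ 2 * Real.log (U.card : ℝ) := by
        gcongr
      linarith) (by
      have h7 : H.card ≤ U.card := Finset.card_le_card hHU
      calc 128 * (16 * r ^ 2) ^ 3 * H.card ≤ 128 * (16 * r ^ 2) ^ 3 * U.card := Nat.mul_le_mul_left _ h7
        _ = 2 ^ 16 * r ^ 4 * (8 * r ^ 2 * U.card) := by ring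
        _ ≤ 2 ^ 16 * r ^ 4 * (ℓ * e) := Nat.mul_le_mul_left _ h3
        _ = 2 ^ 16 * r ^ 4 * ℓ * e := by ring) (by
      have h7 : 1 ≤ r ^ 4 * ℓ := Nat.mul_pos (by positivity) hℓ1
      have h8 : 2 ^ 16 * r ^ 4 * ℓ = 2 ^ 16 * (r ^ 4 * ℓ) := by ring
      rw [h8]
      omega) (by
      have h7 : (((2 ^ 16 * r ^ 4 * ℓ : ℕ)) : ℝ) / (32 * ((16 * r ^ 2 : ℕ) : ℝ) ^ 2) = 8 * (ℓ : ℝ) := by
        push_cast
        field_simp
        ring
      rw [h7]
      refine lt_of_le_of_lt ?_ h4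
      push_cast
      gcongr)
  rintro ⟨W, hW, hWd⟩
  -- one half contains many bad sets
  have hWA : ∀ i, ∃ h : Fin 2, ¬ Col G (W i ∩ A h) c0 := by
    intro i
    by_contra hcon
    push Not at hcon
    apply (hW i).2
    have h7 := (hcon 0).union (hcon 1)
    refine h7.mono ?_ (by omega)
    intro v hv
    have h8 := hh.bsub ((hW i).1 hv)
    rw [← hA] at h8
    rcases Finset.mem_union.1 h8 with h9 | h9
    · exact Finset.mem_union_left _ (Finset.mem_inter.2 ⟨hv, h9⟩)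
    · exact Finset.mem_union_right _ (Finset.mem_inter.2 ⟨hv, h9⟩)
  choose hf hhf using hWA
  obtain ⟨h, hcount⟩ : ∃ h : Fin 2, 2 ^ 19 * r ^ 8 ≤ (Finset.univ.filter (fun i => hf i = h)).card := by
    by_contra hcon
    push Not at hcon
    have h7 : (Finset.univ : Finset (Fin (2 ^ 20 * r ^ 8 + 1))).card =
        (Finset.univ.filter (fun i => hf i = 0)).card + (Finset.univ.filter (fun i => hf i = 1)).card := by
      rw [← Finset.card_union_of_disjoint]
      · congr 1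
        ext i
        simp only [Finset.mem_univ, Finset.mem_union, Finset.mem_filter, true_and, true_iff]
        have : ∀ j : Fin 2, j = 0 ∨ j = 1 := by decide
        exact this (hf i)
      · rw [Finset.disjoint_left]
        intro i h8 h9
        have h10 := (Finset.mem_filter.1 h8).2
        have h11 := (Finset.mem_filter.1 h9).2
        rw [h10] at h11
        exact absurd h11 (by decide)
    rw [Finset.card_univ, Fintype.card_fin] at h7
    have h8 := hcon 0
    have h9 := hcon 1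
    omega
  obtain ⟨s, hs1, hs2⟩ := Finset.exists_subset_card_eq hcount
  obtain ⟨h', hh'⟩ : ∃ h' : Fin 2, h' ≠ h ∧ ∀ v ∈ H, v ∉ A h → v ∈ A h' := by
    have : ∀ j : Fin 2, ∃ j', j' ≠ j := by decide
    obtain ⟨h', h7⟩ := this h
    refine ⟨h', h7, ?_⟩
    intro v hv hvA
    rw [← hA] at hv
    have key : ∀ a b : Fin 2, b ≠ a → (a = 0 ∧ b = 1) ∨ (a = 1 ∧ b = 0) := by decide
    rcases key h h' h7 with ⟨h8, h9⟩ | ⟨h8, h9⟩
    · rw [h8] at hvA
      rw [h9]
      exact (Finset.mem_union.1 hv).resolve_left hvA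
    · rw [h8] at hvA
      rw [h9]
      exact (Finset.mem_union.1 hv).resolve_right hvA
  have hAA : Disjoint (A h) (A h') := by
    have key : ∀ a b : Fin 2, b ≠ a → (a = 0 ∧ b = 1) ∨ (a = 1 ∧ b = 0) := by decide
    rcases key h h' hh'.1 with ⟨h8, h9⟩ | ⟨h8, h9⟩
    · rw [h8, h9]; exact hAd
    · rw [h8, h9]; exact hAd.symm
  have hAH : ∀ j : Fin 2, A j ⊆ H := by
    intro j
    have : ∀ j : Fin 2, j = 0 ∨ j = 1 := by decide
    rcases this j with rfl | rfl
    · rw [← hA]; exact Finset.subset_union_left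
    · rw [← hA]; exact Finset.subset_union_right
  have hsub : A h' ⊆ H \ A h := by
    intro v hv
    exact Finset.mem_sdiff.2 ⟨hAH h' hv, fun h7 => Finset.disjoint_left.1 hAA h7 hv⟩
  obtain ⟨q1, q2, q3⟩ := hs h'
  refine bad_half (U := U) (H := H) (B := B) (A := A h) (A3 := A3 h') (t := t) (r := r) (τ := τ) (ℓ := ℓ)
    (c0 := c0) (T h') hr htr hτ hℓ le_rfl hHU hh.bsub (hAH h) (q1.trans hsub)
    (fun κ => (q3 κ).1.trans hsub) (fun κ => (q3 κ).2.1) (fun κ κ' hκ => (q3 κ).2.2.2 κ' hκ) q2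
    (fun κ => (q3 κ).2.2.1) hc hmod (fun i => W (s.orderEmbOfFin hs2 i) ∩ A h) ?_ ?_
  · intro i
    have h7 := hs1 (Finset.orderEmbOfFin_mem s hs2 i)
    have h8 := (Finset.mem_filter.1 h7).2
    refine ⟨Finset.subset_inter Finset.inter_subset_right (Finset.inter_subset_left.trans (hW _).1), ?_⟩
    rw [← h8]
    exact hhf _
  · intro i j hij
    refine (hWd _ _ ?_).mono Finset.inter_subset_left Finset.inter_subset_left
    intro h7
    exact hij ((s.orderEmbOfFin hs2).injective h7)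

end HD
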