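import Pool.Agent.LibHJ.Defs

/-!
# LibHJ : block S, structure
-/

set_option autoImplicit false
set_option linter.unusedSectionVars false

open scoped Classical

noncomputable section

namespace HD

variable {V : Type*} [Fintype V] [DecidableEq V] {G : SimpleGraph V}

/-! Row S1 -/
/-- S1: a critical subset: connected, of large minimum degree. -/
theorem crit {U : Finset V} {c : ℕ} (h : ¬ Col G U c) :
    ∃ K ⊆ U, Conn G K ∧ (∀ v ∈ K, c ≤ (nbIn G K v).card) ∧ ¬ Col G K c := by
  obtain ⟨K, hKU, hKmin⟩ :=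
    exists_minimal_le_of_wellFoundedLT (fun W : Finset V => ¬ Col G W c) U h
  have hK : ¬ Col G K c := hKmin.prop
  have hmin : ∀ W, W ⊆ K → W ≠ K → Col G W c := by
    intro W hW hne
    by_contra hcon
    exact hne (Finset.Subset.antisymm hW (hKmin.le_of_le hcon hW))
  have hne : K.Nonempty := by
    rw [Finset.nonempty_iff_ne_empty]
    intro h0
    apply hK
    rw [h0]
    exact col_empty c
  refine ⟨K, hKU, ?_, fun v hv => C2_deg hK hmin hv, hK⟩
  refine PC.conn ?_ hne
  intro P hP hPne hQne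
  by_contra hT
  have hP1 : P ≠ K := by
    intro h1
    rw [h1, Finset.sdiff_self] at hQne
    exact Finset.not_nonempty_empty hQne
  have hQ1 : K \ P ≠ K := by
    intro h1
    obtain ⟨x, hx⟩ := hPne
    have h2 : x ∈ K \ P := by
      rw [h1]
      exact hP hx
    exact (Finset.mem_sdiff.1 h2).2 hx
  obtain ⟨φ, f1, f2⟩ := hmin P hP hP1
  obtain ⟨ψ, g1, g2⟩ := hmin (K \ P) Finset.sdiff_subset hQ1
  apply hK
  refine ⟨fun v => if v ∈ P then φ v else ψ v, ?_, ?_⟩
  · intro u hu
    by_cases hP' : u ∈ P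
    · simp only [hP', if_true]
      exact f1 u hP'
    · simp only [hP', if_false]
      exact g1 u (Finset.mem_sdiff.2 ⟨hu, hP'⟩)
  · intro u hu v hv huv
    by_cases hu' : u ∈ P <;> by_cases hv' : v ∈ P
    · simp only [hu', hv', if_true]
      exact f2 u hu' v hv' huv
    · exact absurd ⟨u, hu', v, Finset.mem_sdiff.2 ⟨hv, hv'⟩, huv⟩ hT
    · exact absurd ⟨v, hv', u, Finset.mem_sdiff.2 ⟨hu, hu'⟩, huv.symm⟩ hT
    · simp only [hu', hv', if_false]
      exact g2 u (Finset.mem_sdiff.2 ⟨hu, hu'⟩) v (Finset.mem_sdiff.2 ⟨hv, hv'⟩) huv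

theorem noblob_col {X : Finset V} {e l c : ℕ} (h : ∀ K ⊆ X, ¬ Blob G e l K) (he : e ≤ c) (hl : l ≤ c) :
    Col G X c := by
  by_contra hc
  obtain ⟨K, h1, h2, h3, h4⟩ := crit hc
  exact h K h1 ⟨h2, fun v hv => he.trans (h3 v hv), fun h5 => h4 (h5.mono (Finset.Subset.refl _) hl)⟩

/-! Row S2 -/
theorem S2_mem {e l : ℕ} {X : Finset V} {v : V} : v ∈ bu G e l X ↔ ∃ K ⊆ X, Blob G e l K ∧ v ∈ K := by
  unfold bu
  rw [Finset.mem_biUnion]
  constructor
  · rintro ⟨K, hK, hv⟩
    rw [Finset.mem_filter, Finset.mem_powerset] at hK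
    exact ⟨K, hK.1, hK.2, hv⟩
  · rintro ⟨K, hK1, hK2, hv⟩
    exact ⟨K, Finset.mem_filter.2 ⟨Finset.mem_powerset.2 hK1, hK2⟩, hv⟩

theorem bu_sub (e l : ℕ) (X : Finset V) : bu G e l X ⊆ X := by
  intro v hv
  obtain ⟨K, h1, _, h3⟩ := S2_mem.1 hv
  exact h1 h3

theorem bu_mono (e l : ℕ) {X Y : Finset V} (h : X ⊆ Y) : bu G e l X ⊆ bu G e l Y := by
  intro v hv
  obtain ⟨K, h1, h2, h3⟩ := S2_mem.1 hv
  exact S2_mem.2 ⟨K, h1.trans h, h2, h3⟩

theorem blob_sub_bu {e l : ℕ} {K X : Finset V} (hK : Blob G e l K) (h : K ⊆ X) : K ⊆ bu G e l X := by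
  intro v hv
  exact S2_mem.2 ⟨K, h, hK, hv⟩

theorem mem_bu {e l : ℕ} {X : Finset V} {v : V} : v ∈ bu G e l X ↔ ∃ K ⊆ X, Blob G e l K ∧ v ∈ K := S2_mem

theorem bu_deg (e l : ℕ) (X : Finset V) : ∀ v ∈ bu G e l X, e ≤ (nbIn G (bu G e l X) v).card := by
  intro v hv
  obtain ⟨K, h1, h2, h3⟩ := S2_mem.1 hv
  refine (h2.2.1 v h3).trans (Finset.card_le_card ?_)
  intro u hu
  rw [mem_nbIn] at hu ⊢
  exact ⟨blob_sub_bu h2 h1 hu.1, hu.2⟩





/-! Row S3 -/
/-- S3: the haven lemma. -/
theorem haven_exists {H : Finset V} {e l k : ℕ}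
    (h : ∀ Z : Finset V, Z.card ≤ k → Conn G (bu G e l (H \ Z))) :
    ∃ B, Haven G H B e k (fun Z => bu G e l (H \ Z)) ∧ ∀ K ⊆ H \ B, ¬ Blob G e l K := by
  have hne : (H.powerset.filter (fun B => ∀ K ⊆ H \ B, ¬ Blob G e l K)).Nonempty := by
    refine ⟨H, Finset.mem_filter.2 ⟨Finset.mem_powerset_self H, ?_⟩⟩
    intro K hK hb
    obtain ⟨x, hx⟩ := Conn.nonempty hb.1
    have hx' := Finset.mem_sdiff.1 (hK hx)
    exact hx'.2 hx'.1
  obtain ⟨B, hB, hmin⟩ := Finset.exists_min_image _ Finset.card hne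
  rw [Finset.mem_filter, Finset.mem_powerset] at hB
  obtain ⟨hBH, hBK⟩ := hB
  refine ⟨B, ⟨hBH, fun Z _ => bu_sub e l _, h, fun Z _ => bu_deg e l _, ?_, ?_⟩, hBK⟩
  · intro Z Z' hZ _
    exact bu_mono e l (Finset.sdiff_subset_sdiff (Finset.Subset.refl H) hZ)
  · intro Z _
    have hG : bu G e l (H \ Z) ⊆ H := (bu_sub e l _).trans Finset.sdiff_subset
    have hmem : (B ∩ bu G e l (H \ Z)) ∪ (Z ∩ H) ∈ H.powerset.filter (fun B => ∀ K ⊆ H \ B, ¬ Blob G e l K) := by
      rw [Finset.mem_filter, Finset.mem_powerset]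
      refine ⟨Finset.union_subset (Finset.inter_subset_left.trans hBH) Finset.inter_subset_right, ?_⟩
      intro K hK hb
      have hKH : K ⊆ H := hK.trans Finset.sdiff_subset
      have hKZ : K ⊆ H \ Z := by
        intro x hx
        refine Finset.mem_sdiff.2 ⟨hKH hx, fun hxZ => ?_⟩
        exact (Finset.mem_sdiff.1 (hK hx)).2
          (Finset.mem_union_right _ (Finset.mem_inter.2 ⟨hxZ, hKH hx⟩))
      have hKG : K ⊆ bu G e l (H \ Z) := blob_sub_bu hb hKZ
      refine hBK K ?_ hb
      intro x hx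
      refine Finset.mem_sdiff.2 ⟨hKH hx, fun hxB => ?_⟩
      exact (Finset.mem_sdiff.1 (hK hx)).2
        (Finset.mem_union_left _ (Finset.mem_inter.2 ⟨hxB, hKG hx⟩))
    have h1 := hmin _ hmem
    have h2 : ((B ∩ bu G e l (H \ Z)) ∪ (Z ∩ H)).card ≤ (B ∩ bu G e l (H \ Z)).card + Z.card :=
      (Finset.card_union_le _ _).trans (Nat.add_le_add_left (Finset.card_le_card Finset.inter_subset_left) _)
    have h3 : (B \ bu G e l (H \ Z)).card + (B ∩ bu G e l (H \ Z)).card = B.card :=
      Finset.card_sdiff_add_card_inter B _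
    show (B \ bu G e l (H \ Z)).card ≤ Z.card
    omega

/-! Row S4 -/
theorem ND.mono {U U' : Finset V} {m m' c c' : ℕ} (h : ND G U m c) (hU : U' ⊆ U) (hm : m ≤ m') (hc : c ≤ c') :
    ND G U' m' c' := by
  rintro ⟨W, h1, h2⟩
  apply h
  have hle : m + 1 ≤ m' + 1 := Nat.succ_le_succ hm
  refine ⟨fun i => W (Fin.castLE hle i), ?_, ?_⟩
  · intro i
    refine ⟨(h1 _).1.trans hU, ?_⟩
    intro h3
    exact (h1 _).2 (h3.mono (Finset.Subset.refl _) hc)
  · intro i j hij
    apply h2
    intro h3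
    exact hij (Fin.castLE_injective hle h3)

theorem nd_zero {U : Finset V} {c : ℕ} : ND G U 0 c ↔ Col G U c := by
  constructor
  · intro h
    by_contra hc
    apply h
    refine ⟨fun _ => U, fun _ => ⟨Finset.Subset.refl _, hc⟩, ?_⟩
    intro i j hij
    exfalso
    apply hij
    have h1 := i.isLt
    have h2 := j.isLt
    apply Fin.ext
    omega
  · rintro h ⟨W, h1, _⟩
    exact (h1 0).2 (h.mono (h1 0).1 le_rfl)

theorem nd_card (U : Finset V) (c : ℕ) : ND G U U.card c := by
  rintro ⟨W, h1, h2⟩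
  have hne : ∀ i, (W i).Nonempty := by
    intro i
    rw [Finset.nonempty_iff_ne_empty]
    intro h3
    apply (h1 i).2
    rw [h3]
    exact col_empty c
  choose x hx using hne
  have hinj : Function.Injective x := by
    intro i j hij
    by_contra hne2
    have h3 := h2 i j hne2
    rw [Finset.disjoint_left] at h3
    apply h3 (hx i)
    rw [hij]
    exact hx j
  have h4 : (Finset.univ.image x).card = U.card + 1 := by
    rw [Finset.card_image_of_injective _ hinj, Finset.card_univ, Fintype.card_fin]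
  have h5 : Finset.univ.image x ⊆ U := by
    intro y hy
    obtain ⟨i, _, hi⟩ := Finset.mem_image.1 hy
    rw [← hi]
    exact (h1 i).1 (hx i)
  have h6 := Finset.card_le_card h5
  omega



theorem S5_pick {P : Finset V} {n m c : ℕ} (hP : ND G P m c) (W : Fin n → Finset V)
    (hd : ∀ i j, i ≠ j → Disjoint (W i) (W j)) (I : Finset (Fin n))
    (hI : ∀ i ∈ I, ¬ Col G (W i ∩ P) c) : I.card ≤ m := by
  by_contra hcon
  have hcon' : m + 1 ≤ I.card := by omega
  obtain ⟨s, hs, hc⟩ := Finset.exists_subset_card_eq hcon'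
  apply hP
  refine ⟨fun i => W (s.orderEmbOfFin hc i) ∩ P, fun i => ⟨Finset.inter_subset_right,
    hI _ (hs (Finset.orderEmbOfFin_mem s hc i))⟩, fun i j hij => ?_⟩
  exact (hd _ _ (fun h => hij ((s.orderEmbOfFin hc).injective h))).mono
    Finset.inter_subset_left Finset.inter_subset_left

theorem S5_glue {P Q W : Finset V} {c : ℕ} (h : ¬ Touch G P Q) (hW : W ⊆ P ∪ Q)
    (h1 : Col G (W ∩ P) c) (h2 : Col G (W ∩ Q) c) : Col G W c := by
  obtain ⟨φ, hφ1, hφ2⟩ := h1
  obtain ⟨ψ, hψ1, hψ2⟩ := h2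
  have hQ : ∀ u ∈ W, u ∉ P → u ∈ Q := by
    intro u hu hP
    exact (Finset.mem_union.1 (hW hu)).resolve_left hP
  refine ⟨fun v => if v ∈ P then φ v else ψ v, ?_, ?_⟩
  · intro u hu
    by_cases hP : u ∈ P
    · simp only [if_pos hP]
      exact hφ1 u (Finset.mem_inter.2 ⟨hu, hP⟩)
    · simp only [if_neg hP]
      exact hψ1 u (Finset.mem_inter.2 ⟨hu, hQ u hu hP⟩)
  · intro u hu v hv huv
    by_cases hPu : u ∈ P
    · by_cases hPv : v ∈ P
      · simp only [if_pos hPu, if_pos hPv]
        exact hφ2 u (Finset.mem_inter.2 ⟨hu, hPu⟩) v (Finset.mem_inter.2 ⟨hv, hPv⟩) huv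
      · exact absurd ⟨u, hPu, v, hQ v hv hPv, huv⟩ h
    · by_cases hPv : v ∈ P
      · exact absurd ⟨v, hPv, u, hQ u hu hPu, huv.symm⟩ h
      · simp only [if_neg hPu, if_neg hPv]
        exact hψ2 u (Finset.mem_inter.2 ⟨hu, hQ u hu hPu⟩) v
          (Finset.mem_inter.2 ⟨hv, hQ v hv hPv⟩) huv

/-- S4: `ND` adds up over sets which do not touch. -/
theorem nd_add {P Q : Finset V} {m m' c : ℕ} (hP : ND G P m c) (hQ : ND G Q m' c) (h : ¬ Touch G P Q) :
    ND G (P ∪ Q) (m + m') c := by
  rintro ⟨W, hW, hd⟩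
  have key : ∀ i, ¬ Col G (W i ∩ P) c ∨ ¬ Col G (W i ∩ Q) c := by
    intro i
    by_contra hcon
    push Not at hcon
    exact (hW i).2 (S5_glue h (hW i).1 hcon.1 hcon.2)
  have h1 := S5_pick hP W hd (Finset.univ.filter (fun i => ¬ Col G (W i ∩ P) c))
    (fun i hi => (Finset.mem_filter.1 hi).2)
  have h2 := S5_pick hQ W hd (Finset.univ.filter (fun i => ¬ Col G (W i ∩ Q) c))
    (fun i hi => (Finset.mem_filter.1 hi).2)
  have h3 : (Finset.univ : Finset (Fin (m + m' + 1))) ⊆
      Finset.univ.filter (fun i => ¬ Col G (W i ∩ P) c) ∪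
        Finset.univ.filter (fun i => ¬ Col G (W i ∩ Q) c) := by
    intro i hi
    rw [Finset.mem_union, Finset.mem_filter, Finset.mem_filter]
    rcases key i with h4 | h4
    · exact Or.inl ⟨hi, h4⟩
    · exact Or.inr ⟨hi, h4⟩
  have h4 := (Finset.card_le_card h3).trans (Finset.card_union_le _ _)
  rw [Finset.card_univ, Fintype.card_fin] at h4
  omega

theorem S6_fam {P : Finset V} {a c : ℕ} (h : ∀ m < a, ¬ ND G P m c) :
    ∃ W : Fin a → Finset V, (∀ i, W i ⊆ P ∧ ¬ Col G (W i) c) ∧
      ∀ i j, i ≠ j → Disjoint (W i) (W j) := by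
  cases a with
  | zero => exact ⟨fun i => i.elim0, fun i => i.elim0, fun i => i.elim0⟩
  | succ m =>
    have h1 := h m (Nat.lt_succ_self m)
    unfold ND at h1
    push Not at h1
    exact h1

/-- S4: splitting the bound. -/
theorem nd_split {P Q : Finset V} {q c : ℕ} (h : ND G (P ∪ Q) q c) (hd : Disjoint P Q) :
    ∃ a b, a + b ≤ q ∧ ND G P a c ∧ ND G Q b c := by
  have eP : ∃ a, ND G P a c := ⟨_, nd_card P c⟩
  have eQ : ∃ b, ND G Q b c := ⟨_, nd_card Q c⟩
  refine ⟨Nat.find eP, Nat.find eQ, ?_, Nat.find_spec eP, Nat.find_spec eQ⟩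
  by_contra hlt
  push Not at hlt
  obtain ⟨W1, h1, h1'⟩ := S6_fam (G := G) (P := P) (c := c) (a := Nat.find eP)
    (fun m hm => Nat.find_min eP hm)
  obtain ⟨W2, h2, h2'⟩ := S6_fam (G := G) (P := Q) (c := c) (a := Nat.find eQ)
    (fun m hm => Nat.find_min eQ hm)
  generalize Nat.find eP = a at *
  generalize Nat.find eQ = b at *
  have hle : q + 1 ≤ a + b := hlt
  apply h
  refine ⟨fun i => Fin.append W1 W2 (Fin.castLE hle i), fun i => ?_, fun i j hij => ?_⟩
  · beta_reduce
    generalize Fin.castLE hle i = k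
    refine Fin.addCases (fun k => ?_) (fun k => ?_) k
    · rw [Fin.append_left]
      exact ⟨(h1 k).1.trans Finset.subset_union_left, (h1 k).2⟩
    · rw [Fin.append_right]
      exact ⟨(h2 k).1.trans Finset.subset_union_right, (h2 k).2⟩
  · beta_reduce
    have hne : Fin.castLE hle i ≠ Fin.castLE hle j := by
      intro h3
      exact hij (Fin.castLE_injective hle h3)
    revert hne
    generalize Fin.castLE hle i = k
    generalize Fin.castLE hle j = l
    refine Fin.addCases (fun k => ?_) (fun k => ?_) k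
    · refine Fin.addCases (fun l => ?_) (fun l => ?_) l
      · intro hne
        rw [Fin.append_left, Fin.append_left]
        exact h1' k l (fun h3 => hne (by rw [h3]))
      · intro _
        rw [Fin.append_left, Fin.append_right]
        exact Finset.disjoint_of_subset_left (h1 k).1 (Finset.disjoint_of_subset_right (h2 l).1 hd)
    · refine Fin.addCases (fun l => ?_) (fun l => ?_) l
      · intro _
        rw [Fin.append_left, Fin.append_right]
        exact (Finset.disjoint_of_subset_left (h1 l).1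
          (Finset.disjoint_of_subset_right (h2 k).1 hd)).symm
      · intro hne
        rw [Fin.append_right, Fin.append_right]
        exact h2' k l (fun h3 => hne (by rw [h3]))

/-! Row S5 -/
/-- S5: a disconnected union of blobs falls into two parts. -/
theorem bu_split {X : Finset V} {e l : ℕ} (h : ¬ Conn G (bu G e l X)) (hne : (bu G e l X).Nonempty) :
    ∃ P Q : Finset V, P ∪ Q = bu G e l X ∧ Disjoint P Q ∧ ¬ Touch G P Q ∧
      (∃ K ⊆ P, Blob G e l K) ∧ (∃ K ⊆ Q, Blob G e l K) ∧ ∀ K ⊆ X, Blob G e l K → K ⊆ P ∨ K ⊆ Q := by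
  have h1 : ¬ PC G (bu G e l X) := fun h2 => h (h2.conn hne)
  unfold PC at h1
  push Not at h1
  obtain ⟨P, hP, hPne, hQne, hT⟩ := h1
  have key : ∀ K ⊆ X, Blob G e l K → K ⊆ P ∨ K ⊆ bu G e l X \ P := by
    intro K hK hB
    have hKY : K ⊆ bu G e l X := blob_sub_bu hB hK
    by_cases h2 : K ⊆ P
    · exact Or.inl h2
    · right
      obtain ⟨y, hy, hyP⟩ := Finset.not_subset.1 h2
      intro x hx
      rw [Finset.mem_sdiff]
      refine ⟨hKY hx, fun hxP => hT ?_⟩
      have h3 := hB.1.pc (K ∩ P) Finset.inter_subset_left ⟨x, Finset.mem_inter.2 ⟨hx, hxP⟩⟩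
        ⟨y, Finset.mem_sdiff.2 ⟨hy, fun h4 => hyP (Finset.mem_inter.1 h4).2⟩⟩
      refine h3.mono Finset.inter_subset_right ?_
      intro z hz
      rw [Finset.mem_sdiff] at hz ⊢
      exact ⟨hKY hz.1, fun h4 => hz.2 (Finset.mem_inter.2 ⟨hz.1, h4⟩)⟩
  refine ⟨P, bu G e l X \ P, Finset.union_sdiff_of_subset hP, Finset.disjoint_sdiff, hT, ?_, ?_, key⟩
  · obtain ⟨x, hx⟩ := hPne
    obtain ⟨K, hKX, hB, hxK⟩ := mem_bu.1 (hP hx)
    rcases key K hKX hB with h3 | h3
    · exact ⟨K, h3, hB⟩
    · exact absurd hx (Finset.mem_sdiff.1 (h3 hxK)).2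
  · obtain ⟨x, hx⟩ := hQne
    obtain ⟨K, hKX, hB, hxK⟩ := mem_bu.1 (Finset.mem_sdiff.1 hx).1
    rcases key K hKX hB with h3 | h3
    · exact absurd (h3 hxK) (Finset.mem_sdiff.1 hx).2
    · exact ⟨K, h3, hB⟩

/-! Row S6 -/
/-- S6: the structure lemma. -/
theorem struct {H₀ : Finset V} {e l k M c1 : ℕ}
    (hB : ∀ (H B : Finset V) (Γ : Finset V → Finset V), H ⊆ H₀ → Haven G H B e k Γ → ND G B M c1) (q : ℕ) :
    ∀ H ⊆ H₀, ND G H q l → ∃ S U' : Finset V, S ⊆ H ∧ U' ⊆ H ∧ S.card ≤ (2 * q - 1) * k ∧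
      (∀ K ⊆ H \ (S ∪ U'), ¬ Blob G e l K) ∧ ND G U' (q * M) c1 := by
  induction q using Nat.strong_induction_on with
  | _ q ih =>
    intro H hH hq
    by_cases hno : ∃ K ⊆ H, Blob G e l K
    · obtain ⟨K0, hK0, hK0b⟩ := hno
      have hq1 : 1 ≤ q := by
        by_contra h0
        have h1 : q = 0 := by omega
        subst h1
        exact hK0b.2.2 ((nd_zero.1 hq).mono hK0 le_rfl)
      by_cases hZ : ∀ Z : Finset V, Z.card ≤ k → Conn G (bu G e l (H \ Z))
      · obtain ⟨B, h1, h2⟩ := haven_exists hZ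
        refine ⟨∅, B, Finset.empty_subset _, h1.bsub, by simp, ?_, ?_⟩
        · intro K hK
          rw [Finset.empty_union] at hK
          exact h2 K hK
        · refine (hB H B _ hH h1).mono (Finset.Subset.refl _) ?_ le_rfl
          calc M = 1 * M := (one_mul M).symm
            _ ≤ q * M := Nat.mul_le_mul_right M hq1
      · push Not at hZ
        obtain ⟨Z, hZk, hZc⟩ := hZ
        rcases (bu G e l (H \ Z)).eq_empty_or_nonempty with h0 | h0
        · refine ⟨H ∩ Z, ∅, Finset.inter_subset_left, Finset.empty_subset _, ?_, ?_, ?_⟩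
          · have h1 : (H ∩ Z).card ≤ k := (Finset.card_le_card Finset.inter_subset_right).trans hZk
            have h2 : 1 * k ≤ (2 * q - 1) * k := Nat.mul_le_mul_right k (by omega)
            omega
          · intro K hK hKb
            have h1 : K ⊆ bu G e l (H \ Z) := by
              refine blob_sub_bu hKb ?_
              intro v hv
              have h2 := hK hv
              simp only [Finset.union_empty, Finset.mem_sdiff, Finset.mem_inter, not_and] at h2 ⊢
              exact ⟨h2.1, h2.2 h2.1⟩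
            rw [h0] at h1
            have h2 := hKb.1.nonempty
            rw [Finset.subset_empty.1 h1] at h2
            exact Finset.not_nonempty_empty h2
          · refine ND.mono (U := ∅) (m := 0) (c := c1) (nd_zero.2 (col_empty _)) (Finset.Subset.refl _)
              (Nat.zero_le _) le_rfl
        · obtain ⟨P, Q, h1, h2, h3, ⟨K1, hK1, hb1⟩, ⟨K2, hK2, hb2⟩, h6⟩ := bu_split hZc h0
          have hPQ : P ∪ Q ⊆ H := by
            rw [h1]
            exact (bu_sub e l _).trans Finset.sdiff_subset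
          have hPH : P ⊆ H := Finset.subset_union_left.trans hPQ
          have hQH : Q ⊆ H := Finset.subset_union_right.trans hPQ
          obtain ⟨a, b, hab, ha, hb⟩ := nd_split (hq.mono hPQ le_rfl le_rfl) h2
          have ha1 : 1 ≤ a := by
            by_contra h0
            have h4 : a = 0 := by omega
            subst h4
            exact hb1.2.2 ((nd_zero.1 ha).mono hK1 le_rfl)
          have hb1' : 1 ≤ b := by
            by_contra h0
            have h4 : b = 0 := by omega
            subst h4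
            exact hb2.2.2 ((nd_zero.1 hb).mono hK2 le_rfl)
          obtain ⟨S1, U1, a1, a2, a3, a4, a5⟩ := ih a (by omega) P (hPH.trans hH) ha
          obtain ⟨S2, U2, b1, b2, b3, b4, b5⟩ := ih b (by omega) Q (hQH.trans hH) hb
          refine ⟨(H ∩ Z) ∪ (S1 ∪ S2), U1 ∪ U2, ?_, ?_, ?_, ?_, ?_⟩
          · exact Finset.union_subset Finset.inter_subset_left
              (Finset.union_subset (a1.trans hPH) (b1.trans hQH))
          · exact Finset.union_subset (a2.trans hPH) (b2.trans hQH)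
          · have c1 : ((H ∩ Z) ∪ (S1 ∪ S2)).card ≤ k + ((2 * a - 1) * k + (2 * b - 1) * k) := by
              refine (Finset.card_union_le _ _).trans (Nat.add_le_add ?_ ((Finset.card_union_le _ _).trans
                (Nat.add_le_add a3 b3)))
              exact (Finset.card_le_card Finset.inter_subset_right).trans hZk
            have c2 : k + ((2 * a - 1) * k + (2 * b - 1) * k) = (1 + ((2 * a - 1) + (2 * b - 1))) * k := by ring
            have c3 : 1 + ((2 * a - 1) + (2 * b - 1)) ≤ 2 * q - 1 := by omega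
            have c4 := Nat.mul_le_mul_right k c3
            omega
          · intro K hK hKb
            have e1 : K ⊆ H \ Z := by
              intro v hv
              have h7 := hK hv
              simp only [Finset.mem_sdiff, Finset.mem_union, Finset.mem_inter] at h7 ⊢
              tauto
            rcases h6 K e1 hKb with h7 | h7
            · refine a4 K ?_ hKb
              intro v hv
              have h8 := hK hv
              have h9 := h7 hv
              simp only [Finset.mem_sdiff, Finset.mem_union] at h8 ⊢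
              tauto
            · refine b4 K ?_ hKb
              intro v hv
              have h8 := hK hv
              have h9 := h7 hv
              simp only [Finset.mem_sdiff, Finset.mem_union] at h8 ⊢
              tauto
          · have d1 : ¬ Touch G U1 U2 := fun h => h3 (h.mono a2 b2)
            refine (nd_add a5 b5 d1).mono (Finset.Subset.refl _) ?_ le_rfl
            have d2 : a * M + b * M = (a + b) * M := by ring
            rw [d2]
            exact Nat.mul_le_mul_right M hab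
    · push Not at hno
      refine ⟨∅, ∅, Finset.empty_subset _, Finset.empty_subset _, by simp, ?_, ?_⟩
      · intro K hK
        exact hno K (hK.trans Finset.sdiff_subset)
      · exact ND.mono (U := ∅) (m := 0) (c := c1) (nd_zero.2 (col_empty _)) (Finset.Subset.refl _)
          (Nat.zero_le _) le_rfl

end HD
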