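import Pool.Agent.LibHJ.S
import Pool.Agent.LibHJ.Q
import Pool.Agent.LibHD.B

/-!
# LibHJ : block T, squaring with a free set, the levels
-/

set_option autoImplicit false
set_option linter.unusedSectionVars false

open scoped Classical

noncomputable section

namespace HD

variable {V : Type*} [Fintype V] [DecidableEq V] {G : SimpleGraph V}

/-! Row T1 -/
theorem T1_few {Ω : Type} {N : ℕ} {A U : Finset V} {M c : ℕ} (R : Ω → Finset V) (hno : ND G U M c)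
    (ω : Fin N → Ω) :
    (Finset.univ.filter (fun j : Fin N => ¬ Col G (((A ∩ R (ω j)) \
      (Finset.univ.filter (fun i => i ≠ j)).biUnion (fun i => R (ω i))) ∩ U) c)).card ≤ M := by
  by_contra hcon
  have hcon' : M + 1 ≤ (Finset.univ.filter (fun j : Fin N => ¬ Col G (((A ∩ R (ω j)) \
      (Finset.univ.filter (fun i => i ≠ j)).biUnion (fun i => R (ω i))) ∩ U) c)).card := by omega
  obtain ⟨s, hs, hc⟩ := Finset.exists_subset_card_eq hcon'
  apply hno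
  refine ⟨fun i => ((A ∩ R (ω (s.orderEmbOfFin hc i))) \
    (Finset.univ.filter (fun k => k ≠ s.orderEmbOfFin hc i)).biUnion (fun k => R (ω k))) ∩ U, ?_, ?_⟩
  · intro i
    have h1 := hs (Finset.orderEmbOfFin_mem s hc i)
    rw [Finset.mem_filter] at h1
    exact ⟨Finset.inter_subset_right, h1.2⟩
  · intro i k hik
    exact (B3_disj A R ω (fun h => hik ((s.orderEmbOfFin hc).injective h))).mono
      Finset.inter_subset_left Finset.inter_subset_left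

theorem T1_markov {Ω : Type} [Fintype Ω] [Nonempty Ω] {A S : Finset V} {x : ℕ} {p : ℝ} (R : Ω → Finset V)
    (hp : 0 ≤ p)
    (hR : ∀ v ∈ A, (((Finset.univ.filter (fun ω => v ∈ R ω)).card : ℕ) : ℝ) ≤ p * (Fintype.card Ω : ℝ))
    (hS : 8 * p * (S.card : ℝ) ≤ x) :
    8 * (Finset.univ.filter (fun ω => x < (R ω ∩ (A ∩ S)).card)).card ≤ Fintype.card Ω := by
  have hpos : (0:ℝ) < (Fintype.card Ω : ℝ) := by exact_mod_cast Fintype.card_pos
  set n := (Finset.univ.filter (fun ω => x < (R ω ∩ (A ∩ S)).card)).card with hn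
  have h1 : ∑ ω : Ω, ((R ω ∩ (A ∩ S)).card : ℝ) =
      ∑ v ∈ A ∩ S, (((Finset.univ.filter (fun ω => v ∈ R ω)).card : ℕ) : ℝ) := by
    have h2 : ∀ ω : Ω, ((R ω ∩ (A ∩ S)).card : ℝ) = ∑ v ∈ A ∩ S, if v ∈ R ω then (1 : ℝ) else 0 := by
      intro ω
      rw [Finset.sum_boole]
      have h3 : R ω ∩ (A ∩ S) = (A ∩ S).filter (fun v => v ∈ R ω) := by
        ext v
        rw [Finset.mem_inter, Finset.mem_filter, and_comm]
      rw [h3]
    rw [Finset.sum_congr rfl (fun ω _ => h2 ω), Finset.sum_comm]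
    refine Finset.sum_congr rfl (fun v _ => ?_)
    rw [Finset.sum_boole]
  have h2 : ∑ v ∈ A ∩ S, (((Finset.univ.filter (fun ω => v ∈ R ω)).card : ℕ) : ℝ) ≤
      (S.card : ℝ) * (p * (Fintype.card Ω : ℝ)) := by
    refine (Finset.sum_le_card_nsmul _ _ _ (fun v hv => hR v (Finset.mem_inter.1 hv).1)).trans ?_
    rw [nsmul_eq_mul]
    refine mul_le_mul_of_nonneg_right ?_ (mul_nonneg hp hpos.le)
    exact_mod_cast Finset.card_le_card Finset.inter_subset_right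
  have h3 : (n : ℝ) * ((x : ℝ) + 1) ≤ ∑ ω : Ω, ((R ω ∩ (A ∩ S)).card : ℝ) := by
    have h4 : (n : ℝ) * ((x : ℝ) + 1) ≤
        ∑ ω ∈ Finset.univ.filter (fun ω => x < (R ω ∩ (A ∩ S)).card), ((R ω ∩ (A ∩ S)).card : ℝ) := by
      rw [hn, ← nsmul_eq_mul]
      refine Finset.card_nsmul_le_sum _ _ _ (fun ω hω => ?_)
      have := (Finset.mem_filter.1 hω).2
      exact_mod_cast this
    refine h4.trans ?_
    exact Finset.sum_le_sum_of_subset_of_nonneg (Finset.subset_univ _) (fun _ _ _ => Nat.cast_nonneg _)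
  have h4 : (n : ℝ) * ((x : ℝ) + 1) * 8 ≤ x * (Fintype.card Ω : ℝ) := by
    have h5 := h3.trans (h1.le.trans h2)
    have h6 := mul_le_mul_of_nonneg_right hS hpos.le
    nlinarith
  have h5 : (8 : ℝ) * n * ((x : ℝ) + 1) ≤ (Fintype.card Ω : ℝ) * ((x : ℝ) + 1) := by
    nlinarith
  have h6 : (8 : ℝ) * n ≤ (Fintype.card Ω : ℝ) := le_of_mul_le_mul_right h5 (by positivity)
  exact_mod_cast h6

theorem T1_fib {Ω : Type} [Fintype Ω] [Nonempty Ω] {N : ℕ} (P : Ω → Prop) (j : Fin N)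
    (hP : 8 * (Finset.univ.filter (fun ω => P ω)).card ≤ Fintype.card Ω) :
    8 * (Finset.univ.filter (fun ω : Fin N → Ω => P (ω j))).card ≤ Fintype.card (Fin N → Ω) := by
  have hpos : (0:ℝ) < (Fintype.card Ω : ℝ) := by exact_mod_cast Fintype.card_pos
  set B : Finset Ω := Finset.univ.filter (fun ω => P ω) with hB
  have h1 : (Finset.univ.filter (fun ω : Fin N → Ω => P (ω j))) =
      Fintype.piFinset (fun k : Fin N => if k = j then B else (Finset.univ : Finset Ω)) := by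
    ext ω
    simp only [Finset.mem_filter, Finset.mem_univ, true_and, Fintype.mem_piFinset]
    constructor
    · intro h2 k
      split_ifs with h4
      · rw [h4, hB]; simpa using h2
      · simp
    · intro h
      have h2 := h j
      rw [if_pos rfl, hB] at h2
      simpa using h2
  set q : ℝ := (B.card : ℝ) / (Fintype.card Ω : ℝ) with hq
  have hq8 : 8 * q ≤ 1 := by
    rw [hq, ← mul_div_assoc, div_le_one hpos]
    exact_mod_cast hP
  have h2 : ((Fintype.piFinset (fun k : Fin N => if k = j then B else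
      (Finset.univ : Finset Ω))).card : ℝ) = q * (Fintype.card (Fin N → Ω) : ℝ) := by
    rw [Fintype.card_piFinset, Nat.cast_prod]
    have h3 : ∀ k : Fin N, (((if k = j then B else (Finset.univ : Finset Ω)).card : ℕ) : ℝ) =
        (Fintype.card Ω : ℝ) * (if k = j then q else 1) := by
      intro k
      by_cases h4 : k = j
      · rw [if_pos h4, if_pos h4, hq]
        field_simp
      · rw [if_neg h4, if_neg h4]
        simp
    rw [Finset.prod_congr rfl (fun k _ => h3 k), Finset.prod_mul_distrib, Finset.prod_const,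
      Finset.prod_ite_eq']
    simp
    ring
  have h3 : (8 : ℝ) * ((Finset.univ.filter (fun ω : Fin N → Ω => P (ω j))).card : ℝ) ≤
      (Fintype.card (Fin N → Ω) : ℝ) := by
    rw [h1, h2]
    have h4 : (0 : ℝ) ≤ (Fintype.card (Fin N → Ω) : ℝ) := Nat.cast_nonneg _
    nlinarith
  exact_mod_cast h3

/-- T1: squaring with a free set. -/
theorem left_square2 {A U S : Finset V} {K M c x : ℕ} {p : ℝ} (hp : 0 ≤ p) (h : Left G A K p) (hA : A ⊆ U ∪ S)
    (hno : ND G U M c) (hS : 8 * p * (S.card : ℝ) ≤ x) : Left G A (K + (c + x)) (8 * ((M : ℝ) + 1) * p ^ 2) := by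
  obtain ⟨Ω, i1, i2, R, hcol, hR⟩ := h
  have hR' : ∀ v ∈ A, (((Finset.univ.filter (fun ω => v ∈ R ω)).card : ℕ) : ℝ) ≤
      p * (Fintype.card Ω : ℝ) := by
    intro v hv
    refine le_trans (le_of_eq ?_) (hR v hv)
    congr!
  set N : ℕ := 4 * (M + 1) with hN
  set T : ℕ := Fintype.card (Fin N → Ω) with hT
  have hTpos : 0 < T := Fintype.card_pos
  set D : (Fin N → Ω) → Fin N → Finset V := fun W j => (A ∩ R (W j)) \
      (Finset.univ.filter (fun i => i ≠ j)).biUnion (fun i => R (W i)) with hD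
  set P1 : (Fin N → Ω) → Fin N → Prop := fun W j => Col G (D W j ∩ U) c with hP1
  set P2 : (Fin N → Ω) → Fin N → Prop := fun W j => (R (W j) ∩ (A ∩ S)).card ≤ x with hP2
  -- bad pairs of the first kind
  have hb1 : (Finset.univ.filter (fun z : (Fin N → Ω) × Fin N => ¬ P1 z.1 z.2)).card ≤ M * T := by
    have h1 : (Finset.univ.filter (fun z : (Fin N → Ω) × Fin N => ¬ P1 z.1 z.2)).card =
        ∑ W : Fin N → Ω, (Finset.univ.filter (fun j : Fin N => ¬ P1 W j)).card := by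
      simp only [Finset.card_filter]
      rw [Fintype.sum_prod_type]
    rw [h1]
    refine (Finset.sum_le_card_nsmul _ _ M (fun W _ => T1_few R hno W)).trans ?_
    rw [smul_eq_mul, mul_comm, Finset.card_univ]
  -- bad pairs of the second kind
  have hb2 : 8 * (Finset.univ.filter (fun z : (Fin N → Ω) × Fin N => ¬ P2 z.1 z.2)).card ≤ N * T := by
    have h1 : (Finset.univ.filter (fun z : (Fin N → Ω) × Fin N => ¬ P2 z.1 z.2)).card =
        ∑ j : Fin N, (Finset.univ.filter (fun W : Fin N → Ω => ¬ P2 W j)).card := by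
      simp only [Finset.card_filter]
      rw [Fintype.sum_prod_type_right]
    rw [h1, Finset.mul_sum]
    have h2 : ∀ j ∈ (Finset.univ : Finset (Fin N)),
        8 * (Finset.univ.filter (fun W : Fin N → Ω => ¬ P2 W j)).card ≤ T := by
      intro j _
      have h3 := T1_fib (N := N) (fun ω => x < (R ω ∩ (A ∩ S)).card) j
        (le_trans (le_of_eq (by congr!)) (T1_markov R hp hR' hS))
      refine le_trans (le_of_eq ?_) h3
      congr 2
      ext W
      simp only [hP2, Finset.mem_filter, not_le]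
    refine (Finset.sum_le_card_nsmul _ _ T h2).trans ?_
    rw [smul_eq_mul, Finset.card_univ, Fintype.card_fin]
  -- good pairs
  set Q : (Fin N → Ω) × Fin N → Prop := fun z => P1 z.1 z.2 ∧ P2 z.1 z.2 with hQ
  have hgood : 5 * (N * T) ≤ 8 * Fintype.card {z : (Fin N → Ω) × Fin N // Q z} := by
    have hcs : Fintype.card {z : (Fin N → Ω) × Fin N // Q z} = (Finset.univ.filter Q).card := by
      exact Fintype.card_subtype _
    rw [hcs]
    have h3 := Finset.card_filter_add_card_filter_not (s := (Finset.univ : Finset ((Fin N → Ω) × Fin N))) Q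
    rw [Finset.card_univ, Fintype.card_prod, Fintype.card_fin] at h3
    have h4 : (Finset.univ.filter (fun z : (Fin N → Ω) × Fin N => ¬ Q z)) ⊆
        Finset.univ.filter (fun z : (Fin N → Ω) × Fin N => ¬ P1 z.1 z.2) ∪
          Finset.univ.filter (fun z : (Fin N → Ω) × Fin N => ¬ P2 z.1 z.2) := by
      intro z hz
      rw [Finset.mem_filter] at hz
      rw [Finset.mem_union, Finset.mem_filter, Finset.mem_filter]
      by_cases h5 : P1 z.1 z.2
      · exact Or.inr ⟨hz.1, fun h6 => hz.2 ⟨h5, h6⟩⟩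
      · exact Or.inl ⟨hz.1, h5⟩
    have h5 := (Finset.card_le_card h4).trans (Finset.card_union_le _ _)
    have h6 : 4 * (M * T) ≤ N * T := by
      rw [hN]
      nlinarith
    have h7 : N * T = 4 * (M * T) + 4 * T := by
      rw [hN]
      ring
    have h8 : T * N = N * T := mul_comm _ _
    rw [← hT] at h3
    omega
  have hNpos : 0 < N := by omega
  have hgpos : 0 < Fintype.card {z : (Fin N → Ω) × Fin N // Q z} := by
    have h1 : 0 < N * T := Nat.mul_pos hNpos hTpos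
    omega
  refine ⟨{z : (Fin N → Ω) × Fin N // Q z}, inferInstance, Fintype.card_pos_iff.1 hgpos,
    fun z => R (z.1.1 z.1.2) ∩
      (Finset.univ.filter (fun i => i ≠ z.1.2)).biUnion (fun i => R (z.1.1 i)), ?_, ?_⟩
  · rintro ⟨⟨W, j⟩, h1, h2⟩
    have h3 : Col G (R (W j) ∩ (A ∩ S)) x := (col_card _).mono (Finset.Subset.refl _) h2
    refine ((hcol (W j)).union (h1.union h3)).mono ?_ le_rfl
    refine (B3_sub A R W j).trans (Finset.union_subset_union (Finset.Subset.refl _) ?_)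
    intro v hv
    have hv1 : v ∈ A := (Finset.mem_inter.1 (Finset.mem_sdiff.1 hv).1).1
    have hv2 : v ∈ R (W j) := (Finset.mem_inter.1 (Finset.mem_sdiff.1 hv).1).2
    rw [Finset.mem_union]
    rcases Finset.mem_union.1 (hA hv1) with h4 | h4
    · exact Or.inl (Finset.mem_inter.2 ⟨hv, h4⟩)
    · exact Or.inr (Finset.mem_inter.2 ⟨hv2, Finset.mem_inter.2 ⟨hv1, h4⟩⟩)
  · intro v hv
    -- counting the pairs
    have h1 : (Finset.univ.filter (fun z : {z : (Fin N → Ω) × Fin N // Q z} =>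
        v ∈ R (z.1.1 z.1.2) ∩
          (Finset.univ.filter (fun i => i ≠ z.1.2)).biUnion (fun i => R (z.1.1 i)))).card ≤
        ∑ j : Fin N, ∑ i ∈ Finset.univ.filter (fun i => i ≠ j),
          (Finset.univ.filter (fun W : Fin N → Ω => v ∈ R (W j) ∧ v ∈ R (W i))).card := by
      have h2 : (Finset.univ.filter (fun z : {z : (Fin N → Ω) × Fin N // Q z} =>
        v ∈ R (z.1.1 z.1.2) ∩
          (Finset.univ.filter (fun i => i ≠ z.1.2)).biUnion (fun i => R (z.1.1 i)))).card ≤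
          ((Finset.univ : Finset (Fin N)).biUnion (fun j =>
            (Finset.univ.filter (fun i => i ≠ j)).biUnion (fun i =>
              (Finset.univ.filter (fun W : Fin N → Ω => v ∈ R (W j) ∧ v ∈ R (W i))).image
                (fun W => (W, j))))).card := by
        refine Finset.card_le_card_of_injOn (fun z => z.1) ?_ (fun a _ b _ hab => Subtype.ext hab)
        intro z hz
        have h5 : v ∈ R (z.1.1 z.1.2) ∩
            (Finset.univ.filter (fun i => i ≠ z.1.2)).biUnion (fun i => R (z.1.1 i)) := by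
          simpa using hz
        rw [Finset.mem_inter, Finset.mem_biUnion] at h5
        obtain ⟨h6, i, hi, h7⟩ := h5
        rw [Finset.mem_coe, Finset.mem_biUnion]
        refine ⟨z.1.2, Finset.mem_univ _, Finset.mem_biUnion.2 ⟨i, hi, Finset.mem_image.2 ⟨z.1.1, ?_, rfl⟩⟩⟩
        rw [Finset.mem_filter]
        exact ⟨Finset.mem_univ _, h6, h7⟩
      refine h2.trans (Finset.card_biUnion_le.trans (Finset.sum_le_sum (fun j _ => ?_)))
      exact Finset.card_biUnion_le.trans (Finset.sum_le_sum (fun i _ => Finset.card_image_le))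
    have h2 : (∑ j : Fin N, ∑ i ∈ Finset.univ.filter (fun i => i ≠ j),
          (((Finset.univ.filter (fun W : Fin N → Ω => v ∈ R (W j) ∧ v ∈ R (W i))).card : ℕ) : ℝ)) ≤
          (N : ℝ) * ((N : ℝ) * (p ^ 2 * (T : ℝ))) := by
      have h3 : ∀ j ∈ (Finset.univ : Finset (Fin N)), ∑ i ∈ Finset.univ.filter (fun i => i ≠ j),
          (((Finset.univ.filter (fun W : Fin N → Ω => v ∈ R (W j) ∧ v ∈ R (W i))).card : ℕ) : ℝ) ≤
          (N : ℝ) * (p ^ 2 * (T : ℝ)) := by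
        intro j _
        refine (Finset.sum_le_card_nsmul _ _ (p ^ 2 * (T : ℝ)) ?_).trans ?_
        · intro i hi
          have h8 := B3_count (N := N) (fun ω0 => v ∈ R ω0) (Finset.mem_filter.1 hi).2 (p := p)
            (le_of_eq_of_le (by congr 2; exact Finset.filter_congr_decidable _ _ _) (hR v hv))
          refine le_trans (le_of_eq ?_) h8
          congr!
        · rw [nsmul_eq_mul]
          refine mul_le_mul_of_nonneg_right ?_ (by positivity)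
          have h6 : (Finset.univ.filter (fun i : Fin N => i ≠ j)).card ≤ N := by
            refine (Finset.card_le_univ _).trans ?_
            rw [Fintype.card_fin]
          exact_mod_cast h6
      refine (Finset.sum_le_card_nsmul _ _ _ h3).trans ?_
      rw [nsmul_eq_mul, Finset.card_univ, Fintype.card_fin]
    have h3 : (((Finset.univ.filter (fun z : {z : (Fin N → Ω) × Fin N // Q z} =>
        v ∈ R (z.1.1 z.1.2) ∩
          (Finset.univ.filter (fun i => i ≠ z.1.2)).biUnion (fun i => R (z.1.1 i)))).card : ℕ) : ℝ) ≤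
        (N : ℝ) * ((N : ℝ) * (p ^ 2 * (T : ℝ))) := by
      refine le_trans ?_ h2
      exact_mod_cast h1
    refine le_trans (le_of_eq ?_) (h3.trans ?_)
    · congr!
    · have h4 : (5 : ℝ) * ((N : ℝ) * (T : ℝ)) ≤
          8 * (Fintype.card {z : (Fin N → Ω) × Fin N // Q z} : ℝ) := by exact_mod_cast hgood
      have h5 : (N : ℝ) = 4 * ((M : ℝ) + 1) := by
        rw [hN]
        push_cast
        ring
      have h6 : (0 : ℝ) ≤ ((M : ℝ) + 1) * p ^ 2 := by positivity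
      have h7 := mul_le_mul_of_nonneg_left h4 h6
      have h8 : (0 : ℝ) ≤ ((M : ℝ) + 1) * p ^ 2 * ((N : ℝ) * (T : ℝ)) := by positivity
      calc (N : ℝ) * ((N : ℝ) * (p ^ 2 * (T : ℝ))) =
            4 * (((M : ℝ) + 1) * p ^ 2 * ((N : ℝ) * (T : ℝ))) := by
            nth_rewrite 1 [h5]
            ring
        _ ≤ ((M : ℝ) + 1) * p ^ 2 * (5 * ((N : ℝ) * (T : ℝ))) := by linarith
        _ ≤ ((M : ℝ) + 1) * p ^ 2 * (8 * (Fintype.card {z : (Fin N → Ω) × Fin N // Q z} : ℝ)) := h7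
        _ = 8 * ((M : ℝ) + 1) * p ^ 2 * (Fintype.card {z : (Fin N → Ω) × Fin N // Q z} : ℝ) := by ring

theorem left_sub {A A' : Finset V} {K : ℕ} {p p' : ℝ} (h : Left G A K p) (hA : A' ⊆ A) (hp : p ≤ p') :
    Left G A' K p' := by
  obtain ⟨Ω, i1, i2, R, hcol, hR⟩ := h
  refine ⟨Ω, i1, i2, R, fun ω => (hcol ω).mono (Finset.sdiff_subset_sdiff hA (Finset.Subset.refl _)) le_rfl,
    fun v hv => (hR v (hA hv)).trans ?_⟩
  exact mul_le_mul_of_nonneg_right hp (Nat.cast_nonneg _)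


/-- the number of strands of a bundle at level `a` -/
def ta (t a : ℕ) : ℕ := (t + 2 ^ a - 1) / 2 ^ a

/-! Row T2 -/
theorem T2_large {r t n : ℕ} (hnt : n ^ 2 ≤ t ^ 3) (hn : r ^ 64 * t < n) : r ^ 128 < t := by
  by_contra hcon
  have hcon' : t ≤ r ^ 128 := not_lt.mp hcon
  have h1 : (r ^ 64 * t) ^ 2 < n ^ 2 := Nat.pow_lt_pow_left hn two_ne_zero
  have h2 : (r ^ 64 * t) ^ 2 = r ^ 128 * t ^ 2 := by ring
  have h3 : t * t ^ 2 ≤ r ^ 128 * t ^ 2 := Nat.mul_le_mul_right _ hcon'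
  have h4 : t ^ 3 = t * t ^ 2 := by ring
  omega

theorem T2_nat {r t n : ℕ} (hr : 2 ^ 40 ≤ r) (hnt : n ^ 2 ≤ t ^ 3) (hn : r ^ 64 * t < n) :
    t ≤ r * ((t + r - 1) / r) ∧ r ^ 6 ≤ (t + r - 1) / r ∧ 32 * r ^ 2 ≤ t / r ∧
      t ≤ 2 * r * (t / r) ∧ t ≤ 2 * r ^ 7 * ((t + r - 1) / r / r ^ 6) ∧
      8 * r ^ 2 * n ≤ (t + r - 1) / r / r ^ 6 * (t / r) ∧ (t + r - 1) / r * r ≤ 2 * t := by
  have hlarge := T2_large hnt hn
  have hr1 : 2048 ≤ r := le_trans (by norm_num) hr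
  have hr0 : 0 < r := by omega
  have hrt : r ≤ t := by
    have h1 : r ^ 1 ≤ r ^ 128 := Nat.pow_le_pow_right hr0 (by norm_num)
    rw [pow_one] at h1
    omega
  have hA : t ≤ r * ((t + r - 1) / r) := by
    have h1 := Nat.lt_mul_div_succ (t + r - 1) hr0
    rw [Nat.mul_add, Nat.mul_one] at h1
    omega
  have hB : r ^ 6 ≤ (t + r - 1) / r := by
    rw [Nat.le_div_iff_mul_le hr0]
    have h1 : r ^ 7 ≤ r ^ 128 := Nat.pow_le_pow_right hr0 (by norm_num)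
    have h2 : r ^ 6 * r = r ^ 7 := by ring
    omega
  have hC : 32 * r ^ 2 ≤ t / r := by
    rw [Nat.le_div_iff_mul_le hr0]
    have h1 : r ^ 4 ≤ r ^ 128 := Nat.pow_le_pow_right hr0 (by norm_num)
    have h2 : 32 * r ^ 2 * r = 32 * r ^ 3 := by ring
    have h3 : 32 * r ^ 3 ≤ r * r ^ 3 := Nat.mul_le_mul_right _ (by omega)
    have h4 : r * r ^ 3 = r ^ 4 := by ring
    omega
  have he : t ≤ 2 * r * (t / r) := by
    have h1 := Nat.lt_mul_div_succ t hr0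
    have h2 : 1 ≤ t / r := le_trans (Nat.succ_le_of_lt (by positivity)) hC
    nlinarith
  have hq6 : 0 < r ^ 6 := by positivity
  have hl : (t + r - 1) / r ≤ 2 * r ^ 6 * ((t + r - 1) / r / r ^ 6) := by
    have h1 := Nat.lt_mul_div_succ ((t + r - 1) / r) hq6
    have h2 : 1 ≤ (t + r - 1) / r / r ^ 6 := by
      rw [Nat.le_div_iff_mul_le hq6]
      omega
    have h3 : r ^ 6 * 1 ≤ r ^ 6 * ((t + r - 1) / r / r ^ 6) := Nat.mul_le_mul_left _ h2
    rw [Nat.mul_add] at h1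
    have h4 : 2 * r ^ 6 * ((t + r - 1) / r / r ^ 6) =
      r ^ 6 * ((t + r - 1) / r / r ^ 6) + r ^ 6 * ((t + r - 1) / r / r ^ 6) := by ring
    omega
  have hl7 : t ≤ 2 * r ^ 7 * ((t + r - 1) / r / r ^ 6) := by
    calc t ≤ r * ((t + r - 1) / r) := hA
      _ ≤ r * (2 * r ^ 6 * ((t + r - 1) / r / r ^ 6)) := Nat.mul_le_mul_left _ hl
      _ = 2 * r ^ 7 * ((t + r - 1) / r / r ^ 6) := by ring
  have hsq : 32 * r ^ 10 * n ≤ t ^ 2 := by
    by_contra hcon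
    have h1 : t ^ 2 < 32 * r ^ 10 * n := not_le.mp hcon
    have h2 : (t ^ 2) ^ 2 < (32 * r ^ 10 * n) ^ 2 := Nat.pow_lt_pow_left h1 two_ne_zero
    have h3 : (32 * r ^ 10 * n) ^ 2 = 1024 * r ^ 20 * n ^ 2 := by ring
    have h4 : 1024 * r ^ 20 * n ^ 2 ≤ 1024 * r ^ 20 * t ^ 3 := Nat.mul_le_mul_left _ hnt
    have h5 : 1024 * r ^ 20 ≤ t := by
      have h6 : r ^ 21 ≤ r ^ 128 := Nat.pow_le_pow_right hr0 (by norm_num)
      have h7 : 1024 * r ^ 20 ≤ r * r ^ 20 := Nat.mul_le_mul_right _ (by omega)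
      have h8 : r * r ^ 20 = r ^ 21 := by ring
      omega
    have h9 : 1024 * r ^ 20 * t ^ 3 ≤ t * t ^ 3 := Nat.mul_le_mul_right _ h5
    have h10 : (t ^ 2) ^ 2 = t * t ^ 3 := by ring
    omega
  have hE : 8 * r ^ 2 * n ≤ (t + r - 1) / r / r ^ 6 * (t / r) := by
    have h1 : t * t ≤ 2 * r ^ 7 * ((t + r - 1) / r / r ^ 6) * (2 * r * (t / r)) :=
      Nat.mul_le_mul hl7 he
    have h2 : 0 < 4 * r ^ 8 := by positivity
    refine Nat.le_of_mul_le_mul_left ?_ h2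
    calc 4 * r ^ 8 * (8 * r ^ 2 * n) = 32 * r ^ 10 * n := by ring
      _ ≤ t ^ 2 := hsq
      _ = t * t := by ring
      _ ≤ 2 * r ^ 7 * ((t + r - 1) / r / r ^ 6) * (2 * r * (t / r)) := h1
      _ = 4 * r ^ 8 * ((t + r - 1) / r / r ^ 6 * (t / r)) := by ring
  have hG : (t + r - 1) / r * r ≤ 2 * t := by
    have h1 := Nat.div_mul_le_self (t + r - 1) r
    omega
  exact ⟨hA, hB, hC, he, hl7, hE, hG⟩

theorem T2_log {r t n e : ℕ} (hr : 2 ^ 40 ≤ r) (hnt : n ^ 2 ≤ t ^ 3) (hn : 0 < n)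
    (hlarge : r ^ 128 < t) (he : t ≤ 2 * r * e) :
    256 * (r : ℝ) ^ 2 * Real.log (n : ℝ) ≤ (e : ℝ) := by
  have hr1 : 2048 ≤ r := le_trans (by norm_num) hr
  have hr0 : 0 < r := by omega
  have ht0 : 0 < t := by omega
  have hrR : (2048 : ℝ) ≤ r := by exact_mod_cast hr1
  have htR : (0 : ℝ) < t := by exact_mod_cast ht0
  have hnR : (0 : ℝ) < n := by exact_mod_cast hn
  have hs0 : 0 < Real.sqrt t := Real.sqrt_pos.mpr htR
  have hss : Real.sqrt t * Real.sqrt t = t := Real.mul_self_sqrt htR.le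
  have hlog : Real.log n ≤ 3 * Real.sqrt t := by
    have h1 : ((n : ℝ)) ^ 2 ≤ (t : ℝ) ^ 3 := by exact_mod_cast hnt
    have h2 := Real.log_le_log (by positivity) h1
    rw [Real.log_pow, Real.log_pow] at h2
    have h3 := Real.log_le_sub_one_of_pos hs0
    have h4 : Real.log t = 2 * Real.log (Real.sqrt t) := by
      rw [Real.log_sqrt htR.le]
      ring
    push_cast at h2
    linarith
  have hsq : 1536 * (r : ℝ) ^ 3 ≤ Real.sqrt t := by
    refine Real.le_sqrt_of_sq_le ?_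
    have h1 : (1536 * r ^ 3) ^ 2 ≤ t := by
      have h2 : (1536 * r ^ 3) ^ 2 ≤ (r * r ^ 3) ^ 2 :=
        Nat.pow_le_pow_left (Nat.mul_le_mul_right _ (by omega)) 2
      have h3 : (r * r ^ 3) ^ 2 = r ^ 8 := by ring
      have h4 : r ^ 8 ≤ r ^ 128 := Nat.pow_le_pow_right hr0 (by norm_num)
      omega
    exact_mod_cast h1
  have heR : (t : ℝ) ≤ 2 * r * e := by exact_mod_cast he
  have h5 : 256 * (r : ℝ) ^ 2 * Real.log n ≤ 768 * (r : ℝ) ^ 2 * Real.sqrt t := by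
    have h6 : 256 * (r : ℝ) ^ 2 * Real.log n ≤ 256 * (r : ℝ) ^ 2 * (3 * Real.sqrt t) :=
      mul_le_mul_of_nonneg_left hlog (by positivity)
    linarith
  have h7 : 768 * (r : ℝ) ^ 2 * Real.sqrt t * (2 * (r : ℝ)) ≤ (e : ℝ) * (2 * (r : ℝ)) := by
    have h8 : 1536 * (r : ℝ) ^ 3 * Real.sqrt t ≤ Real.sqrt t * Real.sqrt t :=
      mul_le_mul_of_nonneg_right hsq hs0.le
    rw [hss] at h8
    calc 768 * (r : ℝ) ^ 2 * Real.sqrt t * (2 * r) = 1536 * (r : ℝ) ^ 3 * Real.sqrt t := by ring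
      _ ≤ (t : ℝ) := h8
      _ ≤ 2 * (r : ℝ) * (e : ℝ) := heR
      _ = (e : ℝ) * (2 * (r : ℝ)) := by ring
  have h9 : (0 : ℝ) < 2 * r := by positivity
  exact h5.trans (le_of_mul_le_mul_right h7 h9)

theorem T2_exp {r t n l : ℕ} (hr : 2 ^ 40 ≤ r) (hnt : n ^ 2 ≤ t ^ 3)
    (hlarge : r ^ 128 < t) (hl : t ≤ 2 * r ^ 7 * l) :
    8 * (r : ℝ) ^ 2 * n < Real.exp (8 * (l : ℝ)) := by
  have hr1 : 2048 ≤ r := le_trans (by norm_num) hr
  have hr0 : 0 < r := by omega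
  have ht0 : 0 < t := by omega
  have hrR : (0 : ℝ) < r := by exact_mod_cast hr0
  have htR : (0 : ℝ) < t := by exact_mod_cast ht0
  have hsq : r ^ 16 * n < t ^ 2 := by
    by_contra hcon
    have h1 : t ^ 2 ≤ r ^ 16 * n := not_lt.mp hcon
    have h2 : (t ^ 2) ^ 2 ≤ (r ^ 16 * n) ^ 2 := Nat.pow_le_pow_left h1 2
    have h3 : (r ^ 16 * n) ^ 2 = r ^ 32 * n ^ 2 := by ring
    have h4 : r ^ 32 * n ^ 2 ≤ r ^ 32 * t ^ 3 := Nat.mul_le_mul_left _ hnt
    have h5 : r ^ 32 < t := lt_of_le_of_lt (Nat.pow_le_pow_right hr0 (by norm_num)) hlarge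
    have h6 : r ^ 32 * t ^ 3 < t * t ^ 3 := Nat.mul_lt_mul_of_pos_right h5 (by positivity)
    have h7 : (t ^ 2) ^ 2 = t * t ^ 3 := by ring
    omega
  have hsqR : (r : ℝ) ^ 16 * n < (t : ℝ) ^ 2 := by exact_mod_cast hsq
  have hlR : (t : ℝ) ≤ 2 * r ^ 7 * l := by exact_mod_cast hl
  have hexp := Real.quadratic_le_exp_of_nonneg (x := 8 * (l : ℝ)) (by positivity)
  have hl2 : (t : ℝ) ^ 2 ≤ (2 * (r : ℝ) ^ 7 * l) ^ 2 := by
    exact pow_le_pow_left₀ htR.le hlR 2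
  have h8 : (8 * (r : ℝ) ^ 2 * n) * (r : ℝ) ^ 14 < (8 * (l : ℝ)) ^ 2 / 2 * (r : ℝ) ^ 14 := by
    calc (8 * (r : ℝ) ^ 2 * n) * (r : ℝ) ^ 14 = 8 * ((r : ℝ) ^ 16 * n) := by ring
      _ < 8 * (t : ℝ) ^ 2 := by linarith
      _ ≤ 8 * (2 * (r : ℝ) ^ 7 * l) ^ 2 := by linarith
      _ = (8 * (l : ℝ)) ^ 2 / 2 * (r : ℝ) ^ 14 := by ring
  have h9 : 8 * (r : ℝ) ^ 2 * n < (8 * (l : ℝ)) ^ 2 / 2 :=
    lt_of_mul_lt_mul_right h8 (by positivity)
  have h10 : (0 : ℝ) ≤ 8 * (l : ℝ) := by positivity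
  linarith

/-- T2: the numerical conditions of a level. -/
theorem level_num {n t a : ℕ} (ha : 40 ≤ a) (hnt : n ^ 2 ≤ t ^ 3) (hn : 2 ^ (64 * a) * t < n) :
    t ≤ 2 ^ a * ta t a ∧ (2 ^ a) ^ 6 ≤ ta t a ∧ 32 * (2 ^ a) ^ 2 ≤ t / 2 ^ a ∧
      256 * (((2 ^ a : ℕ) : ℝ)) ^ 2 * Real.log (n : ℝ) ≤ ((t / 2 ^ a : ℕ) : ℝ) ∧
      8 * (2 ^ a) ^ 2 * n ≤ ta t a / (2 ^ a) ^ 6 * (t / 2 ^ a) ∧
      8 * (((2 ^ a : ℕ) : ℝ)) ^ 2 * n < Real.exp (8 * ((ta t a / (2 ^ a) ^ 6 : ℕ) : ℝ)) ∧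
      ta t a * 2 ^ a ≤ 2 * t ∧ 2 ^ (128 * a) < t := by
  have hr : 2 ^ 40 ≤ 2 ^ a := Nat.pow_le_pow_right (by norm_num) ha
  have e64 : 2 ^ (64 * a) = (2 ^ a) ^ 64 := by rw [← pow_mul]; ring_nf
  have e128 : 2 ^ (128 * a) = (2 ^ a) ^ 128 := by rw [← pow_mul]; ring_nf
  rw [e64] at hn
  rw [e128]
  unfold ta
  obtain ⟨r, hrr⟩ : ∃ r : ℕ, r = 2 ^ a := ⟨_, rfl⟩
  rw [← hrr] at hr hn ⊢
  obtain ⟨hA, hB, hC, he, hl, hE, hG⟩ := T2_nat hr hnt hn
  have hlarge := T2_large hnt hn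
  have hn0 : 0 < n := by omega
  exact ⟨hA, hB, hC, T2_log hr hnt hn0 hlarge he, hE, T2_exp hr hnt hlarge hl, hG, hlarge⟩

/-- T3: the structure at one level. -/
theorem level_struct {U₀ H : Finset V} {t a q l c0 : ℕ} (ha : 40 ≤ a) (hnt : U₀.card ^ 2 ≤ t ^ 3)
    (hn : 2 ^ (64 * a) * t < U₀.card) (hH : H ⊆ U₀) (hmod : ¬ Model G U₀ t) (hq : ND G H q l) (hl : t / 2 ^ a ≤ l)
    (hc : ∀ A ⊆ U₀, ¬ Model G A (2 ^ 18 * ta t a) → Col G A c0) :
    ∃ S U' : Finset V, S ⊆ H ∧ U' ⊆ H ∧ S.card ≤ (2 * q - 1) * (2 ^ 37 * (2 ^ a) ^ 8 * ta t a) ∧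
      Col G (H \ (S ∪ U')) l ∧ ND G U' (q * (2 ^ 20 * (2 ^ a) ^ 8)) (2 * c0) := by
  obtain ⟨h1, h2, h3, h4, h5, h6, -, -⟩ := level_num ha hnt hn
  have hr : 2 ≤ 2 ^ a := by
    calc 2 = 2 ^ 1 := rfl
      _ ≤ 2 ^ a := Nat.pow_le_pow_right (by norm_num) (by omega)
  obtain ⟨S, U', a1, a2, a3, a4, a5⟩ := struct (G := G) (H₀ := U₀) (e := t / 2 ^ a) (l := l)
    (k := 2 ^ 37 * (2 ^ a) ^ 8 * ta t a) (M := 2 ^ 20 * (2 ^ a) ^ 8) (c1 := 2 * c0)
    (fun H B Γ hH hh => bad_bound hh hH hr h1 h2 rfl h3 (by exact_mod_cast h4) h5 (by exact_mod_cast h6) hc hmod)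
    q H hH hq
  exact ⟨S, U', a1, a2, a3, noblob_col a4 hl le_rfl, a5⟩

/-- the state at level `a` -/
def Sta (G : SimpleGraph V) (U₀ A : Finset V) (t a K l : ℕ) : Prop :=
  A ⊆ U₀ ∧ ∃ (U S : Finset V) (q : ℕ) (p : ℝ), U ⊆ A ∧ A ⊆ U ∪ S ∧ S.card ≤ 2 ^ (30 * a - 1) * t ∧ ND G U q l ∧
    q ≤ 2 ^ (22 * a) ∧ 0 ≤ p ∧ p * 2 ^ (64 * a) ≤ 1 ∧ Left G A K p

/-! Row T4 -/
theorem T4_pow {m n : ℕ} (h : m ≤ n) : (2 : ℕ) ^ m ≤ 2 ^ n := Nat.pow_le_pow_right (by norm_num) h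

theorem T4_powR {m n : ℕ} (h : m ≤ n) : (2 : ℝ) ^ m ≤ 2 ^ n := pow_le_pow_right₀ (by norm_num) h

theorem T4_three {p x N M : ℝ} (hp : p * M ≤ 1) (hM : 0 < M) (hx : 0 ≤ x)
    (h : 8 * x ≤ M * N) : 8 * p * x ≤ N := by
  have h1 : (8 * p * x) * M ≤ N * M := by
    calc (8 * p * x) * M = (p * M) * (8 * x) := by ring
      _ ≤ 1 * (8 * x) := mul_le_mul_of_nonneg_right hp (by positivity)
      _ ≤ N * M := by linarith
  exact le_of_mul_le_mul_right h1 hM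

theorem T4_four {Q A P B X Y : ℝ} (hQ : 0 ≤ Q) (hQA : Q ≤ A) (hPB : P * B ≤ 1) (hB : 0 < B)
    (hX : 0 ≤ X) (hXY : X ≤ Y) (h : 8 * A * Y ≤ B) : 8 * Q * P * X ≤ 1 := by
  have h1 : (8 * Q * P * X) * B ≤ 1 * B := by
    calc (8 * Q * P * X) * B = (8 * Q * X) * (P * B) := by ring
      _ ≤ (8 * Q * X) * 1 := mul_le_mul_of_nonneg_left hPB (by positivity)
      _ = (8 * Q) * X := by ring
      _ ≤ (8 * A) * Y := mul_le_mul (by linarith) hXY hX (by linarith)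
      _ ≤ 1 * B := by rw [one_mul]; exact h
  exact le_of_mul_le_mul_right h1 hB

/-- T4: numerical facts for one level step. -/
theorem step_num {t a q s S' : ℕ} {p : ℝ} (ha : 40 ≤ a) (ht : 2 ^ (128 * a) < t) (hta : ta t a * 2 ^ a ≤ 2 * t)
    (hq : q ≤ 2 ^ (22 * a)) (hs : s ≤ 2 ^ (30 * a - 1) * t) (hp0 : 0 ≤ p) (hp : p * 2 ^ (64 * a) ≤ 1)
    (hS' : S' ≤ (2 * q - 1) * (2 ^ 37 * (2 ^ a) ^ 8 * ta t a)) :
    s + S' ≤ 2 ^ (30 * (3 * a / 2) - 1) * t ∧ q * (2 ^ 20 * (2 ^ a) ^ 8) ≤ 2 ^ (22 * (3 * a / 2)) ∧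
      8 * p * ((s + S' : ℕ) : ℝ) ≤ ((t / 2 ^ a : ℕ) : ℝ) ∧
      8 * (((q * (2 ^ 20 * (2 ^ a) ^ 8) : ℕ) : ℝ) + 1) * p ^ 2 * 2 ^ (64 * (3 * a / 2)) ≤ 1 := by
  obtain ⟨a', ha'⟩ : ∃ a' : ℕ, a' = 3 * a / 2 := ⟨_, rfl⟩
  rw [← ha']
  have h1 : a + 20 ≤ a' := by omega
  have h2 : 3 * a ≤ 2 * a' + 1 := by omega
  have h3 : 2 * a' ≤ 3 * a := by omega
  have h8 : ((2 : ℕ) ^ a) ^ 8 = 2 ^ (8 * a) := by rw [← pow_mul, mul_comm]
  rw [h8] at hS' ⊢
  obtain ⟨T, hT⟩ : ∃ T : ℕ, T = ta t a := ⟨_, rfl⟩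
  rw [← hT] at hta hS'
  -- the bound for `S'`
  have e1 : S' * 2 ^ a ≤ (2 ^ (29 * a + 39) * t) * 2 ^ a := by
    have c1 : (2 * q - 1) * (2 ^ 37 * 2 ^ (8 * a) * T) ≤ 2 ^ (30 * a + 38) * T := by
      calc (2 * q - 1) * (2 ^ 37 * 2 ^ (8 * a) * T)
          ≤ (2 * 2 ^ (22 * a)) * (2 ^ 37 * 2 ^ (8 * a) * T) := Nat.mul_le_mul_right _ (by omega)
        _ = 2 ^ (30 * a + 38) * T := by
            have c2 : (2 : ℕ) ^ (30 * a + 38) = 2 * 2 ^ (22 * a) * (2 ^ 37 * 2 ^ (8 * a)) := by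
              rw [← pow_add, ← pow_succ', ← pow_add]
              congr 1
              ring
            rw [c2]
            ring
    calc S' * 2 ^ a ≤ (2 ^ (30 * a + 38) * T) * 2 ^ a := Nat.mul_le_mul_right _ (hS'.trans c1)
      _ = 2 ^ (30 * a + 38) * (T * 2 ^ a) := by ring
      _ ≤ 2 ^ (30 * a + 38) * (2 * t) := Nat.mul_le_mul_left _ hta
      _ = (2 ^ (29 * a + 39) * t) * 2 ^ a := by
          have c3 : (2 : ℕ) ^ (30 * a + 38) * 2 = 2 ^ (29 * a + 39) * 2 ^ a := by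
            rw [← pow_succ, ← pow_add]
            congr 1
            ring
          calc 2 ^ (30 * a + 38) * (2 * t) = (2 ^ (30 * a + 38) * 2) * t := by ring
            _ = (2 ^ (29 * a + 39) * t) * 2 ^ a := by rw [c3]; ring
  have e2 : S' ≤ 2 ^ (29 * a + 39) * t := Nat.le_of_mul_le_mul_right e1 (by positivity)
  have e3 : s + S' ≤ 2 ^ (30 * a) * t := by
    have c1 : (2 : ℕ) ^ (29 * a + 39) ≤ 2 ^ (30 * a - 1) := T4_pow (by omega)
    have c2 : (2 : ℕ) ^ (30 * a) = 2 * 2 ^ (30 * a - 1) := by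
      rw [← pow_succ']
      congr 1
      omega
    calc s + S' ≤ 2 ^ (30 * a - 1) * t + 2 ^ (30 * a - 1) * t :=
          add_le_add hs (e2.trans (Nat.mul_le_mul_right _ c1))
      _ = 2 ^ (30 * a) * t := by rw [c2]; ring
  have e4 : q * (2 ^ 20 * 2 ^ (8 * a)) ≤ 2 ^ (30 * a + 20) := by
    calc q * (2 ^ 20 * 2 ^ (8 * a)) ≤ 2 ^ (22 * a) * (2 ^ 20 * 2 ^ (8 * a)) :=
          Nat.mul_le_mul_right _ hq
      _ = 2 ^ (30 * a + 20) := by
          rw [← pow_add, ← pow_add]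
          congr 1
          ring
  refine ⟨?_, ?_, ?_, ?_⟩
  · exact e3.trans (Nat.mul_le_mul_right _ (T4_pow (by omega)))
  · exact e4.trans (T4_pow (by omega))
  · obtain ⟨N, hN⟩ : ∃ N : ℕ, N = t / 2 ^ a := ⟨_, rfl⟩
    rw [← hN]
    have g1 : (2 : ℕ) ^ a ≤ t := (T4_pow (by omega)).trans ht.le
    have g2 : 1 ≤ N := by
      rw [hN]
      exact (Nat.one_le_div_iff (by positivity)).2 g1
    have g3 : t ≤ 2 ^ (a + 1) * N := by
      have g4 := Nat.div_add_mod t (2 ^ a)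
      have g5 := Nat.mod_lt t (show 2 ^ a > 0 by positivity)
      rw [← hN] at g4
      have g6 : (2 : ℕ) ^ a * 1 ≤ 2 ^ a * N := Nat.mul_le_mul_left _ g2
      have g7 : (2 : ℕ) ^ (a + 1) * N = 2 ^ a * N + 2 ^ a * N := by
        rw [pow_succ]
        ring
      omega
    have g8 : 8 * (s + S') ≤ 2 ^ (64 * a) * N := by
      calc 8 * (s + S') ≤ 8 * (2 ^ (30 * a) * (2 ^ (a + 1) * N)) :=
            Nat.mul_le_mul_left _ (e3.trans (Nat.mul_le_mul_left _ g3))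
        _ = 2 ^ (31 * a + 4) * N := by
            have c3 : (2 : ℕ) ^ (31 * a + 4) = 2 ^ 3 * (2 ^ (30 * a) * 2 ^ (a + 1)) := by
              rw [← pow_add, ← pow_add]
              congr 1
              ring
            rw [c3]
            ring
        _ ≤ 2 ^ (64 * a) * N := Nat.mul_le_mul_right _ (T4_pow (by omega))
    have g9 : (8 : ℝ) * ((s + S' : ℕ) : ℝ) ≤ 2 ^ (64 * a) * (N : ℝ) := by exact_mod_cast g8
    exact T4_three hp (pow_pos (by norm_num) _) (Nat.cast_nonneg _) g9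
  · have g1 : (((q * (2 ^ 20 * 2 ^ (8 * a)) : ℕ) : ℝ)) + 1 ≤ 2 ^ (30 * a + 21) := by
      have c1 : q * (2 ^ 20 * 2 ^ (8 * a)) + 1 ≤ 2 ^ (30 * a + 21) := by
        have c2 : (2 : ℕ) ^ (30 * a + 21) = 2 ^ (30 * a + 20) + 2 ^ (30 * a + 20) := by
          rw [pow_succ]
          ring
        have c3 : 1 ≤ (2 : ℕ) ^ (30 * a + 20) := Nat.one_le_two_pow
        omega
      exact_mod_cast c1
    have g2 : p ^ 2 * 2 ^ (128 * a) ≤ 1 := by
      have c1 : p ^ 2 * 2 ^ (128 * a) = (p * 2 ^ (64 * a)) ^ 2 := by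
        rw [mul_pow, ← pow_mul]
        congr 2
        ring
      rw [c1]
      exact pow_le_one₀ (mul_nonneg hp0 (pow_nonneg (by norm_num) _)) hp
    have g3 : (2 : ℝ) ^ (64 * a') ≤ 2 ^ (96 * a) := T4_powR (by omega)
    have g4 : (0 : ℝ) < 2 ^ (128 * a) := pow_pos (by norm_num) _
    have g5 : (8 : ℝ) * 2 ^ (30 * a + 21) * 2 ^ (96 * a) ≤ 2 ^ (128 * a) := by
      have c1 : (8 : ℝ) * 2 ^ (30 * a + 21) * 2 ^ (96 * a) = 2 ^ (126 * a + 24) := by
        have c2 : (8 : ℝ) = 2 ^ 3 := by norm_num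
        rw [c2, ← pow_add, ← pow_add]
        congr 1
        ring
      rw [c1]
      exact T4_powR (by omega)
    exact T4_four (add_nonneg (Nat.cast_nonneg _) zero_le_one) g1 g2 g4
      (pow_nonneg (by norm_num) _) g3 g5

/-- T5: one level step. -/
theorem level_step {U₀ A : Finset V} {t a K l c0 : ℕ} (ha : 40 ≤ a) (hnt : U₀.card ^ 2 ≤ t ^ 3)
    (hn : 2 ^ (64 * a) * t < U₀.card) (hmod : ¬ Model G U₀ t) (hl : t / 2 ^ a ≤ l)
    (hc : ∀ A ⊆ U₀, ¬ Model G A (2 ^ 18 * ta t a) → Col G A c0) (h : Sta G U₀ A t a K l) :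
    ∃ A' ⊆ A, Col G (A \ A') l ∧ Sta G U₀ A' t (3 * a / 2) (K + (2 * c0 + t / 2 ^ a)) (2 * c0 + t / 2 ^ a) := by
  obtain ⟨-, -, -, -, -, -, hta, ht⟩ := level_num ha hnt hn
  obtain ⟨hAU, U, S, q, p, b1, b2, b3, b4, b5, b6, b7, b8⟩ := h
  obtain ⟨S', U', a1, a2, a3, a4, a5⟩ := level_struct ha hnt hn (b1.trans hAU) hmod b4 hl hc
  obtain ⟨n1, n2, n3, n4⟩ := step_num ha ht hta b5 b3 b6 b7 a3
  have hsub : U' ∪ (A ∩ (S ∪ S')) ⊆ A := Finset.union_subset (a2.trans b1) Finset.inter_subset_left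
  have hcard : (S ∪ S').card ≤ S.card + S'.card := Finset.card_union_le _ _
  refine ⟨U' ∪ (A ∩ (S ∪ S')), hsub, ?_, hsub.trans hAU, U', S ∪ S', q * (2 ^ 20 * (2 ^ a) ^ 8),
    8 * (((q * (2 ^ 20 * (2 ^ a) ^ 8) : ℕ) : ℝ) + 1) * p ^ 2, Finset.subset_union_left, ?_, hcard.trans n1, ?_, n2,
    by positivity, n4, ?_⟩
  · refine a4.mono ?_ le_rfl
    intro v hv
    have h1 := Finset.mem_sdiff.1 hv
    have h2 := Finset.mem_union.1 (b2 h1.1)
    simp only [Finset.mem_union, Finset.mem_inter, not_or, not_and] at h1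
    refine Finset.mem_sdiff.2 ⟨?_, ?_⟩
    · rcases h2 with h3 | h3
      · exact h3
      · exact absurd h3 (h1.2.2 h1.1).1
    · intro h3
      rcases Finset.mem_union.1 h3 with h4 | h4
      · exact (h1.2.2 h1.1).2 h4
      · exact h1.2.1 h4
  · exact Finset.union_subset_union (Finset.Subset.refl _) Finset.inter_subset_right
  · exact a5.mono (Finset.Subset.refl _) le_rfl (Nat.le_add_right _ _)
  · refine left_square2 b6 (left_sub b8 hsub le_rfl)
      (Finset.union_subset_union (Finset.Subset.refl _) Finset.inter_subset_right) a5 (le_trans ?_ n3)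
    have h1 : ((S ∪ S').card : ℝ) ≤ ((S.card + S'.card : ℕ) : ℝ) := by exact_mod_cast hcard
    exact mul_le_mul_of_nonneg_left h1 (by positivity)

/-- T6: the last level. -/
theorem level_last {U₀ A : Finset V} {t a K l : ℕ} (hn : U₀.card ≤ 2 ^ (64 * a) * t) (h : Sta G U₀ A t a K l) :
    Col G A (K + t) := by
  obtain ⟨hAU, U, S, q, p, -, -, -, -, -, b6, b7, b8⟩ := h
  refine left_finish b8 ?_
  have h1 : (A.card : ℝ) ≤ 2 ^ (64 * a) * t := by exact_mod_cast (Finset.card_le_card hAU).trans hn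
  have h2 : p * (A.card : ℝ) ≤ p * (2 ^ (64 * a) * t) := mul_le_mul_of_nonneg_left h1 b6
  have h3 : p * 2 ^ (64 * a) * t ≤ 1 * t := mul_le_mul_of_nonneg_right b7 (Nat.cast_nonneg t)
  linarith

/-- T7: all levels. -/
theorem levels {U₀ : Finset V} {t : ℕ} (hnt : U₀.card ^ 2 ≤ t ^ 3) (hmod : ¬ Model G U₀ t) (c0 W : ℕ → ℕ)
    (hc : ∀ a, 40 ≤ a → 2 ^ (64 * a) * t < U₀.card → ∀ A ⊆ U₀, ¬ Model G A (2 ^ 18 * ta t a) → Col G A (c0 a))
    (hW : ∀ a, 40 ≤ a → 2 ^ (64 * a) * t < U₀.card → 2 * (2 * c0 a + t / 2 ^ a) + W (3 * a / 2) ≤ W a) (m : ℕ) :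
    ∀ a, 40 ≤ a → U₀.card ≤ 2 ^ (64 * (a + m)) * t → ∀ A K l, Sta G U₀ A t a K l → t / 2 ^ a ≤ l →
      Col G A (K + l + t + W a) := by
  induction m with
  | zero =>
    intro a ha hn A K l h hl
    exact (level_last (by simpa using hn) h).mono (Finset.Subset.refl _) (by omega)
  | succ m ih =>
    intro a ha hn A K l h hl
    rcases le_or_gt U₀.card (2 ^ (64 * a) * t) with h1 | h1
    · exact (level_last h1 h).mono (Finset.Subset.refl _) (by omega)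
    · obtain ⟨A', hA', hcol, hsta⟩ := level_step ha hnt h1 hmod hl (hc a ha h1) h
      have h2 : t / 2 ^ (3 * a / 2) ≤ 2 * c0 a + t / 2 ^ a := by
        have h3 : t / 2 ^ (3 * a / 2) ≤ t / 2 ^ a :=
          Nat.div_le_div_left (Nat.pow_le_pow_right (by norm_num) (by omega)) (by positivity)
        omega
      have h4 := ih (3 * a / 2) (by omega) (hn.trans (Nat.mul_le_mul_right t
        (Nat.pow_le_pow_right (by norm_num) (by omega)))) A' _ _ hsta h2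
      have h5 := hW a ha h1
      refine (hcol.union h4).mono ?_ (by omega)
      intro v hv
      by_cases hv' : v ∈ A'
      · exact Finset.mem_union_right _ hv'
      · exact Finset.mem_union_left _ (Finset.mem_sdiff.2 ⟨hv, hv'⟩)

/-! Row T8 -/
theorem init_num : Real.exp (-((1775 : ℕ) : ℝ)) * 2 ^ (64 * 40) ≤ 1 := by
  have h2 : (2 : ℝ) ^ (64 * 40) = Real.exp (((64 * 40 : ℕ) : ℝ) * Real.log 2) := by
    rw [Real.exp_nat_mul, Real.exp_log (by norm_num)]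
  rw [h2, ← Real.exp_add]
  refine Real.exp_le_one_iff.mpr ?_
  have h3 := Real.log_two_lt_d9
  have h4 : (((64 * 40 : ℕ) : ℝ)) = 2560 := by norm_num
  have h5 : (((1775 : ℕ) : ℝ)) = 1775 := by norm_num
  rw [h4, h5]
  linarith

/-- T9: Theorem L. -/
theorem theoremL {U₀ : Finset V} {t l : ℕ} (ht : 1 ≤ t) (hnt : U₀.card ^ 2 ≤ t ^ 3) (hmod : ¬ Model G U₀ t)
    (c0 W : ℕ → ℕ)
    (hc : ∀ a, 40 ≤ a → 2 ^ (64 * a) * t < U₀.card → ∀ A ⊆ U₀, ¬ Model G A (2 ^ 18 * ta t a) → Col G A (c0 a))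
    (hW : ∀ a, 40 ≤ a → 2 ^ (64 * a) * t < U₀.card → 2 * (2 * c0 a + t / 2 ^ a) + W (3 * a / 2) ≤ W a)
    (hno : ND G U₀ (2 ^ (22 * 40)) l) (hl : t / 2 ^ 40 ≤ l) : Col G U₀ (4 * t * 1775 + l + t + W 40) := by
  have hinit : Left G U₀ (4 * t * 1775) (Real.exp (-((1775 : ℕ) : ℝ))) :=
    B5_init ht (fun h => hmod (h.mono (Finset.Subset.refl _) (by omega))) 1775
  have hsta : Sta G U₀ U₀ t 40 (4 * t * 1775) l := by
    refine ⟨Finset.Subset.refl _, U₀, ∅, 2 ^ (22 * 40), _, Finset.Subset.refl _, Finset.subset_union_left, by simp, hno,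
      le_rfl, (Real.exp_pos _).le, init_num, hinit⟩
  refine levels hnt hmod c0 W hc hW U₀.card 40 le_rfl ?_ U₀ _ _ hsta hl
  have h1 : U₀.card < 2 ^ U₀.card := Nat.lt_two_pow_self
  have h2 : 2 ^ U₀.card ≤ 2 ^ (64 * (40 + U₀.card)) := Nat.pow_le_pow_right (by norm_num) (by omega)
  have h3 : 2 ^ (64 * (40 + U₀.card)) ≤ 2 ^ (64 * (40 + U₀.card)) * t := Nat.le_mul_of_pos_right _ ht
  omega

end HD
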